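import Pool.Agent.H18.Tj.Defs
import Pool.Agent.H18.Ex.Final

/-!
# Module G1b (TJ), `upper`:: the dimension of the fat point systems

`bw r d s b`: width `b l` at the coordinates `l < s`, width `d` at the others.

`upper`: as `Geo_special` in `Pool/Agent/H18/Ta/Geo.lean` and `exists_special` in `Pool/Agent/H18/Ex/Final.lean`:
`p₀ (J l)` is the coordinate point `Pi.single l 1` (`l < s`), the other `p₀ i` and the `N - L` simple points are the
positions given by `GM_iff`; the forms are supported in `Rg d w` (`vanishes_coord_iff`); `general_finrank_le`.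

`toric_ge` (for arbitrary positions): the conditions `Kind.free m` on the functions supported in `Rg d w`, `m ≤ d`
(`m - 1 < d` suffices), follow from the conditions with `|b| = m - 1`, `b ≤ w`, of which there are `Lx w m`:
for `|b| < d` the Euler relation `(d - |b|) D_b = ∑_j (b_j + 1) q_j D_{b + e_j}`, `D_b = ∑_a f a * tcr q a b`
(`binom (a_j, b_j) (a_j - b_j) = (b_j + 1) binom (a_j, b_j + 1)`, `∑_j (a_j - b_j) = d - |b|`), gives
`D_b = 0` for all `|b| < m` by descending induction on `|b|`; and `D_b = 0` if some `b_j > w_j` (`binom (a_j, b_j) = 0`).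
So the space of solutions has dimension at least `card - ∑ Lx w (m i)` (rank-nullity).

`lower`: for general `p` the points `p (J l)` and the coordinate points `e_l`, `s ≤ l ≤ r`, are linearly independent
(the determinant is a nonzero polynomial, see `general_det` in `Pool/Agent/H18/TileFinal.lean`); `finrank_linear`
(`Pool/Agent/H18/Cub/CremL.lean`; or `finrank_linSubst`) moves `p (J l)` to `e_l`; then `toric_ge` for the images of the
other points, and the polynomials with coefficients in the space of solutions are in `fatForms`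
(`finrank_coord_ge` in `TileFinal.lean` shows how to construct the injection; `vanishes_coord_iff`).
-/

namespace Pool.Agent.H18.Tj

open Finset Function Pool.Agent.H18.Ex Pool.Agent.H18.Fat

/-- The widths. -/
def bw (r d s : ℕ) (b : Fin s → ℕ) : Fin (r + 1) → ℕ :=
  fun l => if h : l.val < s then b ⟨l.val, h⟩ else d

/-- The special configuration. -/
private theorem GeoB_special {r k d s : ℕ} (hs : s ≤ r + 1) (m : Fin k → ℕ)
    (J : Fin s ↪ Fin k) (hJ : ∀ l, m (J l) ≤ d) (R : ℕ)
    (h : GM (Ex.Rg d (bw r d s fun l => d - m (J l)))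
      ((((univ.filter fun i => ∀ l, J l ≠ i).val.map m) + Multiset.replicate R 1).map
        Kind.free)) :
    ∃ p₀ : Fin k → Fin (r + 1) → ℂ, Module.finrank ℂ (fatForms r d p₀ m) ≤ R := by
  classical
  set w : Fin (r + 1) → ℕ := bw r d s fun l => d - m (J l) with hw
  let I := {i : Fin k // ∀ l, J l ≠ i}
  let kk : I ⊕ Fin R → Kind (Fin (r + 1)) :=
    Sum.elim (fun i => Kind.free (m i.1)) fun _ => Kind.free 1
  have hkk : (univ : Finset (I ⊕ Fin R)).val.map kk =
      (((univ.filter fun i => ∀ l, J l ≠ i).val.map m) + Multiset.replicate R 1).map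
        Kind.free := by
    have h1 : (univ : Finset (I ⊕ Fin R)).val =
        (univ : Finset I).val.map Sum.inl + (univ : Finset (Fin R)).val.map Sum.inr := rfl
    have h2 : (univ.filter fun i : Fin k => ∀ l, J l ≠ i).val =
        (univ : Finset I).val.map Subtype.val := by
      have h3 : (univ.filter fun i : Fin k => ∀ l, J l ≠ i) =
          (univ : Finset I).map (Function.Embedding.subtype _) := by
        ext i
        simp only [mem_filter, mem_univ, true_and, mem_map, Function.Embedding.coe_subtype]
        constructor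
        · intro hi
          exact ⟨⟨i, hi⟩, rfl⟩
        · rintro ⟨a, rfl⟩
          exact a.2
      rw [h3]
      rfl
    rw [h1, h2, Multiset.map_add, Multiset.map_map, Multiset.map_map, Multiset.map_add,
      Multiset.map_map, Multiset.map_map, Multiset.map_replicate]
    congr 1
    have h4 : ((univ : Finset (Fin R)).val.map (kk ∘ Sum.inr)) =
        (univ : Finset (Fin R)).val.map (Function.const (Fin R) (Kind.free 1)) := rfl
    rw [h4, Multiset.map_const]
    simp
  have hGI : GI (Ex.Rg d w) kk := by
    rw [← GM_iff, hkk]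
    exact h
  obtain ⟨pos, hpos⟩ := hGI
  have hex : ∀ i : Fin k, ¬ (∀ l, J l ≠ i) → ∃ l, J l = i := fun i hi => by
    push Not at hi
    exact hi
  let p₀ : Fin k → Fin (r + 1) → ℂ := fun i =>
    if hi : ∀ l, J l ≠ i then pos (Sum.inl ⟨i, hi⟩)
    else Pi.single (Fin.castLE hs (hex i hi).choose) 1
  have hp₀ : ∀ l : Fin s, p₀ (J l) = Pi.single (Fin.castLE hs l) 1 := by
    intro l
    have hi : ¬ ∀ l', J l' ≠ J l := fun h => h l rfl
    simp only [p₀]
    rw [dif_neg hi, J.injective (hex _ hi).choose_spec]
  refine ⟨p₀, ?_⟩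
  -- the support
  have hsupp : ∀ F ∈ fatForms r d p₀ m, ∀ α ∈ F.support,
      (⇑α : Fin (r + 1) → ℕ) ∈ Ex.Rg d w := by
    intro F hF α hα
    rw [MvPolynomial.mem_support_iff] at hα
    have hαd : α ∈ mons (r + 1) d := by
      rw [mem_mons]
      by_contra h
      exact hα (hF.1.coeff_eq_zero h)
    rw [Ex.mem_Rg]
    have hdeg := mem_mons.1 hαd
    rw [Finsupp.degree_eq_sum] at hdeg
    refine ⟨fun l => ?_, hdeg⟩
    have hle : α l ≤ d := by
      rw [← hdeg]
      exact single_le_sum (f := fun i => α i) (fun _ _ => Nat.zero_le _) (mem_univ l)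
    by_cases hl : l.val < s
    · have h3 := hF.2 (J ⟨l.val, hl⟩)
      rw [hp₀ ⟨l.val, hl⟩, ← exists_toPoly hF.1, vanishes_coord_iff] at h3
      have h4 := h3 ⟨α, hαd⟩ hα
      have h5 : Fin.castLE hs ⟨l.val, hl⟩ = l := Fin.ext rfl
      rw [h5] at h4
      have h6 := hJ ⟨l.val, hl⟩
      have h7 : w l = d - m (J ⟨l.val, hl⟩) := by
        rw [hw]
        unfold bw
        rw [dif_pos hl]
      rw [h7]
      change α l + m (J ⟨l.val, hl⟩) ≤ d at h4
      omega
    · have h7 : w l = d := by
        rw [hw]
        unfold bw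
        rw [dif_neg hl]
      rw [h7]
      exact hle
  let Ψ : fatForms r d p₀ m →ₗ[ℂ] (Fin R → ℂ) :=
    { toFun := fun F j => ∑ a ∈ Ex.Rg d w, cf F.1 a * tcr (pos (Sum.inr j)) a 0
      map_add' := fun F G => by
        funext j
        simp only [Submodule.coe_add, cf, MvPolynomial.coeff_add, Pi.add_apply, add_mul,
          sum_add_distrib]
      map_smul' := fun c F => by
        funext j
        simp only [Submodule.coe_smul, cf, MvPolynomial.coeff_smul, smul_eq_mul, RingHom.id_apply,
          Pi.smul_apply, mul_sum, mul_assoc] }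
  have hΨ : Function.Injective Ψ := by
    rw [← LinearMap.ker_eq_bot, LinearMap.ker_eq_bot']
    intro F hF
    have h1 : ∀ i, Sat (Ex.Rg d w) (cf F.1) (kk i) (pos i) := by
      rintro (i | j)
      · have h2 := F.2.2 i.1
        have h3 : p₀ i.1 = pos (Sum.inl i) := by
          simp only [p₀]
          rw [dif_pos i.2]
        rw [h3] at h2
        exact sat_of_vanishes (hsupp F.1 F.2) h2
      · intro b hb
        have hb0 : b = 0 := by
          change ∑ i, b i < 1 at hb
          have h2 : ∑ i, b i = 0 := by omega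
          rw [sum_eq_zero_iff] at h2
          funext i
          exact h2 i (mem_univ _)
        subst hb0
        exact congrFun hF j
    have h2 := hpos (cf F.1) h1
    apply Subtype.ext
    change F.1 = 0
    by_contra hne
    obtain ⟨α, hα⟩ := MvPolynomial.ne_zero_iff.1 hne
    have h3 := hsupp F.1 F.2 α (MvPolynomial.mem_support_iff.2 hα)
    have h4 := h2 _ h3
    unfold cf at h4
    rw [show Finsupp.equivFunOnFinite.symm (⇑α) = α from by ext; rfl] at h4
    exact hα h4
  have := LinearMap.finrank_le_finrank_of_injective hΨ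
  rwa [Module.finrank_fintype_fun_eq_card, Fintype.card_fin] at this

theorem upper {r k d s : ℕ} (hr : 1 ≤ r) (hs : s ≤ r + 1) (m : Fin k → ℕ) (J : Fin s ↪ Fin k)
    (hJ : ∀ l, m (J l) ≤ d) (R : ℕ)
    (h : GM (Ex.Rg d (bw r d s fun l => d - m (J l)))
      ((((univ.filter fun i => ∀ l, J l ≠ i).val.map m) + Multiset.replicate R 1).map
        Kind.free)) :
    ForGeneralPoints r k fun p => Module.finrank ℂ (fatForms r d p m) ≤ R := by
  obtain ⟨p₀, hp₀⟩ := GeoB_special hs m J hJ R h
  exact (general_finrank_le d p₀ m).mono fun p hp => hp.trans hp₀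

end Pool.Agent.H18.Tj
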