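import Pool.Agent.H18.Tj.GeoA
import Pool.Agent.H18.Tj.GeoB
import Pool.Agent.H18.Cub.CremL

/-!
# Module G1c (TJ), `lower`:: the dimension of the fat point systems

`bw r d s b`: width `b l` at the coordinates `l < s`, width `d` at the others.

`upper`: as `Geo_special` in `Pool/Agent/H18/Ta/Geo.lean` and `exists_special` in `Pool/Agent/H18/Ex/Final.lean`:
`p₀ (J l)` is the coordinate point `Pi.single l 1` (`l < s`), the other `p₀ i` and the `N - L` simple points are the
positions given by `GM_iff`; the forms are supported in `Rg d w` (`vanishes_coord_iff`); `general_finrank_le`.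

`toric_ge` (for arbitrary positions): the conditions `Kind.free m` on the functions supported in `Rg d w`, `m ≤ d`
(`m - 1 < d` suffices), follow from the conditions with `|b| = m - 1`, `b ≤ w`, of which there are `Lx w m`:
for `|b| < d` the Euler relation `(d - |b|) D_b = ∑_j (b_j + 1) q_j D_{b + e_j}`, `D_b = ∑_a f a * tcr q a b`
(`binom (a_j, b_j) (a_j - b_j) = (b_j + 1) binom (a_j, b_j + 1)`, `∑_j (a_j - b_j) = d - |b|`), gives
`D_b = 0` for all `|b| < m` by descending induction on `|b|`; and `D_b = 0` if some `b_j > w_j` (`binom (a_j, b_j) = 0`).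
So the space of solutions has dimension at least `card - ∑ Lx w (m i)` (rank-nullity).

`lower`: for general `p` the points `p (J l)` and the coordinate points `e_l`, `s ≤ l ≤ r`, are linearly independent
(the determinant is a nonzero polynomial, see `general_det` in `Pool/Agent/H18/TileFinal.lean`); `finrank_linear`
(`Pool/Agent/H18/Cub/CremL.lean`; or `finrank_linSubst`) moves `p (J l)` to `e_l`; then `toric_ge` for the images of the
other points, and the polynomials with coefficients in the space of solutions are in `fatForms`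
(`finrank_coord_ge` in `TileFinal.lean` shows how to construct the injection; `vanishes_coord_iff`).
-/

namespace Pool.Agent.H18.Tj

open Finset Function Pool.Agent.H18.Ex Pool.Agent.H18.Fat

private theorem GeoT_det {r k s : ℕ} (J : Fin s ↪ Fin k) :
    ForGeneralPoints r k fun p =>
      (Matrix.of fun j l : Fin (r + 1) => if h : l.val < s then p (J ⟨l.val, h⟩) j
        else (Pi.single l 1 : Fin (r + 1) → ℂ) j).det ≠ 0 := by
  classical
  let M : Matrix (Fin (r + 1)) (Fin (r + 1)) (MvPolynomial (Fin k × Fin (r + 1)) ℂ) :=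
    Matrix.of fun j l => if h : l.val < s then MvPolynomial.X (J ⟨l.val, h⟩, j)
        else MvPolynomial.C ((Pi.single l 1 : Fin (r + 1) → ℂ) j)
  have hM : ∀ p : Fin k → Fin (r + 1) → ℂ, MvPolynomial.eval (fun x => p x.1 x.2) M.det =
      (Matrix.of fun j l : Fin (r + 1) => if h : l.val < s then p (J ⟨l.val, h⟩) j
        else (Pi.single l 1 : Fin (r + 1) → ℂ) j).det := by
    intro p
    rw [RingHom.map_det]
    congr 1
    ext j l
    simp only [M, RingHom.mapMatrix_apply, Matrix.map_apply, Matrix.of_apply]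
    split_ifs <;> simp
  refine ⟨M.det, ?_, fun p hp => by rwa [hM] at hp⟩
  intro h0
  have h1 := hM fun a i => if ∃ l : Fin s, J l = a ∧ l.val = i.val then 1 else 0
  rw [h0, map_zero] at h1
  have h2 : (Matrix.of fun j l : Fin (r + 1) => if h : l.val < s then
      (if ∃ l' : Fin s, J l' = J ⟨l.val, h⟩ ∧ l'.val = j.val then (1 : ℂ) else 0)
        else (Pi.single l 1 : Fin (r + 1) → ℂ) j) =
      (1 : Matrix (Fin (r + 1)) (Fin (r + 1)) ℂ) := by
    ext j l
    rw [Matrix.of_apply, Matrix.one_apply]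
    by_cases hl : l.val < s
    · rw [dif_pos hl]
      by_cases hjl : j = l
      · rw [if_pos hjl, if_pos ⟨⟨l.val, hl⟩, rfl, by rw [hjl]⟩]
      · rw [if_neg hjl, if_neg]
        rintro ⟨l', h3, h4⟩
        have h5 := J.injective h3
        subst h5
        exact hjl (Fin.ext h4.symm)
    · rw [dif_neg hl]
      by_cases hjl : j = l
      · rw [if_pos hjl, hjl, Pi.single_eq_same]
      · rw [if_neg hjl, Pi.single_eq_of_ne hjl]
  rw [h2, Matrix.det_one] at h1
  exact zero_ne_one h1

/-- Coefficient vectors supported in `Rg d w` to coefficient vectors. -/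
private noncomputable def GeoT_ext {r d : ℕ} (w : Fin (r + 1) → ℕ) :
    ({a // a ∈ Ex.Rg d w} → ℂ) →ₗ[ℂ] (mons (r + 1) d → ℂ) where
  toFun c := fun α => if h : (⇑α.1 : Fin (r + 1) → ℕ) ∈ Ex.Rg d w then c ⟨_, h⟩ else 0
  map_add' c c' := by
    funext α
    by_cases h : (⇑α.1 : Fin (r + 1) → ℕ) ∈ Ex.Rg d w
    · simp [h]
    · simp [h]
  map_smul' t c := by
    funext α
    by_cases h : (⇑α.1 : Fin (r + 1) → ℕ) ∈ Ex.Rg d w
    · simp [h]
    · simp [h]

private theorem GeoT_ext_apply {r d : ℕ} (w : Fin (r + 1) → ℕ) (c : {a // a ∈ Ex.Rg d w} → ℂ)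
    (α : mons (r + 1) d) : GeoT_ext w c α =
      if h : (⇑α.1 : Fin (r + 1) → ℕ) ∈ Ex.Rg d w then c ⟨_, h⟩ else 0 := rfl

/-- The exponent of a point of the region. -/
private noncomputable def GeoT_e {r d : ℕ} (w : Fin (r + 1) → ℕ) (a : {a // a ∈ Ex.Rg d w}) :
    mons (r + 1) d :=
  ⟨Finsupp.equivFunOnFinite.symm a.1, by
    rw [mem_mons, Finsupp.degree_eq_sum]
    exact (Ex.mem_Rg.1 a.2).2⟩

private theorem GeoT_e_coe {r d : ℕ} (w : Fin (r + 1) → ℕ) (a : {a // a ∈ Ex.Rg d w}) :
    (⇑(GeoT_e w a).1 : Fin (r + 1) → ℕ) = a.1 := rfl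

private theorem GeoT_ext_e {r d : ℕ} (w : Fin (r + 1) → ℕ) (c : {a // a ∈ Ex.Rg d w} → ℂ)
    (a : {a // a ∈ Ex.Rg d w}) : GeoT_ext w c (GeoT_e w a) = c a := by
  rw [GeoT_ext_apply, dif_pos (by rw [GeoT_e_coe]; exact a.2)]
  rfl

private theorem GeoT_ext_injective {r d : ℕ} (w : Fin (r + 1) → ℕ) :
    Function.Injective (GeoT_ext (d := d) w) := by
  intro c c' h
  funext a
  rw [← GeoT_ext_e w c a, h, GeoT_ext_e]

private theorem GeoT_sum {r d : ℕ} (w : Fin (r + 1) → ℕ) (c : {a // a ∈ Ex.Rg d w} → ℂ)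
    (q : Fin (r + 1) → ℂ) (β : Fin (r + 1) →₀ ℕ) :
    ∑ α : mons (r + 1) d, GeoT_ext w c α * tc q α.1 β =
      ∑ a : {a // a ∈ Ex.Rg d w}, c a * tcr q a.1 ⇑β := by
  symm
  apply Fintype.sum_of_injective (GeoT_e w)
  · intro a a' h
    apply Subtype.ext
    rw [← GeoT_e_coe w a, h, GeoT_e_coe]
  · intro α hα
    rw [GeoT_ext_apply, dif_neg, zero_mul]
    intro h
    apply hα
    refine ⟨⟨_, h⟩, ?_⟩
    apply Subtype.ext
    ext j
    rfl
  · intro a
    rw [GeoT_ext_e]
    rfl

theorem lower {r k d s : ℕ} (hr : 1 ≤ r) (hs : s ≤ r + 1) (m : Fin k → ℕ) (J : Fin s ↪ Fin k)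
    (hJ : ∀ l, m (J l) ≤ d) (hm : ∀ i, (∀ l, J l ≠ i) → m i ≤ d) :
    ForGeneralPoints r k fun p =>
      (Ex.Rg d (bw r d s fun l => d - m (J l))).card ≤ Module.finrank ℂ (fatForms r d p m) +
        ∑ i ∈ univ.filter (fun i => ∀ l, J l ≠ i), Lx (bw r d s fun l => d - m (J l)) (m i) := by
  classical
  refine (GeoT_det J).mono ?_
  intro p hdet
  set w : Fin (r + 1) → ℕ := bw r d s fun l => d - m (J l) with hw
  set A : Matrix (Fin (r + 1)) (Fin (r + 1)) ℂ := Matrix.of fun j l : Fin (r + 1) =>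
    if h : l.val < s then p (J ⟨l.val, h⟩) j else (Pi.single l 1 : Fin (r + 1) → ℂ) j with hA
  have hunit : IsUnit A.det := isUnit_iff_ne_zero.2 hdet
  set p' : Fin k → Fin (r + 1) → ℂ := fun i => A⁻¹.mulVec (p i) with hp'
  -- the points after the change of coordinates
  have h1 : Module.finrank ℂ (fatForms r d p m) = Module.finrank ℂ (fatForms r d p' m) := by
    have h2 := Cub.finrank_linear (d := d) A hunit p' m
    have h3 : (fun i => A.mulVec (p' i)) = p := by
      funext i
      rw [hp', Matrix.mulVec_mulVec, Matrix.mul_nonsing_inv A hunit, Matrix.one_mulVec]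
    rwa [h3] at h2
  have hJp : ∀ l : Fin s, p' (J l) = Pi.single (⟨l.val, by omega⟩ : Fin (r + 1)) 1 := by
    intro l
    have h2 : A.mulVec (Pi.single (⟨l.val, by omega⟩ : Fin (r + 1)) 1) = p (J l) := by
      funext j
      rw [Matrix.mulVec_single_one]
      simp only [hA, Matrix.col_apply, Matrix.of_apply, dif_pos l.2]
    rw [hp']
    simp only
    rw [← h2, Matrix.mulVec_mulVec, Matrix.nonsing_inv_mul A hunit, Matrix.one_mulVec]
  obtain ⟨V, hV, hV'⟩ := toric_ge (κ := {i : Fin k // ∀ l, J l ≠ i}) d w (fun i => m i.1)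
    (fun i => hm i.1 i.2) (fun i => p' i.1)
  have h4 : ∑ i : {i : Fin k // ∀ l, J l ≠ i}, Lx w (m i.1) =
      ∑ i ∈ univ.filter (fun i => ∀ l, J l ≠ i), Lx w (m i) := by
    rw [sum_subtype (p := fun i => ∀ l, J l ≠ i) (univ.filter (fun i => ∀ l, J l ≠ i))
      (by simp) (fun i => Lx w (m i))]
  rw [h1, ← h4]
  refine hV.trans (Nat.add_le_add_right ?_ _)
  let Ψ : V →ₗ[ℂ] MvPolynomial (Fin (r + 1)) ℂ :=
    (toPoly (r + 1) d) ∘ₗ (GeoT_ext w) ∘ₗ V.subtype
  have hΨ : ∀ c : V, Ψ c = toPoly (r + 1) d (GeoT_ext w c.1) := fun _ => rfl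
  have hmem : ∀ c : V, Ψ c ∈ fatForms r d p' m := by
    intro c
    rw [hΨ]
    refine ⟨toPoly_isHomogeneous _, fun i => ?_⟩
    by_cases hi : ∀ l, J l ≠ i
    · intro β hβ
      rw [coeff_shift_toPoly, GeoT_sum]
      apply hV' c.1 c.2 ⟨i, hi⟩
      rw [Finsupp.degree_eq_sum] at hβ
      exact hβ
    · push Not at hi
      obtain ⟨l, rfl⟩ := hi
      rw [hJp l, vanishes_coord_iff]
      intro α hα
      rw [GeoT_ext_apply] at hα
      by_cases h : (⇑α.1 : Fin (r + 1) → ℕ) ∈ Ex.Rg d w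
      · have h5 := (Ex.mem_Rg.1 h).1 ⟨l.val, by omega⟩
        have h6 : w ⟨l.val, by omega⟩ = d - m (J l) := by
          simp only [hw, bw, dif_pos l.2]
        rw [h6] at h5
        have h7 := hJ l
        omega
      · rw [dif_neg h] at hα
        exact absurd rfl hα
  have hinj : Function.Injective (Ψ.codRestrict _ hmem) := by
    intro c c' h
    have h5 : Ψ c = Ψ c' := congrArg Subtype.val h
    rw [hΨ, hΨ] at h5
    exact Subtype.ext (GeoT_ext_injective w (toPoly_injective _ _ h5))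
  exact LinearMap.finrank_le_finrank_of_injective hinj

end Pool.Agent.H18.Tj
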