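import Pool.Agent.H18.Tj.ExactT
import Pool.Agent.H18.Tj.GeoT
import Pool.Agent.H18.Ub.VDim

/-!
# Module G2 (TJ): the main theorem

`w = bw r d' s b`, `b l = d' - m' (J l)`; `cnt r s b e = (Rg e w).card` for `e ≤ d'` (`count_eq`).  `h = r`,
`l = r - 1` (the last two coordinates are `≥ s`, width `d'`), `u`: if `s + 2 ≤ r` the coordinate `s` (width `d'`), otherwise the
coordinate of the point with `m' (J l) + D ≤ d'`.  `N = (Rg d' w).card`, `L = ∑ Lx w (m' i)`, `R = N - L`: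
`exact_all` for `S = {m' i} + R · 1` gives `upper`; `lower`; so `dim = N - L = max 0 (N - L)`; `final_of_dim`.
-/

namespace Pool.Agent.H18.Tj

open Finset Function Pool.Agent.H18.Ex Pool.Agent.H18.Fat Pool.Agent.H18.Pr

/-- The number of the monomials of degree `e` in `x_0, …, x_r` with exponent at most `b l` at `x_l`, `l < s`. -/
noncomputable def cnt (r s : ℕ) (b : Fin s → ℕ) (e : ℕ) : ℕ :=
  Nat.card {α : Fin (r + 1) → ℕ // ∑ l, α l = e ∧ ∀ (l : Fin s) (h : l.val < r + 1),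
    α ⟨l.val, h⟩ ≤ b l}

theorem count_eq (r s d e : ℕ) (hs : s ≤ r + 1) (he : e ≤ d) (b : Fin s → ℕ) :
    cnt r s b e = (Ex.Rg e (bw r d s b)).card := by
  have h1 : ∀ α : Fin (r + 1) → ℕ, (∑ l, α l = e ∧ ∀ (l : Fin s) (h : l.val < r + 1),
      α ⟨l.val, h⟩ ≤ b l) ↔ α ∈ Ex.Rg e (bw r d s b) := by
    intro α
    rw [Ex.mem_Rg, and_comm]
    refine and_congr_left fun hsum => ⟨fun h i => ?_, fun h l hl => ?_⟩
    · unfold bw
      split_ifs with hi
      · exact h ⟨i.val, hi⟩ i.2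
      · have h2 : α i ≤ ∑ l, α l := single_le_sum (fun _ _ => Nat.zero_le _) (mem_univ i)
        omega
    · have h2 := h ⟨l.val, hl⟩
      unfold bw at h2
      rwa [dif_pos l.2] at h2
  unfold cnt
  rw [Nat.card_congr (Equiv.subtypeEquivRight h1), Nat.card_eq_fintype_card, Fintype.card_coe]

private theorem FinalT_Lx_one {ι : Type} [Fintype ι] [DecidableEq ι] (w : ι → ℕ) :
    Lx w 1 = 1 := by
  have h1 : Ex.Rg 0 w = {fun _ => 0} := by
    ext a
    rw [Ex.mem_Rg, mem_singleton]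
    refine ⟨fun h => ?_, fun h => ?_⟩
    · funext i
      have h2 : a i ≤ ∑ l, a l := single_le_sum (fun _ _ => Nat.zero_le _) (mem_univ i)
      omega
    · subst h
      exact ⟨fun _ => Nat.zero_le _, sum_const_zero⟩
  unfold Lx
  rw [if_neg one_ne_zero, Nat.sub_self, h1, card_singleton]

/-- The dimension of the reduced system. -/
private theorem FinalT_dim {r k d' s M : ℕ} (hr : 2 ≤ r) (hM : 1 ≤ M) (m' : Fin k → ℕ)
    (J : Fin s ↪ Fin k) (hs : s + 1 ≤ r) (hm : ∀ i, (∀ l, J l ≠ i) → m' i ≤ M)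
    (hJ : ∀ l, m' (J l) ≤ d') (hMd : M ≤ d')
    (hex : ∀ S : Multiset ℕ, (∀ m ∈ S, m ≤ M) →
      (Ex.Rg d' (bw r d' s fun l => d' - m' (J l))).card ≤
        (S.map (Lx (bw r d' s fun l => d' - m' (J l)))).sum →
      GM (Ex.Rg d' (bw r d' s fun l => d' - m' (J l))) (S.map Kind.free)) :
    ForGeneralPoints r k fun p =>
      (Module.finrank ℂ (fatForms r d' p m') : ℤ) =
        max 0 ((cnt r s (fun l => d' - m' (J l)) d' : ℤ) -
          ∑ i ∈ univ.filter (fun i => (∀ l, J l ≠ i) ∧ 1 ≤ m' i),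
            (cnt r s (fun l => d' - m' (J l)) (m' i - 1) : ℤ)) := by
  have hs1 : s ≤ r + 1 := by omega
  have hsum : ∑ i ∈ univ.filter (fun i => (∀ l, J l ≠ i) ∧ 1 ≤ m' i),
      (cnt r s (fun l => d' - m' (J l)) (m' i - 1) : ℤ) =
      ((∑ i ∈ univ.filter (fun i => ∀ l, J l ≠ i),
        Lx (bw r d' s fun l => d' - m' (J l)) (m' i) : ℕ) : ℤ) := by
    rw [Nat.cast_sum, ← filter_filter, sum_filter]
    refine sum_congr rfl fun i hi => ?_
    have hi1 : ∀ l, J l ≠ i := (mem_filter.1 hi).2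
    have hi2 := hm i hi1
    unfold Lx
    by_cases h0 : m' i = 0
    · rw [if_neg (by omega), if_pos h0, Nat.cast_zero]
    · rw [if_pos (by omega), if_neg h0, count_eq r s d' (m' i - 1) hs1 (by omega)]
  rw [hsum, count_eq r s d' d' hs1 le_rfl]
  generalize hLdef : ∑ i ∈ univ.filter (fun i => ∀ l, J l ≠ i),
    Lx (bw r d' s fun l => d' - m' (J l)) (m' i) = L
  generalize hNdef : (Ex.Rg d' (bw r d' s fun l => d' - m' (J l))).card = N
  have hup := upper (r := r) (d := d') (by omega) hs1 m' J hJ (N - L) (hex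
    (((univ.filter fun i => ∀ l, J l ≠ i).val.map m') + Multiset.replicate (N - L) 1)
    (by
      intro x hx
      rcases Multiset.mem_add.1 hx with hx | hx
      · obtain ⟨i, hi, rfl⟩ := Multiset.mem_map.1 hx
        have hi' : i ∈ univ.filter fun i => ∀ l, J l ≠ i := hi
        exact hm i (mem_filter.1 hi').2
      · rw [Multiset.eq_of_mem_replicate hx]
        exact hM)
    (by
      rw [Multiset.map_add, Multiset.sum_add, Multiset.map_map, Multiset.map_replicate,
        Multiset.sum_replicate, FinalT_Lx_one, hNdef]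
      have h3 : (Multiset.map (Lx (bw r d' s fun l => d' - m' (J l)) ∘ m')
          (univ.filter fun i => ∀ l, J l ≠ i).val).sum = L := hLdef
      rw [h3, smul_eq_mul, mul_one]
      omega))
  have hlo := lower (r := r) (d := d') (by omega) hs1 m' J hJ
    fun i hi => (hm i hi).trans hMd
  refine (hup.and hlo).mono fun p hp => ?_
  obtain ⟨h1, h2⟩ := hp
  rw [hLdef, hNdef] at h2
  omega

theorem final_T (r : ℕ) (hr : 2 ≤ r) : ∃ K E : ℕ, ∀ M : ℕ, 1 ≤ M →
    ∀ (k d d' s : ℕ) (m m' : Fin k → ℕ) (J : Fin s ↪ Fin k),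
    Cremona r d m d' m' → s + 1 ≤ r → (∀ i, (∀ l, J l ≠ i) → m' i ≤ M) →
    (∀ l, m' (J l) ≤ d') → K * M ^ E ≤ d' →
    (s + 2 ≤ r ∨ ∃ l, m' (J l) + K * M ^ E ≤ d') →
    ForGeneralPoints r k fun p =>
      (Module.finrank ℂ (fatForms r d p m) : ℤ) =
        max 0 ((cnt r s (fun l => d' - m' (J l)) d' : ℤ) -
          ∑ i ∈ univ.filter (fun i => (∀ l, J l ≠ i) ∧ 1 ≤ m' i),
            (cnt r s (fun l => d' - m' (J l)) (m' i - 1) : ℤ)) ∧
      (¬ ImposesMaximalConditions r d p m ↔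
        0 < (cnt r s (fun l => d' - m' (J l)) d' : ℤ) -
          ∑ i ∈ univ.filter (fun i => (∀ l, J l ≠ i) ∧ 1 ≤ m' i),
            (cnt r s (fun l => d' - m' (J l)) (m' i - 1) : ℤ) ∧
        ((d + r).choose r : ℤ) - ∑ i, ((m i + r - 1).choose r : ℤ) <
          (cnt r s (fun l => d' - m' (J l)) d' : ℤ) -
            ∑ i ∈ univ.filter (fun i => (∀ l, J l ≠ i) ∧ 1 ≤ m' i),
              (cnt r s (fun l => d' - m' (J l)) (m' i - 1) : ℤ)) := by
  obtain ⟨D, hD, hex⟩ := exact_all (ι := Fin (r + 1)) (r + 1)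
    (by rw [Fintype.card_fin]) (by omega)
  obtain ⟨K, E, hKE⟩ := hD
  refine ⟨K + 1, E + 1, fun M hM k d d' s m m' J hcr hs hm hJ hK hu => ?_⟩
  have hp1 : 1 ≤ M ^ E := Nat.one_le_pow _ _ hM
  have hDK : D M ≤ (K + 1) * M ^ (E + 1) := by
    refine (hKE M hM).trans ?_
    rw [pow_succ]
    nlinarith [Nat.zero_le (K * M ^ E), Nat.mul_le_mul_left (K * M ^ E) hM,
      Nat.mul_le_mul hp1 hM]
  have hMK : M ≤ (K + 1) * M ^ (E + 1) := by
    rw [pow_succ]
    calc M = 1 * (1 * M) := by ring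
      _ ≤ (K + 1) * (M ^ E * M) :=
        Nat.mul_le_mul (by omega) (Nat.mul_le_mul_right M hp1)
  have hh : bw r d' s (fun l => d' - m' (J l)) ⟨r, by omega⟩ = d' := by
    unfold bw
    rw [dif_neg (by simp only [not_lt]; omega)]
  have hl : bw r d' s (fun l => d' - m' (J l)) ⟨r - 1, by omega⟩ = d' := by
    unfold bw
    rw [dif_neg (by simp only [not_lt]; omega)]
  have hhl : (⟨r, by omega⟩ : Fin (r + 1)) ≠ ⟨r - 1, by omega⟩ := by
    intro h
    rw [Fin.mk.injEq] at h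
    omega
  obtain ⟨u, hu1, hu2, hu3⟩ : ∃ u : Fin (r + 1), u ≠ ⟨r - 1, by omega⟩ ∧
      (⟨r, by omega⟩ : Fin (r + 1)) ≠ u ∧
      D M ≤ bw r d' s (fun l => d' - m' (J l)) u := by
    rcases hu with hu | ⟨l, hu⟩
    · refine ⟨⟨s, by omega⟩, ?_, ?_, ?_⟩
      · intro h
        rw [Fin.mk.injEq] at h
        omega
      · intro h
        rw [Fin.mk.injEq] at h
        omega
      · unfold bw
        rw [dif_neg (by simp only [not_lt]; omega)]
        exact hDK.trans hK
    · have hls := l.2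
      refine ⟨⟨l.val, by omega⟩, ?_, ?_, ?_⟩
      · intro h
        rw [Fin.mk.injEq] at h
        omega
      · intro h
        rw [Fin.mk.injEq] at h
        omega
      · unfold bw
        rw [dif_pos hls]
        have h4 : (⟨l.val, hls⟩ : Fin s) = l := rfl
        simp only [h4]
        omega
  exact Ub.final_of_dim (by omega) hcr _ (FinalT_dim hr hM m' J hs hm hJ (hMK.trans hK)
    (hex M hM ⟨r - 1, by omega⟩ ⟨r, by omega⟩ u hhl hu1 hu2 _ d' hh hl hu3 (hDK.trans hK)))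

end Pool.Agent.H18.Tj
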