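import Pool.Agent.H18.Ta.Rk

/-!
# Module T2 (TJ): balanced distribution

`rk ℓ u 0 s` is `ℓ - 1 - s` for `s < u` and `s - u` for `s ≥ u`.

`exists_weights`: let `W` be decreasing and convex, `d i = W i - W (i + 1)` (`≥ 0`, decreasing).  There are
`a_u ≥ 0`, `∑ a_u = 1`, such that `∑_u a_u W (rk ℓ u 0 s)` does not depend on `s < ℓ` (so it is `(∑_{t<ℓ} W t) / ℓ`,
sum over `s`).  If `d 0 = 0` then `W` is constant and every `a` is good.  Let `d 0 > 0`, so `W 0 > W i` for `i ≥ 1`, and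
`ℓ ≥ 2`.  With `R_{s+1} = ∑_{u > s} a_u` the difference of the values at `s` and `s + 1` is
`X_s - a_{s+1} (W 0 - W (ℓ - 2 - s))`, where `X_s = ∑_{u ≤ s} a_u d (s - u) - R_{s+1} d (ℓ - 2 - s)`.
For given `a_0` define (greedy) `R_1 = 1 - a_0` and `a_{s+1} = X_s / (W 0 - W (ℓ - 2 - s))`, `R_{s+2} = R_{s+1} - a_{s+1}`
for `s ≤ ℓ - 3`, finally `a_{ℓ-1} = R_{ℓ-1}`; then `∑ a = 1` and all differences vanish except possibly the
last one, which is `X_{ℓ-2}`.
(1) If `a_0 = 1`: all `a_s ≥ 0` (`s ≤ ℓ - 2`) and all `R_s ≤ 0`, so `X_{ℓ-2} ≥ 0`.  (2) If `a_0 = 0`: `X_0 ≤ 0`, all `a_s ≤ 0`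
(`1 ≤ s ≤ ℓ - 2`), all `R_s ≥ 1`, `X_{ℓ-2} ≤ 0`.  Everything is linear, so a convex combination of the two solutions
has `X_{ℓ-2} = 0`.  (3) Then all `a_s ≥ 0`: let `a_{s+1} < 0` be the first negative one, `s + 1 ≤ ℓ - 2`; then `X_s < 0`, so
`R_{s+1} > 0`, and by induction `a_{t+1} ≤ 0`, `R_{t+1} ≥ R_{s+1}`, `X_t ≤ X_s < 0` for all `t ≥ s` (the `d (t - u)`,
`u ≤ s`, decrease, `d (ℓ - 2 - t)` increases), a contradiction at `t = ℓ - 2`.  Finally `X_{ℓ-2} = 0` reads
`∑_{u ≤ ℓ-2} a_u d (ℓ - 2 - u) = a_{ℓ-1} d 0`, so `a_{ℓ-1} ≥ 0`.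

`bal`: `∑_u a_u ∑_s y s (ℓ W (rk ℓ u 0 s) - ∑ W) = 0`, so one of the terms is `≤ 0`.
-/

namespace Pool.Agent.H18.Tj

open Finset Pool.Agent.H18.Ta

/-- The difference of the values at `s` and `s + 1`, up to the term with `a (s + 1)`. -/
private def Bal_X (ℓ : ℕ) (d a : ℕ → ℝ) (s : ℕ) : ℝ :=
  ∑ u ∈ range (s + 1), a u * d (s - u) - (1 - ∑ u ∈ range (s + 1), a u) * d (ℓ - 2 - s)

private theorem Bal_X_congr (ℓ : ℕ) (d : ℕ → ℝ) {a b : ℕ → ℝ} {s : ℕ}
    (h : ∀ u ≤ s, a u = b u) : Bal_X ℓ d a s = Bal_X ℓ d b s := by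
  unfold Bal_X
  have h1 : ∑ u ∈ range (s + 1), a u * d (s - u) = ∑ u ∈ range (s + 1), b u * d (s - u) :=
    sum_congr rfl fun u hu => by rw [h u (by rw [mem_range] at hu; omega)]
  have h2 : ∑ u ∈ range (s + 1), a u = ∑ u ∈ range (s + 1), b u :=
    sum_congr rfl fun u hu => by rw [h u (by rw [mem_range] at hu; omega)]
  rw [h1, h2]

/-- Greedy sequences. -/
private theorem Bal_greedy (ℓ : ℕ) (W d : ℕ → ℝ) (p : ℝ) (n : ℕ)
    (hpos : ∀ s < n, W 0 - W (ℓ - 2 - s) ≠ 0) :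
    ∃ a : ℕ → ℝ, a 0 = p ∧ ∀ s < n, a (s + 1) * (W 0 - W (ℓ - 2 - s)) = Bal_X ℓ d a s := by
  induction n with
  | zero => exact ⟨fun _ => p, rfl, fun s hs => absurd hs (Nat.not_lt_zero s)⟩
  | succ n ih =>
    obtain ⟨a, ha0, ha⟩ := ih fun s hs => hpos s (by omega)
    refine ⟨Function.update a (n + 1) (Bal_X ℓ d a n / (W 0 - W (ℓ - 2 - n))), ?_, ?_⟩
    · rw [Function.update_of_ne (by omega), ha0]
    · intro s hs
      rcases Nat.lt_succ_iff_lt_or_eq.1 hs with h | h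
      · rw [Function.update_of_ne (by omega), ha s h]
        apply Bal_X_congr
        intro u hu
        rw [Function.update_of_ne (by omega)]
      · subst h
        rw [Function.update_self, div_mul_cancel₀ _ (hpos s (by omega))]
        apply Bal_X_congr
        intro u hu
        rw [Function.update_of_ne (by omega)]

private theorem Bal_anti {d : ℕ → ℝ} (hd : ∀ i, d (i + 1) ≤ d i) {i j : ℕ} (h : i ≤ j) :
    d j ≤ d i := antitone_nat_of_succ_le hd h

/-- The value at the layer `s`. -/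
private theorem Bal_value (ℓ : ℕ) (W a : ℕ → ℝ) {s : ℕ} (hs : s < ℓ)
    (hsum : ∑ u ∈ range ℓ, a u = 1) :
    ∑ u ∈ range ℓ, a u * W (rk ℓ u 0 s) =
      ∑ u ∈ range (s + 1), a u * W (s - u) + (1 - ∑ u ∈ range (s + 1), a u) * W (ℓ - 1 - s) := by
  have h1 : range ℓ = range (s + 1) ∪ (range ℓ \ range (s + 1)) := by
    rw [union_sdiff_of_subset]
    exact range_subset_range.2 (by omega)
  have hdis : Disjoint (range (s + 1)) (range ℓ \ range (s + 1)) := disjoint_sdiff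
  have h2 : ∑ u ∈ range ℓ \ range (s + 1), a u = 1 - ∑ u ∈ range (s + 1), a u := by
    rw [h1, sum_union hdis] at hsum
    linarith
  conv_lhs => rw [h1, sum_union hdis]
  rw [← h2, sum_mul]
  congr 1
  · refine sum_congr rfl fun u hu => ?_
    rw [mem_range] at hu
    congr 2
    unfold rk
    rw [if_neg (by omega)]
    split_ifs <;> omega
  · refine sum_congr rfl fun u hu => ?_
    rw [mem_sdiff, mem_range, mem_range] at hu
    congr 2
    unfold rk
    rw [if_pos (by omega)]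

private theorem Bal_total (ℓ : ℕ) (W a : ℕ → ℝ) (hsum : ∑ u ∈ range ℓ, a u = 1) :
    ∑ s ∈ range ℓ, ∑ u ∈ range ℓ, a u * W (rk ℓ u 0 s) = ∑ t ∈ range ℓ, W t := by
  rw [sum_comm]
  have h1 : ∀ u ∈ range ℓ, ∑ s ∈ range ℓ, a u * W (rk ℓ u 0 s) = a u * ∑ t ∈ range ℓ, W t := by
    intro u hu
    rw [mem_range] at hu
    rw [← mul_sum]
    congr 1
    have hinj : Set.InjOn (rk ℓ u 0) (range ℓ : Finset ℕ) := by
      intro s hs t ht he
      exact rk_inj (by omega) (mem_range.1 hs) (mem_range.1 ht) he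
    have himg : (range ℓ).image (rk ℓ u 0) = range ℓ := by
      apply eq_of_subset_of_card_le
      · intro k hk
        obtain ⟨s, hs, rfl⟩ := mem_image.1 hk
        exact mem_range.2 (rk_lt (by omega) (mem_range.1 hs))
      · rw [card_image_of_injOn hinj]
    conv_rhs => rw [← himg, sum_image hinj]
  rw [sum_congr rfl h1, ← sum_mul, hsum, one_mul]

/-- The combinatorial core: signs of the combination of two greedy solutions. -/
private theorem Bal_signs (n : ℕ) (W d c : ℕ → ℝ) (hd0 : ∀ i, 0 ≤ d i)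
    (hdd : ∀ i, d (i + 1) ≤ d i) (hpos : ∀ s < n, 0 < W 0 - W (n - s))
    (hc0 : 0 ≤ c 0) (hc : ∀ s < n, c (s + 1) * (W 0 - W (n - s)) = Bal_X (n + 2) d c s)
    (hX : Bal_X (n + 2) d c n = 0) : ∀ u ≤ n, 0 ≤ c u := by
  by_contra hcon
  push Not at hcon
  classical
  have hex : ∃ u, u ≤ n ∧ c u < 0 := by
    obtain ⟨u, hu, hlt⟩ := hcon
    exact ⟨u, hu, hlt⟩
  obtain ⟨hm1, hm2⟩ := Nat.find_spec hex
  have hmin : ∀ v < Nat.find hex, 0 ≤ c v := by
    intro v hv
    have h1 := Nat.find_min hex hv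
    push Not at h1
    exact h1 (by omega)
  obtain ⟨s, hs⟩ : ∃ s, Nat.find hex = s + 1 := by
    rcases Nat.eq_zero_or_pos (Nat.find hex) with h | h
    · rw [h] at hm2
      linarith
    · exact ⟨Nat.find hex - 1, by omega⟩
  rw [hs] at hm1 hm2 hmin
  have hXs : Bal_X (n + 2) d c s < 0 := by
    rw [← hc s (by omega)]
    exact mul_neg_of_neg_of_pos hm2 (hpos s (by omega))
  have hsum0 : ∀ t, s ≤ t → 0 ≤ ∑ u ∈ range (s + 1), c u * d (t - u) := fun t _ =>
    sum_nonneg fun u hu => mul_nonneg (hmin u (by rw [mem_range] at hu; omega)) (hd0 _)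
  have hR : 0 < 1 - ∑ u ∈ range (s + 1), c u := by
    unfold Bal_X at hXs
    have h1 := hsum0 s le_rfl
    by_contra h2
    push Not at h2
    have h3 := mul_nonpos_of_nonpos_of_nonneg h2 (hd0 (n + 2 - 2 - s))
    linarith
  -- induction
  have key : ∀ t, s ≤ t → t ≤ n → (Bal_X (n + 2) d c t ≤ Bal_X (n + 2) d c s) ∧
      (1 - ∑ u ∈ range (s + 1), c u ≤ 1 - ∑ u ∈ range (t + 1), c u) ∧
      (∀ v, s < v → v ≤ t → c v ≤ 0) := by
    intro t ht
    induction t, ht using Nat.le_induction with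
    | base =>
      intro _
      exact ⟨le_rfl, le_rfl, fun v h1 h2 => by omega⟩
    | succ t ht ih =>
      intro htn
      obtain ⟨h1, h2, h3⟩ := ih (by omega)
      have h4 : c (t + 1) ≤ 0 := by
        have h5 := hc t (by omega)
        have h6 : c (t + 1) * (W 0 - W (n - t)) < 0 := by
          rw [h5]
          linarith
        by_contra h7
        push Not at h7
        have h8 := mul_nonneg h7.le (hpos t (by omega)).le
        linarith
      have h5 : ∀ v, s < v → v ≤ t + 1 → c v ≤ 0 := by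
        intro v hv1 hv2
        rcases Nat.lt_or_ge t v with h6 | h6
        · have : v = t + 1 := by omega
          rw [this]
          exact h4
        · exact h3 v hv1 h6
      have h6 : 1 - ∑ u ∈ range (s + 1), c u ≤ 1 - ∑ u ∈ range (t + 1 + 1), c u := by
        rw [sum_range_succ c (t + 1)]
        linarith
      refine ⟨?_, h6, h5⟩
      -- the comparison
      have hsplit : range (t + 1 + 1) = range (s + 1) ∪ (range (t + 1 + 1) \ range (s + 1)) := by
        rw [union_sdiff_of_subset]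
        exact range_subset_range.2 (by omega)
      have hdis : Disjoint (range (s + 1)) (range (t + 1 + 1) \ range (s + 1)) := disjoint_sdiff
      have h7 : ∑ u ∈ range (t + 1 + 1), c u * d (t + 1 - u) ≤
          ∑ u ∈ range (s + 1), c u * d (s - u) := by
        rw [hsplit, sum_union hdis]
        have h8 : ∑ u ∈ range (t + 1 + 1) \ range (s + 1), c u * d (t + 1 - u) ≤ 0 := by
          apply sum_nonpos
          intro u hu
          rw [mem_sdiff, mem_range, mem_range] at hu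
          exact mul_nonpos_of_nonpos_of_nonneg (h5 u (by omega) (by omega)) (hd0 _)
        have h9 : ∑ u ∈ range (s + 1), c u * d (t + 1 - u) ≤
            ∑ u ∈ range (s + 1), c u * d (s - u) := by
          apply sum_le_sum
          intro u hu
          rw [mem_range] at hu
          exact mul_le_mul_of_nonneg_left (Bal_anti hdd (by omega)) (hmin u (by omega))
        linarith
      have h8 : (1 - ∑ u ∈ range (s + 1), c u) * d (n + 2 - 2 - s) ≤
          (1 - ∑ u ∈ range (t + 1 + 1), c u) * d (n + 2 - 2 - (t + 1)) :=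
        mul_le_mul h6 (Bal_anti hdd (by omega)) (hd0 _) (by linarith)
      unfold Bal_X
      linarith
  obtain ⟨h1, _, _⟩ := key n (by omega) le_rfl
  rw [hX] at h1
  linarith

private theorem Bal_const {W : ℕ → ℝ} (h : ∀ i, W (i + 1) = W i) : ∀ i, W i = W 0 := by
  intro i
  induction i with
  | zero => rfl
  | succ i ih => rw [h, ih]

theorem exists_weights (ℓ : ℕ) (hℓ : 1 ≤ ℓ) (W : ℕ → ℝ) (hdec : ∀ i, W (i + 1) ≤ W i)
    (hconv : ∀ i, 2 * W (i + 1) ≤ W i + W (i + 2)) :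
    ∃ a : ℕ → ℝ, (∀ u < ℓ, 0 ≤ a u) ∧ ∑ u ∈ range ℓ, a u = 1 ∧
      ∀ s < ℓ, ∑ u ∈ range ℓ, a u * W (rk ℓ u 0 s) = (∑ t ∈ range ℓ, W t) / ℓ := by
  have hℓ0 : (ℓ : ℝ) ≠ 0 := by
    have : (1 : ℝ) ≤ ℓ := by exact_mod_cast hℓ
    linarith
  -- it suffices that the values are constant
  have hfin : ∀ a : ℕ → ℝ, (∀ u < ℓ, 0 ≤ a u) → ∑ u ∈ range ℓ, a u = 1 →
      (∀ s, s + 1 < ℓ → ∑ u ∈ range ℓ, a u * W (rk ℓ u 0 s) =
        ∑ u ∈ range ℓ, a u * W (rk ℓ u 0 (s + 1))) →
      ∃ a : ℕ → ℝ, (∀ u < ℓ, 0 ≤ a u) ∧ ∑ u ∈ range ℓ, a u = 1 ∧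
      ∀ s < ℓ, ∑ u ∈ range ℓ, a u * W (rk ℓ u 0 s) = (∑ t ∈ range ℓ, W t) / ℓ := by
    intro a h1 h2 h3
    refine ⟨a, h1, h2, ?_⟩
    have h4 : ∀ s, s < ℓ → ∑ u ∈ range ℓ, a u * W (rk ℓ u 0 s) =
        ∑ u ∈ range ℓ, a u * W (rk ℓ u 0 0) := by
      intro s
      induction s with
      | zero => intro _; rfl
      | succ s ih => intro hs; rw [← h3 s hs, ih (by omega)]
    have h5 := Bal_total ℓ W a h2
    rw [sum_congr rfl fun s hs => h4 s (mem_range.1 hs), sum_const, card_range, nsmul_eq_mul] at h5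
    intro s hs
    rw [h4 s hs, ← h5]
    field_simp
  by_cases hW : W 1 = W 0
  · -- `W` is constant
    have h1 : ∀ i, W (i + 1) = W i := by
      intro i
      induction i with
      | zero => exact hW
      | succ i ih =>
        have h2 := hconv i
        have h3 := hdec (i + 1)
        linarith
    have h2 := Bal_const h1
    refine hfin (fun u => if u = 0 then 1 else 0) ?_ ?_ ?_
    · intro u _
      split_ifs <;> norm_num
    · rw [sum_ite_eq' (range ℓ) 0, if_pos (mem_range.2 (by omega))]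
    · intro s _
      refine sum_congr rfl fun u _ => ?_
      rw [h2 (rk ℓ u 0 s), h2 (rk ℓ u 0 (s + 1))]
  rcases Nat.lt_or_ge ℓ 2 with hℓ2 | hℓ2
  · have h1 : ℓ = 1 := by omega
    subst h1
    refine hfin (fun _ => 1) (fun _ _ => by norm_num) (by simp) ?_
    intro s hs
    omega
  obtain ⟨n, rfl⟩ : ∃ n, ℓ = n + 2 := ⟨ℓ - 2, by omega⟩
  set d : ℕ → ℝ := fun i => W i - W (i + 1) with hd
  have hd0 : ∀ i, 0 ≤ d i := fun i => by rw [hd]; beta_reduce; linarith [hdec i]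
  have hdd : ∀ i, d (i + 1) ≤ d i := fun i => by
    rw [hd]; beta_reduce
    have := hconv i
    linarith
  have hd00 : 0 < d 0 := by
    have h1 : W 1 < W 0 := lt_of_le_of_ne (hdec 0) hW
    rw [hd]
    beta_reduce
    linarith
  have hWanti : ∀ {i j : ℕ}, i ≤ j → W j ≤ W i := fun h => antitone_nat_of_succ_le hdec h
  have hpos : ∀ s < n, 0 < W 0 - W (n - s) := by
    intro s hs
    have h1 : W (n - s) ≤ W 1 := hWanti (by omega)
    have h2 : W 1 < W 0 := lt_of_le_of_ne (hdec 0) hW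
    linarith
  -- the two solutions
  obtain ⟨a1, ha10, ha1⟩ := Bal_greedy (n + 2) W d 1 n (fun s hs => by
    have h := hpos s hs
    rw [show n + 2 - 2 - s = n - s by omega]
    exact h.ne')
  obtain ⟨a0, ha00, ha0⟩ := Bal_greedy (n + 2) W d 0 n (fun s hs => by
    have h := hpos s hs
    rw [show n + 2 - 2 - s = n - s by omega]
    exact h.ne')
  have e : ∀ s, n + 2 - 2 - s = n - s := fun s => by omega
  have hA1 : ∀ t, t ≤ n → (∀ u ≤ t, 0 ≤ a1 u) ∧ 1 - ∑ u ∈ range (t + 1), a1 u ≤ 0 ∧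
      0 ≤ Bal_X (n + 2) d a1 t := by
    have hX : ∀ t, (∀ u ≤ t, 0 ≤ a1 u) → 1 - ∑ u ∈ range (t + 1), a1 u ≤ 0 →
        0 ≤ Bal_X (n + 2) d a1 t := by
      intro t h1 h2
      unfold Bal_X
      have h3 : 0 ≤ ∑ u ∈ range (t + 1), a1 u * d (t - u) :=
        sum_nonneg fun u hu => mul_nonneg (h1 u (by rw [mem_range] at hu; omega)) (hd0 _)
      have h4 := mul_nonpos_of_nonpos_of_nonneg h2 (hd0 (n + 2 - 2 - t))
      linarith
    intro t
    induction t with
    | zero =>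
      intro _
      have h1 : ∀ u ≤ 0, 0 ≤ a1 u := by
        intro u hu
        rw [Nat.le_zero.1 hu, ha10]
        norm_num
      have h2 : 1 - ∑ u ∈ range (0 + 1), a1 u ≤ 0 := by
        rw [zero_add, sum_range_one, ha10]
        norm_num
      exact ⟨h1, h2, hX 0 h1 h2⟩
    | succ t ih =>
      intro ht
      obtain ⟨h1, h2, h3⟩ := ih (by omega)
      have h4 : 0 ≤ a1 (t + 1) := by
        have h5 := ha1 t (by omega)
        have h6 := hpos t (by omega)
        rw [e] at h5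
        by_contra h7
        push Not at h7
        have h8 := mul_neg_of_neg_of_pos h7 h6
        linarith
      have h5 : ∀ u ≤ t + 1, 0 ≤ a1 u := by
        intro u hu
        rcases Nat.lt_or_ge t u with h6 | h6
        · rw [show u = t + 1 by omega]
          exact h4
        · exact h1 u h6
      have h6 : 1 - ∑ u ∈ range (t + 1 + 1), a1 u ≤ 0 := by
        rw [sum_range_succ]
        linarith
      exact ⟨h5, h6, hX _ h5 h6⟩
  have hA0 : ∀ t, t ≤ n → (∀ u ≤ t, a0 u ≤ 0) ∧ 1 ≤ 1 - ∑ u ∈ range (t + 1), a0 u ∧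
      Bal_X (n + 2) d a0 t ≤ 0 := by
    have hX : ∀ t, (∀ u ≤ t, a0 u ≤ 0) → 1 ≤ 1 - ∑ u ∈ range (t + 1), a0 u →
        Bal_X (n + 2) d a0 t ≤ 0 := by
      intro t h1 h2
      unfold Bal_X
      have h3 : ∑ u ∈ range (t + 1), a0 u * d (t - u) ≤ 0 :=
        sum_nonpos fun u hu => mul_nonpos_of_nonpos_of_nonneg
          (h1 u (by rw [mem_range] at hu; omega)) (hd0 _)
      have h4 : 0 ≤ (1 - ∑ u ∈ range (t + 1), a0 u) * d (n + 2 - 2 - t) :=
        mul_nonneg (by linarith) (hd0 _)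
      linarith
    intro t
    induction t with
    | zero =>
      intro _
      have h1 : ∀ u ≤ 0, a0 u ≤ 0 := by
        intro u hu
        rw [Nat.le_zero.1 hu, ha00]
      have h2 : 1 ≤ 1 - ∑ u ∈ range (0 + 1), a0 u := by
        rw [zero_add, sum_range_one, ha00]
        norm_num
      exact ⟨h1, h2, hX 0 h1 h2⟩
    | succ t ih =>
      intro ht
      obtain ⟨h1, h2, h3⟩ := ih (by omega)
      have h4 : a0 (t + 1) ≤ 0 := by
        have h5 := ha0 t (by omega)
        have h6 := hpos t (by omega)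
        rw [e] at h5
        by_contra h7
        push Not at h7
        have h8 := mul_pos h7 h6
        linarith
      have h5 : ∀ u ≤ t + 1, a0 u ≤ 0 := by
        intro u hu
        rcases Nat.lt_or_ge t u with h6 | h6
        · rw [show u = t + 1 by omega]
          exact h4
        · exact h1 u h6
      have h6 : 1 ≤ 1 - ∑ u ∈ range (t + 1 + 1), a0 u := by
        rw [sum_range_succ]
        linarith
      exact ⟨h5, h6, hX _ h5 h6⟩
  have hx1 := (hA1 n le_rfl).2.2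
  have hx0 := (hA0 n le_rfl).2.2
  obtain ⟨lam, hl0, hl1, hlX⟩ : ∃ lam : ℝ, 0 ≤ lam ∧ lam ≤ 1 ∧
      lam * Bal_X (n + 2) d a1 n + (1 - lam) * Bal_X (n + 2) d a0 n = 0 := by
    rcases eq_or_lt_of_le (show Bal_X (n + 2) d a0 n ≤ Bal_X (n + 2) d a1 n by linarith) with h | h
    · refine ⟨1, by norm_num, le_rfl, ?_⟩
      have : Bal_X (n + 2) d a1 n = 0 := by linarith
      rw [this]
      ring
    · have h1 : 0 < Bal_X (n + 2) d a1 n - Bal_X (n + 2) d a0 n := by linarith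
      refine ⟨-Bal_X (n + 2) d a0 n / (Bal_X (n + 2) d a1 n - Bal_X (n + 2) d a0 n), ?_, ?_, ?_⟩
      · exact div_nonneg (by linarith) h1.le
      · rw [div_le_one h1]
        linarith
      · field_simp
        ring
  set c : ℕ → ℝ := fun u => lam * a1 u + (1 - lam) * a0 u with hcdef
  have hXlin : ∀ t, Bal_X (n + 2) d c t =
      lam * Bal_X (n + 2) d a1 t + (1 - lam) * Bal_X (n + 2) d a0 t := by
    intro t
    unfold Bal_X
    have h1 : ∑ u ∈ range (t + 1), c u * d (t - u) =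
        lam * ∑ u ∈ range (t + 1), a1 u * d (t - u) +
          (1 - lam) * ∑ u ∈ range (t + 1), a0 u * d (t - u) := by
      rw [mul_sum, mul_sum, ← sum_add_distrib]
      exact sum_congr rfl fun u _ => by rw [hcdef]; ring
    have h2 : ∑ u ∈ range (t + 1), c u =
        lam * ∑ u ∈ range (t + 1), a1 u + (1 - lam) * ∑ u ∈ range (t + 1), a0 u := by
      rw [mul_sum, mul_sum, ← sum_add_distrib]
    rw [h1, h2]
    ring
  have hc0 : 0 ≤ c 0 := by
    rw [hcdef]
    beta_reduce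
    rw [ha10, ha00]
    linarith
  have hc : ∀ s < n, c (s + 1) * (W 0 - W (n - s)) = Bal_X (n + 2) d c s := by
    intro s hs
    have h1 := ha1 s hs
    have h0 := ha0 s hs
    rw [e] at h1 h0
    rw [hXlin, ← h1, ← h0, hcdef]
    ring
  have hcX : Bal_X (n + 2) d c n = 0 := by rw [hXlin]; exact hlX
  have hcn := Bal_signs n W d c hd0 hdd hpos hc0 hc hcX
  -- the weights
  set a : ℕ → ℝ := fun u => if u = n + 1 then 1 - ∑ v ∈ range (n + 1), c v else c u with hadef
  have hac : ∀ u ≤ n, a u = c u := fun u hu => by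
    rw [hadef]
    beta_reduce
    rw [if_neg (by omega)]
  have hasum : ∀ t ≤ n, ∑ u ∈ range (t + 1), a u = ∑ u ∈ range (t + 1), c u := fun t ht =>
    sum_congr rfl fun u hu => hac u (by rw [mem_range] at hu; omega)
  have hatot : ∑ u ∈ range (n + 2), a u = 1 := by
    rw [sum_range_succ, hasum n le_rfl, hadef]
    beta_reduce
    rw [if_pos rfl]
    ring
  have haX : ∀ t ≤ n, Bal_X (n + 2) d a t = Bal_X (n + 2) d c t := fun t ht =>
    Bal_X_congr _ _ fun u hu => hac u (by omega)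
  refine hfin a ?_ hatot ?_
  · intro u hu
    rcases Nat.lt_or_ge u (n + 1) with h | h
    · rw [hac u (by omega)]
      exact hcn u (by omega)
    · have h1 : u = n + 1 := by omega
      rw [h1, hadef]
      beta_reduce
      rw [if_pos rfl]
      have h2 := hcX
      unfold Bal_X at h2
      rw [show n + 2 - 2 - n = 0 by omega] at h2
      have h3 : 0 ≤ ∑ u ∈ range (n + 1), c u * d (n - u) :=
        sum_nonneg fun u hu => mul_nonneg (hcn u (by rw [mem_range] at hu; omega)) (hd0 _)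
      by_contra h4
      push Not at h4
      have h5 := mul_neg_of_neg_of_pos h4 hd00
      linarith
  · intro s hs
    rw [Bal_value (n + 2) W a (by omega) hatot, Bal_value (n + 2) W a hs hatot,
      sum_range_succ (fun u => a u * W (s + 1 - u)) (s + 1), sum_range_succ a (s + 1), Nat.sub_self]
    rw [show n + 2 - 1 - (s + 1) = n - s by omega, show n + 2 - 1 - s = n - s + 1 by omega]
    have h1 : ∑ u ∈ range (s + 1), a u * W (s + 1 - u) =
        ∑ u ∈ range (s + 1), a u * W (s - u) - ∑ u ∈ range (s + 1), a u * d (s - u) := by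
      rw [← sum_sub_distrib]
      refine sum_congr rfl fun u hu => ?_
      rw [mem_range] at hu
      rw [hd, show s + 1 - u = s - u + 1 by omega]
      ring
    rw [h1]
    have h2 : d (n - s) = W (n - s) - W (n - s + 1) := rfl
    have h3 : a (s + 1) * (W 0 - W (n - s)) = Bal_X (n + 2) d a s := by
      rw [haX s (by omega)]
      rcases Nat.lt_or_ge s n with h4 | h4
      · rw [hac (s + 1) (by omega)]
        exact hc s h4
      · have h5 : s = n := by omega
        rw [h5, Nat.sub_self, sub_self, mul_zero, hcX]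
    unfold Bal_X at h3
    rw [e, h2] at h3
    linarith

theorem bal (ℓ : ℕ) (hℓ : 1 ≤ ℓ) (W : ℕ → ℕ) (hdec : ∀ i, W (i + 1) ≤ W i)
    (hconv : ∀ i, 2 * W (i + 1) ≤ W i + W (i + 2)) (y : ℕ → ℤ) :
    ∃ u < ℓ, ∑ s ∈ range ℓ, y s * ((ℓ : ℤ) * W (rk ℓ u 0 s) - ∑ t ∈ range ℓ, (W t : ℤ)) ≤ 0 := by
  obtain ⟨a, ha0, hasum, ha⟩ := exists_weights ℓ hℓ (fun i => (W i : ℝ))
    (fun i => by exact_mod_cast hdec i) (fun i => by exact_mod_cast hconv i)
  by_contra hcon
  push Not at hcon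
  have hℓ0 : (ℓ : ℝ) ≠ 0 := by
    have : (1 : ℝ) ≤ ℓ := by exact_mod_cast hℓ
    linarith
  have h1 : ∀ u < ℓ, (0 : ℝ) < ∑ s ∈ range ℓ, (y s : ℝ) *
      ((ℓ : ℝ) * (W (rk ℓ u 0 s) : ℝ) - ∑ t ∈ range ℓ, (W t : ℝ)) := by
    intro u hu
    have h2 := hcon u hu
    have h3 : ((0 : ℤ) : ℝ) < ((∑ s ∈ range ℓ, y s * ((ℓ : ℤ) * W (rk ℓ u 0 s) -
        ∑ t ∈ range ℓ, (W t : ℤ)) : ℤ) : ℝ) := by exact_mod_cast h2
    push_cast at h3
    exact h3
  have h2 : ∑ u ∈ range ℓ, a u * ∑ s ∈ range ℓ, (y s : ℝ) *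
      ((ℓ : ℝ) * (W (rk ℓ u 0 s) : ℝ) - ∑ t ∈ range ℓ, (W t : ℝ)) = 0 := by
    have h3 : ∑ u ∈ range ℓ, a u * ∑ s ∈ range ℓ, (y s : ℝ) *
        ((ℓ : ℝ) * (W (rk ℓ u 0 s) : ℝ) - ∑ t ∈ range ℓ, (W t : ℝ)) =
        ∑ s ∈ range ℓ, (y s : ℝ) * ((ℓ : ℝ) * (∑ u ∈ range ℓ, a u * (W (rk ℓ u 0 s) : ℝ)) -
          (∑ u ∈ range ℓ, a u) * ∑ t ∈ range ℓ, (W t : ℝ)) := by
      generalize ∑ t ∈ range ℓ, (W t : ℝ) = T
      rw [sum_congr rfl fun u _ => mul_sum (range ℓ) _ (a u), sum_comm]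
      refine sum_congr rfl fun s _ => ?_
      rw [mul_sum, sum_mul, ← sum_sub_distrib, mul_sum]
      refine sum_congr rfl fun u _ => ?_
      ring
    rw [h3]
    apply sum_eq_zero
    intro s hs
    rw [ha s (mem_range.1 hs), hasum]
    field_simp
    ring
  have h3 : ∃ u ∈ range ℓ, 0 < a u := by
    by_contra h4
    push Not at h4
    have h5 : ∑ u ∈ range ℓ, a u ≤ 0 := sum_nonpos h4
    linarith
  obtain ⟨u, hu, hau⟩ := h3
  have h4 : 0 < ∑ u ∈ range ℓ, a u * ∑ s ∈ range ℓ, (y s : ℝ) *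
      ((ℓ : ℝ) * (W (rk ℓ u 0 s) : ℝ) - ∑ t ∈ range ℓ, (W t : ℝ)) := by
    apply sum_pos'
    · intro v hv
      exact mul_nonneg (ha0 v (mem_range.1 hv)) (h1 v (mem_range.1 hv)).le
    · exact ⟨u, hu, mul_pos hau (h1 u (mem_range.1 hu))⟩
  linarith

end Pool.Agent.H18.Tj
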