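import Pool.Agent.H18.Tj.Defs
import Pool.Agent.H18.Ex.Frac
import Pool.Agent.H18.Ex.Box

/-!
# Module C1a (TJ): the numbers `c(σ, w) = (Rg σ w).card`

(`cnt_slow` is in CntS; `cnt_le_mul`, `mul_le_cnt`, `cnt_thin` are in CntL.)

`h` is a free coordinate (`σ ≤ w h`).
* `cnt_layer` (`y` any coordinate): count by the value of `a y`.
* `cnt_mono`: `a ↦ a + e_h` maps `Rg σ w` injectively to `Rg (σ + 1) w`.
* `cnt_slow`: `C σ = c(σ, w)` is the number of the `β` (zero at `h`) with `β ≤ w`, `|β| ≤ σ`, and
  `C (σ' + 1) - C σ' = #{β : |β| = σ' + 1} =: p`; `(σ' + 1) p = ∑_β ∑_i β_i ≤ q C σ'`, since for a fixed `i` the map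
  `(β, t) ↦ β - t e_i`, `1 ≤ t ≤ β_i`, is injective (`t = σ' + 1 - |γ|`) into `{γ : |γ| ≤ σ'}`.  So
  `(σ' + 1) (C (σ' + 1) - C σ') ≤ q C σ' ≤ q C σ`; sum over `σ' = σ - s, …, σ - 1`, with `σ' + 1 ≥ σ - s + 1`.
  (In terms of `Rg` without a special role of `h`: `c(σ' + 1, w) - c(σ', w) = #{a ∈ Rg (σ' + 1) w : a h = 0}`.)
* `cnt_ge`: `card_ge` (module Frac).
* `cnt_le_mul`, `mul_le_cnt`: `cnt_layer` for `y = l`; all `c(σ - t, w') ≤ c(σ, w')`, resp. `c(σ - t, w') ≥ c(σ, w') / 2`
  for `t ≤ B` by `cnt_slow`.
* `cnt_thin`: the difference is the number of the `a ∈ Rg (σ + 1) w` with `a h = 0`; such an `a` is determined by its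
  coordinates other than `h`, `c`, which are less than `θ`.
* `cnt_le_pow`: the exponents are determined by the coordinates other than `h` (`card_le_prod`).
-/

namespace Pool.Agent.H18.Tj

open Finset Function Pool.Agent.H18.Ex

variable {ι : Type} [Fintype ι] [DecidableEq ι]

private theorem CntA_sum_update (a : ι → ℕ) (l : ι) (v : ℕ) :
    ∑ i, update a l v i + a l = ∑ i, a i + v := by
  have h1 : ∑ i, update a l v i = v + ∑ i ∈ univ.erase l, a i := by
    rw [sum_update_of_mem (mem_univ l), erase_eq]
  have h2 : ∑ i, a i = a l + ∑ i ∈ univ.erase l, a i := (add_sum_erase univ a (mem_univ l)).symm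
  omega

omit [DecidableEq ι] in
private theorem CntA_le_sum (a : ι → ℕ) (l : ι) : a l ≤ ∑ i, a i :=
  single_le_sum (f := a) (fun _ _ => Nat.zero_le _) (mem_univ l)

theorem cnt_succ (l : ι) (σ : ℕ) (w : ι → ℕ) (k : ℕ) :
    (Rg (σ + 1) (update w l (k + 1))).card =
      (Rg σ (update w l k)).card + (Rg (σ + 1) (update w l 0)).card := by
  have h1 : (Rg (σ + 1) (update w l 0)) =
      (Rg (σ + 1) (update w l (k + 1))).filter (fun x => x l < 1) := by
    have := Rg_update_eq (σ + 1) (update w l (k + 1)) l
    rwa [update_idem] at this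
  have h2 : (Rg σ (update w l k)).card =
      ((Rg (σ + 1) (update w l (k + 1))).filter (fun x => ¬ x l < 1)).card := by
    apply card_bij (fun a _ => update a l (a l + 1))
    · intro a ha
      rw [mem_Rg] at ha
      obtain ⟨ha1, ha2⟩ := ha
      rw [mem_filter, mem_Rg]
      refine ⟨⟨fun i => ?_, ?_⟩, ?_⟩
      · have h3 := ha1 i
        by_cases hi : i = l
        · rw [hi, update_self] at h3 ⊢
          rw [update_self]
          omega
        · rw [update_of_ne hi] at h3 ⊢
          rwa [update_of_ne hi]
      · have := CntA_sum_update a l (a l + 1)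
        omega
      · rw [update_self]
        omega
    · intro a _ b _ hab
      funext i
      by_cases hi : i = l
      · have h3 := congrFun hab l
        simp only [update_self] at h3
        rw [hi]
        omega
      · have h3 := congrFun hab i
        simp only [update_of_ne hi] at h3
        exact h3
    · intro b hb
      rw [mem_filter, mem_Rg] at hb
      obtain ⟨⟨hb1, hb2⟩, hb3⟩ := hb
      refine ⟨update b l (b l - 1), ?_, ?_⟩
      · rw [mem_Rg]
        refine ⟨fun i => ?_, ?_⟩
        · have h3 := hb1 i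
          by_cases hi : i = l
          · rw [hi, update_self] at h3 ⊢
            rw [update_self]
            omega
          · rw [update_of_ne hi] at h3 ⊢
            rwa [update_of_ne hi]
        · have := CntA_sum_update b l (b l - 1)
          omega
      · funext i
        by_cases hi : i = l
        · rw [hi, update_self, update_self]
          omega
        · rw [update_of_ne hi, update_of_ne hi]
  rw [h1, h2]
  have h3 := card_filter_add_card_filter_not (s := Rg (σ + 1) (update w l (k + 1)))
    (fun x : ι → ℕ => x l < 1)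
  omega

theorem cnt_layer (y : ι) (σ : ℕ) (w : ι → ℕ) :
    (Rg σ w).card = ∑ t ∈ (range (w y + 1)).filter (fun t => t ≤ σ),
      (Rg (σ - t) (update w y 0)).card := by
  rw [card_eq_sum_card_fiberwise (f := fun a : ι → ℕ => a y)
    (t := (range (w y + 1)).filter (fun t => t ≤ σ))]
  · refine sum_congr rfl fun t ht => ?_
    rw [mem_filter, mem_range] at ht
    apply card_bij (fun a _ => update a y 0)
    · intro a ha
      rw [mem_filter, mem_Rg] at ha
      obtain ⟨⟨ha1, ha2⟩, ha3⟩ := ha
      rw [mem_Rg]
      refine ⟨fun i => ?_, ?_⟩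
      · by_cases hi : i = y
        · rw [hi, update_self, update_self]
        · rw [update_of_ne hi, update_of_ne hi]
          exact ha1 i
      · have := CntA_sum_update a y 0
        have h3 : a y = t := ha3
        omega
    · intro a ha b hb hab
      rw [mem_filter] at ha hb
      have h3 : a y = t := ha.2
      have h4 : b y = t := hb.2
      funext i
      by_cases hi : i = y
      · rw [hi, h3, h4]
      · have h5 := congrFun hab i
        simp only [update_of_ne hi] at h5
        exact h5
    · intro b hb
      rw [mem_Rg] at hb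
      obtain ⟨hb1, hb2⟩ := hb
      have hby : b y = 0 := by
        have := hb1 y
        rw [update_self] at this
        omega
      refine ⟨update b y t, ?_, ?_⟩
      · rw [mem_filter, mem_Rg]
        refine ⟨⟨fun i => ?_, ?_⟩, ?_⟩
        · by_cases hi : i = y
          · rw [hi, update_self]
            omega
          · rw [update_of_ne hi]
            have := hb1 i
            rwa [update_of_ne hi] at this
        · have := CntA_sum_update b y t
          omega
        · exact update_self y t b
      · rw [update_idem]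
        funext i
        by_cases hi : i = y
        · rw [hi, update_self, hby]
        · rw [update_of_ne hi]
  · intro a ha
    rw [mem_coe, mem_Rg] at ha
    obtain ⟨ha1, ha2⟩ := ha
    rw [mem_coe, mem_filter, mem_range]
    have h1 := ha1 y
    have h2 := CntA_le_sum a y
    constructor
    · show a y < w y + 1
      omega
    · show a y ≤ σ
      omega

theorem cnt_mono {h : ι} {σ σ' : ℕ} {w : ι → ℕ} (hσ : σ ≤ σ') (hh : σ' ≤ w h) :
    (Rg σ w).card ≤ (Rg σ' w).card := by
  apply card_le_card_of_injOn (fun a => update a h (a h + (σ' - σ)))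
  · intro a ha
    rw [mem_coe, mem_Rg] at ha
    obtain ⟨ha1, ha2⟩ := ha
    rw [mem_coe, mem_Rg]
    have h1 := CntA_le_sum a h
    show (∀ i, update a h (a h + (σ' - σ)) i ≤ w i) ∧ ∑ i, update a h (a h + (σ' - σ)) i = σ'
    refine ⟨fun i => ?_, ?_⟩
    · by_cases hi : i = h
      · rw [hi, update_self]
        omega
      · rw [update_of_ne hi]
        exact ha1 i
    · have := CntA_sum_update a h (a h + (σ' - σ))
      omega
  · intro a _ b _ hab
    funext i
    by_cases hi : i = h
    · have h3 := congrFun hab h
      simp only [update_self] at h3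
      rw [hi]
      omega
    · have h3 := congrFun hab i
      simp only [update_of_ne hi] at h3
      exact h3

theorem cnt_mono_w {σ : ℕ} {w w' : ι → ℕ} (h : ∀ i, w i ≤ w' i) :
    (Rg σ w).card ≤ (Rg σ w').card := by
  apply card_le_card
  intro a ha
  rw [mem_Rg] at ha ⊢
  exact ⟨fun i => (ha.1 i).trans (h i), ha.2⟩

theorem cnt_ge {h c : ι} (hc : h ≠ c) {σ b : ℕ} {w : ι → ℕ} (hh : σ ≤ w h) (hb : b ≤ w c)
    (hσ : b ≤ σ) : b + 1 ≤ (Rg σ w).card := by
  refine card_ge σ w b h c hc (hσ.trans hh) hb hσ ?_
  have h1 : ∑ i, w i = w h + ∑ i ∈ univ.erase h, w i := (add_sum_erase univ w (mem_univ h)).symm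
  have h2 : w c ≤ ∑ i ∈ univ.erase h, w i :=
    single_le_sum (f := w) (fun _ _ => Nat.zero_le _) (mem_erase.2 ⟨hc.symm, mem_univ _⟩)
  omega

theorem cnt_le_pow {σ q : ℕ} {w : ι → ℕ} (hq : Fintype.card ι ≤ q) :
    (Rg σ w).card ≤ (σ + 1) ^ q := by
  have h1 : (Rg σ w).card ≤ (Fintype.piFinset fun _ : ι => range (σ + 1)).card := by
    apply card_le_card
    intro a ha
    rw [mem_Rg] at ha
    rw [Fintype.mem_piFinset]
    intro i
    have := CntA_le_sum a i
    rw [mem_range]
    omega
  rw [Fintype.card_piFinset, prod_const, card_range, card_univ] at h1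
  exact h1.trans (Nat.pow_le_pow_right (by omega) hq)

/-- Widths larger than the degree do not matter. -/
theorem Rg_min (l : ι) (σ : ℕ) (w : ι → ℕ) : Rg σ (update w l (min (w l) σ)) = Rg σ w := by
  ext a
  rw [mem_Rg, mem_Rg]
  constructor
  · rintro ⟨h1, h2⟩
    refine ⟨fun i => ?_, h2⟩
    by_cases hi : i = l
    · have h3 := h1 l
      rw [update_self] at h3
      rw [hi]
      exact h3.trans (min_le_left _ _)
    · have h3 := h1 i
      rwa [update_of_ne hi] at h3
  · rintro ⟨h1, h2⟩
    refine ⟨fun i => ?_, h2⟩
    by_cases hi : i = l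
    · have h3 := CntA_le_sum a l
      rw [hi, update_self]
      exact le_min (h1 l) (by omega)
    · rw [update_of_ne hi]
      exact h1 i

end Pool.Agent.H18.Tj
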