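import Pool.Agent.H18.Tj.CntS

/-!
# Module C1c (TJ): the numbers `c(σ, w) = (Rg σ w).card`

`h` is a free coordinate (`σ ≤ w h`).
* `cnt_layer` (`y` any coordinate): count by the value of `a y`.
* `cnt_mono`: `a ↦ a + e_h` maps `Rg σ w` injectively to `Rg (σ + 1) w`.
* `cnt_slow`: `C σ = c(σ, w)` is the number of the `β` (zero at `h`) with `β ≤ w`, `|β| ≤ σ`, and
  `C (σ' + 1) - C σ' = #{β : |β| = σ' + 1} =: p`; `(σ' + 1) p = ∑_β ∑_i β_i ≤ q C σ'`, since for a fixed `i` the map
  `(β, t) ↦ β - t e_i`, `1 ≤ t ≤ β_i`, is injective (`t = σ' + 1 - |γ|`) into `{γ : |γ| ≤ σ'}`.  So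
  `(σ' + 1) (C (σ' + 1) - C σ') ≤ q C σ' ≤ q C σ`; sum over `σ' = σ - s, …, σ - 1`, with `σ' + 1 ≥ σ - s + 1`.
  (In terms of `Rg` without a special role of `h`: `c(σ' + 1, w) - c(σ', w) = #{a ∈ Rg (σ' + 1) w : a h = 0}`.)
* `cnt_ge`: `card_ge` (module Frac).
* `cnt_le_mul`, `mul_le_cnt`: `cnt_layer` for `y = l`; all `c(σ - t, w') ≤ c(σ, w')`, resp. `c(σ - t, w') ≥ c(σ, w') / 2`
  for `t ≤ B` by `cnt_slow`.
* `cnt_thin`: the difference is the number of the `a ∈ Rg (σ + 1) w` with `a h = 0`; such an `a` is determined by its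
  coordinates other than `h`, `c`, which are less than `θ`.
* `cnt_le_pow`: the exponents are determined by the coordinates other than `h` (`card_le_prod`).
-/

namespace Pool.Agent.H18.Tj

open Finset Function Pool.Agent.H18.Ex

variable {ι : Type} [Fintype ι] [DecidableEq ι]

private lemma CntL_upd (w : ι → ℕ) (l : ι) (k : ℕ) : update (update w l k) l 0 = update w l 0 :=
  update_idem _ _ _

theorem cnt_le_mul {h l : ι} (hl : h ≠ l) {σ : ℕ} (k : ℕ) {w : ι → ℕ} (hh : σ ≤ w h) :
    (Rg σ (update w l k)).card ≤ (k + 1) * (Rg σ (update w l 0)).card := by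
  rw [cnt_layer l σ (update w l k), CntL_upd, update_self]
  refine le_trans (sum_le_card_nsmul _ _ (Rg σ (update w l 0)).card fun t _ => ?_) ?_
  · refine cnt_mono (h := h) (Nat.sub_le _ _) ?_
    rw [update_of_ne hl]
    exact hh
  · rw [smul_eq_mul]
    refine Nat.mul_le_mul_right _ ?_
    refine (card_filter_le _ _).trans ?_
    rw [card_range]

theorem mul_le_cnt {h l : ι} (hl : h ≠ l) {σ B k q : ℕ} {w : ι → ℕ} (hq : Fintype.card ι ≤ q)
    (hh : σ ≤ w h) (hB : B ≤ k) (hb : 2 * (B * q) + B ≤ σ) :
    (B + 1) * (Rg σ (update w l 0)).card ≤ 2 * (Rg σ (update w l k)).card := by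
  have hBσ : B ≤ σ := by omega
  rw [cnt_layer l σ (update w l k), CntL_upd, update_self, mul_sum]
  have hsub : range (B + 1) ⊆ (range (k + 1)).filter fun t => t ≤ σ := by
    intro t ht
    rw [mem_range] at ht
    rw [mem_filter, mem_range]
    omega
  refine le_trans ?_ (sum_le_sum_of_subset hsub)
  have hconst : (B + 1) * (Rg σ (update w l 0)).card =
      ∑ _t ∈ range (B + 1), (Rg σ (update w l 0)).card := by
    rw [sum_const, card_range, smul_eq_mul]
  rw [hconst]
  refine sum_le_sum fun t ht => ?_
  rw [mem_range, Nat.lt_succ_iff] at ht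
  have hslow := cnt_slow (h := h) (σ := σ) (w := update w l 0) hq t (by omega)
    (by rw [update_of_ne hl]; exact hh)
  set C := (Rg σ (update w l 0)).card with hC
  set C' := (Rg (σ - t) (update w l 0)).card with hC'
  have htq : t * q ≤ B * q := Nat.mul_le_mul_right _ ht
  have h2 : 2 * (t * q) ≤ σ - t + 1 := by omega
  have h3 : 0 < σ - t + 1 := Nat.succ_pos _
  have h4 : 2 * (t * q * C) ≤ (σ - t + 1) * C := by
    rw [← mul_assoc]
    exact Nat.mul_le_mul_right _ h2
  have h5 : (σ - t + 1) * C ≤ (σ - t + 1) * (2 * C') := by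
    have e : (σ - t + 1) * (2 * C') = 2 * ((σ - t + 1) * C') := by ring
    rw [e]
    omega
  exact Nat.le_of_mul_le_mul_left h5 h3

theorem cnt_thin {h c : ι} (hc : h ≠ c) {σ θ q : ℕ} {w : ι → ℕ} (hq : Fintype.card ι ≤ q)
    (hh : σ + 1 ≤ w h) (hθ : 1 ≤ θ) (hthin : ∀ i, i ≠ h → i ≠ c → w i < θ) :
    (Rg (σ + 1) w).card ≤ (Rg σ w).card + θ ^ q := by
  rw [← card_filter_add_card_filter_not (s := Rg (σ + 1) w) (fun a => a h ≠ 0)]
  refine Nat.add_le_add ?_ ?_
  · -- `a ↦ a - e_h`
    refine card_le_card_of_injOn (fun a => update a h (a h - 1)) ?_ ?_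
    · intro a ha
      rw [mem_coe, mem_filter, mem_Rg] at ha
      obtain ⟨⟨ha1, ha2⟩, ha3⟩ := ha
      rw [mem_coe, mem_Rg]
      beta_reduce
      refine ⟨fun i => ?_, ?_⟩
      · by_cases hi : i = h
        · subst hi
          rw [update_self]
          exact (Nat.sub_le _ _).trans (ha1 _)
        · rw [update_of_ne hi]
          exact ha1 i
      · have h1 := sum_update_of_mem (mem_univ h) a (a h - 1)
        have h2 := add_sum_erase univ a (mem_univ h)
        have h3 : (univ : Finset ι) \ {h} = univ.erase h := sdiff_singleton_eq_erase _ _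
        rw [h3] at h1
        rw [h1]
        have h4 : 1 ≤ a h := Nat.one_le_iff_ne_zero.2 ha3
        omega
    · intro a ha b hb hab
      rw [mem_coe, mem_filter] at ha hb
      funext i
      have h1 := congrFun hab i
      by_cases hi : i = h
      · subst hi
        simp only [update_self] at h1
        have h4 : 1 ≤ a i := Nat.one_le_iff_ne_zero.2 ha.2
        have h5 : 1 ≤ b i := Nat.one_le_iff_ne_zero.2 hb.2
        omega
      · simpa only [update_of_ne hi] using h1
  · have hcard : (Fintype.piFinset fun _ : ι => range θ).card ≤ θ ^ q := by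
      rw [Fintype.card_piFinset, prod_const, card_range, card_univ]
      exact Nat.pow_le_pow_right hθ hq
    refine le_trans ?_ hcard
    refine card_le_card_of_injOn (fun a => update a c 0) ?_ ?_
    · intro a ha
      rw [mem_coe, mem_filter, mem_Rg, not_not] at ha
      obtain ⟨⟨ha1, ha2⟩, ha3⟩ := ha
      rw [mem_coe, Fintype.mem_piFinset]
      intro i
      rw [mem_range]
      beta_reduce
      by_cases hi : i = c
      · subst hi
        rw [update_self]
        exact hθ
      · rw [update_of_ne hi]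
        by_cases hi' : i = h
        · subst hi'
          rw [ha3]
          exact hθ
        · exact lt_of_le_of_lt (ha1 i) (hthin i hi' hi)
    · intro a ha b hb hab
      rw [mem_coe, mem_filter, mem_Rg, not_not] at ha hb
      have hne : ∀ i, i ≠ c → a i = b i := by
        intro i hi
        have h1 := congrFun hab i
        simpa only [update_of_ne hi] using h1
      funext i
      by_cases hi : i = c
      · subst hi
        have h1 := add_sum_erase univ a (mem_univ i)
        have h2 := add_sum_erase univ b (mem_univ i)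
        have h3 : ∑ x ∈ univ.erase i, a x = ∑ x ∈ univ.erase i, b x :=
          sum_congr rfl fun x hx => hne x (ne_of_mem_erase hx)
        have h4 := ha.1.2
        have h5 := hb.1.2
        omega
      · exact hne i hi

end Pool.Agent.H18.Tj
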