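import Pool.Agent.H18.Tj.CntA

/-!
# Module C1b (TJ), slow growth: the numbers `c(σ, w) = (Rg σ w).card`

`h` is a free coordinate (`σ ≤ w h`).
* `cnt_layer` (`y` any coordinate): count by the value of `a y`.
* `cnt_mono`: `a ↦ a + e_h` maps `Rg σ w` injectively to `Rg (σ + 1) w`.
* `cnt_slow`: `C σ = c(σ, w)` is the number of the `β` (zero at `h`) with `β ≤ w`, `|β| ≤ σ`, and
  `C (σ' + 1) - C σ' = #{β : |β| = σ' + 1} =: p`; `(σ' + 1) p = ∑_β ∑_i β_i ≤ q C σ'`, since for a fixed `i` the map
  `(β, t) ↦ β - t e_i`, `1 ≤ t ≤ β_i`, is injective (`t = σ' + 1 - |γ|`) into `{γ : |γ| ≤ σ'}`.  So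
  `(σ' + 1) (C (σ' + 1) - C σ') ≤ q C σ' ≤ q C σ`; sum over `σ' = σ - s, …, σ - 1`, with `σ' + 1 ≥ σ - s + 1`.
  (In terms of `Rg` without a special role of `h`: `c(σ' + 1, w) - c(σ', w) = #{a ∈ Rg (σ' + 1) w : a h = 0}`.)
* `cnt_ge`: `card_ge` (module Frac).
* `cnt_le_mul`, `mul_le_cnt`: `cnt_layer` for `y = l`; all `c(σ - t, w') ≤ c(σ, w')`, resp. `c(σ - t, w') ≥ c(σ, w') / 2`
  for `t ≤ B` by `cnt_slow`.
* `cnt_thin`: the difference is the number of the `a ∈ Rg (σ + 1) w` with `a h = 0`; such an `a` is determined by its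
  coordinates other than `h`, `c`, which are less than `θ`.
* `cnt_le_pow`: the exponents are determined by the coordinates other than `h` (`card_le_prod`).
-/

namespace Pool.Agent.H18.Tj

open Finset Function Pool.Agent.H18.Ex

variable {ι : Type} [Fintype ι] [DecidableEq ι]

/-- The sum after a change of one coordinate. -/
private theorem CntS_sum_update (a : ι → ℕ) (i : ι) (x : ℕ) :
    ∑ j, update a i x j + a i = ∑ j, a j + x := by
  have h1 := Finset.add_sum_erase univ (update a i x) (mem_univ i)
  have h2 := Finset.add_sum_erase univ a (mem_univ i)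
  have h3 : ∑ j ∈ univ.erase i, update a i x j = ∑ j ∈ univ.erase i, a j :=
    Finset.sum_congr rfl fun j hj => by
      rw [update_of_ne (Finset.ne_of_mem_erase hj)]
  rw [update_self, h3] at h1
  omega

/-- The exponents with `a h ≥ 1`. -/
private theorem CntS_pos {h : ι} (n : ℕ) (w : ι → ℕ) :
    ((Rg (n + 1) w).filter fun a => a h ≠ 0).card ≤ (Rg n w).card := by
  refine Finset.card_le_card_of_injOn (fun a => update a h (a h - 1)) ?_ ?_
  · intro a ha
    rw [mem_coe, mem_filter, mem_Rg] at ha
    rw [mem_coe, mem_Rg]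
    obtain ⟨⟨h1, h2⟩, h3⟩ := ha
    refine ⟨fun i => ?_, ?_⟩
    · rcases eq_or_ne i h with rfl | hi
      · have := h1 i
        simp only [update_self]
        omega
      · simp only [update_of_ne hi]
        exact h1 i
    · have := CntS_sum_update a h (a h - 1)
      beta_reduce
      omega
  · intro a ha b hb hab
    rw [mem_coe, mem_filter] at ha hb
    beta_reduce at hab
    funext i
    have h1 := congrFun hab i
    rcases eq_or_ne i h with rfl | hi
    · simp only [update_self] at h1
      have h2 := ha.2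
      have h3 := hb.2
      omega
    · simpa only [update_of_ne hi] using h1

/-- The sum of one coordinate over the exponents with `a h = 0`. -/
private theorem CntS_coord {h : ι} (n : ℕ) {w : ι → ℕ} (hh : n ≤ w h) (i : ι) :
    ∑ a ∈ (Rg (n + 1) w).filter (fun a => a h = 0), a i ≤ (Rg n w).card := by
  rcases eq_or_ne i h with rfl | hi
  · rw [Finset.sum_eq_zero fun a ha => (mem_filter.1 ha).2]
    exact Nat.zero_le _
  have h1 : ∑ a ∈ (Rg (n + 1) w).filter (fun a => a h = 0), a i =
      (((Rg (n + 1) w).filter (fun a => a h = 0)).sigma fun a => range (a i)).card := by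
    rw [Finset.card_sigma]
    exact Finset.sum_congr rfl fun a _ => (card_range _).symm
  rw [h1]
  clear h1
  refine Finset.card_le_card_of_injOn
    (fun x => update (update x.1 i (x.1 i - (x.2 + 1))) h x.2) ?_ ?_
  · rintro ⟨a, t⟩ ha
    rw [mem_coe, mem_sigma, mem_filter, mem_Rg, mem_range] at ha
    obtain ⟨⟨⟨h1, h2⟩, h3⟩, h4⟩ := ha
    rw [mem_coe, mem_Rg]
    simp only at h1 h2 h3 h4 ⊢
    have hle : a i ≤ n + 1 := by
      rw [← h2]
      exact Finset.single_le_sum (f := a) (fun _ _ => Nat.zero_le _) (mem_univ i)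
    refine ⟨fun j => ?_, ?_⟩
    · rcases eq_or_ne j h with rfl | hj
      · rw [update_self]
        omega
      · rw [update_of_ne hj]
        rcases eq_or_ne j i with rfl | hj'
        · have := h1 j
          rw [update_self]
          omega
        · rw [update_of_ne hj']
          exact h1 j
    · have e1 := CntS_sum_update a i (a i - (t + 1))
      have e2 := CntS_sum_update (update a i (a i - (t + 1))) h t
      rw [update_of_ne hi.symm, h3] at e2
      omega
  · rintro ⟨a, t⟩ ha ⟨b, u⟩ hb hab
    rw [mem_coe, mem_sigma, mem_filter, mem_range] at ha hb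
    simp only at ha hb hab
    have htu : t = u := by
      have := congrFun hab h
      simpa only [update_self] using this
    subst htu
    have hab' : a = b := by
      funext j
      have h1 := congrFun hab j
      rcases eq_or_ne j h with rfl | hj
      · rw [ha.1.2, hb.1.2]
      · rw [update_of_ne hj, update_of_ne hj] at h1
        rcases eq_or_ne j i with rfl | hj'
        · rw [update_self, update_self] at h1
          have h2 := ha.2
          have h3 := hb.2
          omega
        · rwa [update_of_ne hj', update_of_ne hj'] at h1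
    subst hab'
    rfl

/-- One step of the growth. -/
private theorem CntS_step {h : ι} {n q : ℕ} {w : ι → ℕ} (hq : Fintype.card ι ≤ q)
    (hh : n ≤ w h) :
    (n + 1) * (Rg (n + 1) w).card ≤ (n + 1) * (Rg n w).card + q * (Rg n w).card := by
  have h1 := Finset.card_filter_add_card_filter_not (s := Rg (n + 1) w) (fun a => a h = 0)
  have h2 : ((Rg (n + 1) w).filter fun a => ¬ a h = 0).card ≤ (Rg n w).card := CntS_pos n w
  have h3 : (n + 1) * ((Rg (n + 1) w).filter fun a => a h = 0).card ≤ q * (Rg n w).card := by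
    calc (n + 1) * ((Rg (n + 1) w).filter fun a => a h = 0).card
        = ∑ a ∈ (Rg (n + 1) w).filter (fun a => a h = 0), ∑ i, a i := by
          rw [Finset.sum_congr rfl fun a ha => (mem_Rg.1 (mem_filter.1 ha).1).2,
            Finset.sum_const, smul_eq_mul, mul_comm]
      _ = ∑ i, ∑ a ∈ (Rg (n + 1) w).filter (fun a => a h = 0), a i := Finset.sum_comm
      _ ≤ ∑ _i : ι, (Rg n w).card := Finset.sum_le_sum fun i _ => CntS_coord n hh i
      _ = Fintype.card ι * (Rg n w).card := by
          rw [Finset.sum_const, smul_eq_mul, Finset.card_univ]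
      _ ≤ q * (Rg n w).card := Nat.mul_le_mul_right _ hq
  calc (n + 1) * (Rg (n + 1) w).card
      = (n + 1) * ((Rg (n + 1) w).filter fun a => a h = 0).card +
        (n + 1) * ((Rg (n + 1) w).filter fun a => ¬ a h = 0).card := by
        rw [← Nat.mul_add, h1]
    _ ≤ q * (Rg n w).card + (n + 1) * (Rg n w).card :=
        Nat.add_le_add h3 (Nat.mul_le_mul_left _ h2)
    _ = _ := Nat.add_comm _ _

theorem cnt_slow {h : ι} {σ q : ℕ} {w : ι → ℕ} (hq : Fintype.card ι ≤ q) (s : ℕ) (hs : s ≤ σ)
    (hh : σ ≤ w h) : (σ - s + 1) * (Rg σ w).card ≤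
      (σ - s + 1) * (Rg (σ - s) w).card + s * q * (Rg σ w).card := by
  induction s with
  | zero => simp
  | succ s ih =>
    have ih' := ih (by omega)
    obtain ⟨m, hm⟩ : ∃ m, σ - s = m + 1 := ⟨σ - s - 1, by omega⟩
    have hm' : σ - (s + 1) = m := by omega
    rw [hm] at ih'
    rw [hm']
    have h1 : (m + 1) * (Rg (m + 1) w).card ≤ (m + 1) * (Rg m w).card + q * (Rg m w).card :=
      CntS_step (h := h) hq (by omega)
    have h2 : (Rg (m + 1) w).card ≤ (Rg σ w).card := cnt_mono (h := h) (by omega) hh
    have h3 : (Rg m w).card ≤ (Rg σ w).card := cnt_mono (h := h) (by omega) hh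
    have h4 : q * (Rg m w).card ≤ q * (Rg σ w).card := Nat.mul_le_mul_left _ h3
    have h5 : (s + 1) * q * (Rg σ w).card = s * q * (Rg σ w).card + q * (Rg σ w).card := by ring
    have h6 : (m + 1 + 1) * (Rg σ w).card = (m + 1) * (Rg σ w).card + (Rg σ w).card := by ring
    have h7 : (m + 1 + 1) * (Rg (m + 1) w).card =
        (m + 1) * (Rg (m + 1) w).card + (Rg (m + 1) w).card := by ring
    rw [h6, h7] at ih'
    rw [h5]
    omega

end Pool.Agent.H18.Tj
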