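import Pool.Agent.H18.Ex.Run
import Pool.Agent.H18.Ta.Rk
import Pool.Agent.H18.Pr.PolyBL

/-!
# Project TJ (MP_1dafdd_ag): definitions

`Lens`: the numbers of conditions imposed by points of multiplicity `m ≤ M` on the traces.
`Cf`: configurations of free points and points forced to one fixed hyperplane.
`SysL`: an abstract Horace system along one hyperplane (`R k` = size of the state `k`, `F k` = size of
its trace).
`Lx w m`: the number of conditions imposed by a point of multiplicity `m` on the forms with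
exponents at most `w`.  `NE`: near-exactness.
-/

namespace Pool.Agent.H18.Tj

open Finset Pool.Agent.H18.Ex

/-- Lengths of the traces of the points of multiplicity at most `M`. -/
structure Lens (M : ℕ) : Type where
  /-- the length of the trace of a point of multiplicity `m` -/
  lo : ℕ → ℕ
  lo_zero : lo 0 = 0
  lo_one : lo 1 = 1
  ratio : ∀ c, c + 1 ≤ M → (c + 1) * lo c ≤ c * lo (c + 1)

/-- The length of a point of multiplicity `m`. -/
def Lens.hi {M : ℕ} (L : Lens M) (m : ℕ) : ℕ := ∑ i ∈ range m, L.lo (i + 1)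

/-- A configuration: multiplicities (at least two) of the free points, number of the simple points,
forced conditions `(c, e)`. -/
structure Cf : Type where
  /-- multiplicities of the free points of multiplicity at least two -/
  N : Multiset ℕ
  /-- number of the free simple points -/
  s : ℕ
  /-- forced conditions -/
  Φ : Multiset (ℕ × ℕ)

/-- Validity. -/
structure Cf.OK (M : ℕ) (c : Cf) : Prop where
  hN : ∀ m ∈ c.N, 2 ≤ m ∧ m ≤ M
  hΦ : ∀ x ∈ c.Φ, 1 ≤ x.2 ∧ x.2 ≤ 2 ∧ x.2 ≤ x.1 ∧ x.1 ≤ M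

/-- Length of the traces of the forced conditions. -/
def trT {M : ℕ} (L : Lens M) (S : Multiset (ℕ × ℕ)) : ℕ := (S.map fun x => L.lo x.1).sum

/-- Length of the forced conditions. -/
def flT {M : ℕ} (L : Lens M) (S : Multiset (ℕ × ℕ)) : ℕ := (S.map fun x => L.hi x.1 + 1 - x.2).sum

/-- Length of the free points. -/
def Cf.nsz {M : ℕ} (L : Lens M) (c : Cf) : ℕ := (c.N.map L.hi).sum + c.s

/-- Total length. -/
def Cf.sz {M : ℕ} (L : Lens M) (c : Cf) : ℕ := c.nsz L + flT L c.Φ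

/-- An abstract Horace system along one hyperplane. -/
structure SysL : Type where
  /-- the configuration kills the space of the state `k` -/
  K : ℕ → Cf → Prop
  /-- the size of the trace -/
  F : ℕ → ℕ
  /-- the size -/
  R : ℕ → ℕ
  /-- the points with multiplicities `S` kill the trace -/
  tr : ℕ → Multiset ℕ → Prop
  mono : ∀ k c c', c.N ≤ c'.N → c.s ≤ c'.s → c.Φ ≤ c'.Φ → K k c → K k c'
  one : ∀ k N s Φ, K k ⟨N, s + 1, Φ⟩ → K k ⟨1 ::ₘ N, s, Φ⟩
  count : ∀ k, R (k + 1) = R k + F (k + 1)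
  step : ∀ k (N I : Multiset ℕ) (μ t s u : ℕ) (Φ : Multiset (ℕ × ℕ)), 1 ≤ μ →
    (∀ x ∈ Φ, x.2 ≤ x.1) →
    tr (k + 1) (Φ.map Prod.fst + I + Multiset.replicate (t + u) 1) →
    K k ⟨N, s, shf Φ + I.map (fun m => (m - 1, 1)) + Multiset.replicate t (μ, 2)⟩ →
    K (k + 1) ⟨N + I + Multiset.replicate t μ, s + u, Φ⟩
  bridge : ∀ k (N : Multiset ℕ) (s s₀ : ℕ) (Φ : Multiset (ℕ × ℕ)),
    K (k + 1) ⟨N, s + s₀, Φ⟩ → K k ⟨N, s, shf Φ⟩ →
    K (k + 1) ⟨N, s, Φ + Multiset.replicate s₀ (1, 1)⟩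
  full : ∀ k (N : Multiset ℕ) (s : ℕ) (Φ : Multiset (ℕ × ℕ)), (∀ m ∈ N, 1 ≤ m) →
    R k ≤ N.card + s → K k ⟨N, s, Φ⟩

/-- The trace of the state `k` is killed by points of multiplicity at most `M` and at least `w` simple
points as soon as the lengths suffice. -/
def Gx {M : ℕ} (L : Lens M) (Y : SysL) (w k : ℕ) : Prop :=
  ∀ S : Multiset ℕ, (∀ m ∈ S, m ≤ M) → ∀ x : ℕ, w ≤ x → Y.F k ≤ (S.map L.lo).sum + x →
    Y.tr k (S + Multiset.replicate x 1)

/-- The number of free points needed for a step. -/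
def g0T {M : ℕ} (L : Lens M) (w : ℕ) : ℕ := M * (L.lo M + w)

/-- The constant. -/
def cE {M : ℕ} (L : Lens M) : ℕ := 64 * M * (M + 1) * (L.lo M + 1) ^ 2 * (L.hi M + 1)

/-- The numerical properties of the states `1, …, kt`. -/
structure NumL {M : ℕ} (L : Lens M) (Y : SysL) (E kt : ℕ) : Prop where
  hM : 1 ≤ M
  hE : cE L ≤ E
  floor : ∀ k, 1 ≤ k → k ≤ kt → cE L ≤ Y.F k
  mono : ∀ k, 1 ≤ k → k + 1 ≤ kt → Y.F k ≤ Y.F (k + 1)
  slow : ∀ k, 1 ≤ k → k + 1 ≤ kt → E * Y.F (k + 1) ≤ E * Y.F k + Y.F (k + 1)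
  low : ∀ k, 1 ≤ k → k ≤ kt → E * Y.F k ≤ Y.R k
  gd : ∀ k, 1 ≤ k → k ≤ kt → Gx L Y (Y.F k / E + 1) k

section

variable {ι : Type} [Fintype ι] [DecidableEq ι]

/-- The number of conditions imposed by a point of multiplicity `m` on the forms with exponents at
most `w` (`|b| = m - 1`, `b ≤ w`). -/
def Lx (w : ι → ℕ) (m : ℕ) : ℕ := if m = 0 then 0 else (Rg (m - 1) w).card

/-- Near-exactness: points of multiplicities at most `M` together with at least `x₀` simple points
kill the forms as soon as the lengths suffice. -/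
def NE (M x₀ σ : ℕ) (w : ι → ℕ) : Prop :=
  ∀ S : Multiset ℕ, (∀ m ∈ S, m ≤ M) → ∀ x : ℕ, x₀ ≤ x →
    (Rg σ w).card ≤ (S.map (Lx w)).sum + x →
    GM (Rg σ w) ((S + Multiset.replicate x 1).map Kind.free)

/-- The conditions of a configuration. -/
def Cf.kinds (l : ι) (c : Cf) : Multiset (Kind ι) :=
  c.N.map Kind.free + Multiset.replicate c.s (Kind.free 1) +
    c.Φ.map fun x => Kind.forced l x.1 x.2

end

/-- A bound for `cE`. -/
def cQ (q M : ℕ) : ℕ := 64 * M * (M + 1) * (M ^ q + 1) ^ 2 * (M ^ (q + 1) + 1)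

end Pool.Agent.H18.Tj
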