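import Pool.Agent.H18.Tj.NearAll

/-!
# Module T7 (TJ): exactness

`near_all` with `n = q`, `E = cQ q`; `exact_top`, `D = dT`.
-/

namespace Pool.Agent.H18.Tj

open Finset Function Pool.Agent.H18.Ex Pool.Agent.H18.Pr

variable {ι : Type} [Fintype ι] [DecidableEq ι]

theorem exact_all (q : ℕ) (hq : Fintype.card ι ≤ q) (hq1 : 1 ≤ q) :
    ∃ D : ℕ → ℕ, PolyB D ∧ ∀ M, 1 ≤ M → ∀ (l h u : ι), h ≠ l → u ≠ l → h ≠ u →
    ∀ (w : ι → ℕ) (d : ℕ), w h = d → w l = d → D M ≤ w u → D M ≤ d →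
    ∀ S : Multiset ℕ, (∀ m ∈ S, m ≤ M) → (Rg d w).card ≤ (S.map (Lx w)).sum →
      GM (Rg d w) (S.map Kind.free) := by
  obtain ⟨D', hD', H⟩ := near_all (ι := ι) q hq hq1 q (cQ q) (polyB_cQ q)
  refine ⟨fun M => dT q M (cQ q M) (D' M), polyB_dT q (polyB_cQ q) hD', ?_⟩
  intro M hM l h u hhl hul hhu w d hh hl hu hd S hS hsum
  simp only at hu hd
  refine exact_top (E' := cQ q M) (D' := D' M) hq hM l h u hhl hul hhu w d hh hl le_rfl hu hd ?_
    S hS hsum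
  intro σ h1 h2 x₀ hx₀
  refine H M hM h u hhu (update w l 0) σ ?_ ?_ ?_ h1 x₀ hx₀
  · exact (card_le_univ _).trans hq
  · rw [update_of_ne hhl, hh]
    exact h2
  · rw [update_of_ne hul]
    refine le_trans ?_ hu
    unfold dT
    omega

end Pool.Agent.H18.Tj
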