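import Pool.Agent.H18.Tj.Defs
import Pool.Agent.H18.Ex.Bridge

/-!
# Module G1a (TJ), `toric_ge`:: the dimension of the fat point systems

`bw r d s b`: width `b l` at the coordinates `l < s`, width `d` at the others.

`upper`: as `Geo_special` in `Pool/Agent/H18/Ta/Geo.lean` and `exists_special` in `Pool/Agent/H18/Ex/Final.lean`:
`p₀ (J l)` is the coordinate point `Pi.single l 1` (`l < s`), the other `p₀ i` and the `N - L` simple points are the
positions given by `GM_iff`; the forms are supported in `Rg d w` (`vanishes_coord_iff`); `general_finrank_le`.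

`toric_ge` (for arbitrary positions): the conditions `Kind.free m` on the functions supported in `Rg d w`, `m ≤ d`
(`m - 1 < d` suffices), follow from the conditions with `|b| = m - 1`, `b ≤ w`, of which there are `Lx w m`:
for `|b| < d` the Euler relation `(d - |b|) D_b = ∑_j (b_j + 1) q_j D_{b + e_j}`, `D_b = ∑_a f a * tcr q a b`
(`binom (a_j, b_j) (a_j - b_j) = (b_j + 1) binom (a_j, b_j + 1)`, `∑_j (a_j - b_j) = d - |b|`), gives
`D_b = 0` for all `|b| < m` by descending induction on `|b|`; and `D_b = 0` if some `b_j > w_j` (`binom (a_j, b_j) = 0`).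
So the space of solutions has dimension at least `card - ∑ Lx w (m i)` (rank-nullity).

`lower`: for general `p` the points `p (J l)` and the coordinate points `e_l`, `s ≤ l ≤ r`, are linearly independent
(the determinant is a nonzero polynomial, see `general_det` in `Pool/Agent/H18/TileFinal.lean`); `finrank_linear`
(`Pool/Agent/H18/Cub/CremL.lean`; or `finrank_linSubst`) moves `p (J l)` to `e_l`; then `toric_ge` for the images of the
other points, and the polynomials with coefficients in the space of solutions are in `fatForms`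
(`finrank_coord_ge` in `TileFinal.lean` shows how to construct the injection; `vanishes_coord_iff`).
-/

namespace Pool.Agent.H18.Tj

open Finset Function Pool.Agent.H18.Ex

/-- one factor of `tcr` -/
private noncomputable def GeoA_fac {ι : Type} (q : ι → ℂ) (a : ι → ℕ) (i : ι) (n : ℕ) : ℂ :=
  (((a i).choose n : ℕ) : ℂ) * q i ^ (a i - n)

private theorem GeoA_fac_succ {ι : Type} (q : ι → ℂ) (a : ι → ℕ) (i : ι) (n : ℕ) :
    ((a i : ℂ) - n) * GeoA_fac q a i n = (n + 1) * q i * GeoA_fac q a i (n + 1) := by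
  unfold GeoA_fac
  rcases Nat.lt_or_ge n (a i) with h | h
  · have h1 : (((a i).choose (n + 1) : ℕ) : ℂ) * (n + 1) = ((a i).choose n : ℕ) * ((a i : ℂ) - n) := by
      have h2 := Nat.choose_succ_right_eq (a i) n
      have h3 : ((((a i).choose (n + 1) * (n + 1) : ℕ)) : ℂ) = (((a i).choose n * (a i - n) : ℕ) : ℂ) := by
        rw [h2]
      rw [Nat.cast_mul, Nat.cast_mul, Nat.cast_sub h.le] at h3
      push_cast at h3
      exact h3
    have h4 : a i - n = (a i - (n + 1)) + 1 := by omega
    rw [h4, pow_succ]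
    linear_combination (-(q i ^ (a i - (n + 1)) * q i)) * h1
  · rw [Nat.choose_eq_zero_of_lt (show a i < n + 1 by omega)]
    rcases Nat.lt_or_ge (a i) n with h5 | h5
    · rw [Nat.choose_eq_zero_of_lt h5]
      simp
    · have h6 : a i = n := le_antisymm h h5
      rw [h6]
      simp

private theorem GeoA_tcr {ι : Type} [Fintype ι] (q : ι → ℂ) (a b : ι → ℕ) :
    tcr q a b = ∏ i, GeoA_fac q a i (b i) := rfl

private theorem GeoA_euler {ι : Type} [Fintype ι] [DecidableEq ι] (q : ι → ℂ) (a b : ι → ℕ) :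
    (∑ j, ((a j : ℂ) - b j)) * tcr q a b =
      ∑ j, ((b j : ℂ) + 1) * q j * tcr q a (Function.update b j (b j + 1)) := by
  rw [Finset.sum_mul]
  refine Finset.sum_congr rfl fun j _ => ?_
  rw [GeoA_tcr, GeoA_tcr, ← Finset.mul_prod_erase Finset.univ _ (Finset.mem_univ j),
    ← Finset.mul_prod_erase Finset.univ (fun i => GeoA_fac q a i (Function.update b j (b j + 1) i))
      (Finset.mem_univ j)]
  have h1 : ∏ i ∈ Finset.univ.erase j, GeoA_fac q a i (Function.update b j (b j + 1) i) =
      ∏ i ∈ Finset.univ.erase j, GeoA_fac q a i (b i) := by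
    refine Finset.prod_congr rfl fun i hi => ?_
    rw [Function.update_of_ne (Finset.ne_of_mem_erase hi)]
  rw [h1, Function.update_self, ← mul_assoc, GeoA_fac_succ, ← mul_assoc]

private theorem GeoA_zero {ι : Type} [Fintype ι] (q : ι → ℂ) (a b : ι → ℕ) (j : ι)
    (h : a j < b j) : tcr q a b = 0 := by
  rw [GeoA_tcr]
  refine Finset.prod_eq_zero (Finset.mem_univ j) ?_
  unfold GeoA_fac
  rw [Nat.choose_eq_zero_of_lt h]
  simp

private theorem GeoA_sum_update {ι : Type} [Fintype ι] [DecidableEq ι] (b : ι → ℕ) (j : ι) :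
    ∑ i, Function.update b j (b j + 1) i = ∑ i, b i + 1 := by
  rw [Finset.sum_update_of_mem (Finset.mem_univ j), Finset.sdiff_singleton_eq_erase,
    ← Finset.add_sum_erase Finset.univ b (Finset.mem_univ j)]
  ring

private theorem GeoA_desc {ι : Type} [Fintype ι] [DecidableEq ι] (d : ℕ) (w : ι → ℕ) (m : ℕ)
    (hm : m ≤ d) (q : ι → ℂ) (f : {a // a ∈ Rg d w} → ℂ)
    (h : ∀ b : ι → ℕ, b ∈ Rg (m - 1) w → ∑ a : {a // a ∈ Rg d w}, f a * tcr q a.1 b = 0) :
    ∀ n : ℕ, ∀ b : ι → ℕ, ∑ j, b j + 1 + n = m →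
      ∑ a : {a // a ∈ Rg d w}, f a * tcr q a.1 b = 0 := by
  intro n
  induction n with
  | zero =>
    intro b hb
    by_cases hw : ∀ i, b i ≤ w i
    · exact h b (mem_Rg.2 ⟨hw, by omega⟩)
    · push Not at hw
      obtain ⟨j, hj⟩ := hw
      refine Finset.sum_eq_zero fun a _ => ?_
      have h1 := (mem_Rg.1 a.2).1 j
      rw [GeoA_zero q a.1 b j (by omega), mul_zero]
  | succ n ih =>
    intro b hb
    have h1 : ((d : ℂ) - ((∑ j, b j : ℕ) : ℂ)) * ∑ a : {a // a ∈ Rg d w}, f a * tcr q a.1 b = 0 := by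
      calc ((d : ℂ) - ((∑ j, b j : ℕ) : ℂ)) * ∑ a : {a // a ∈ Rg d w}, f a * tcr q a.1 b
          = ∑ a : {a // a ∈ Rg d w}, f a * ((∑ j, ((a.1 j : ℂ) - b j)) * tcr q a.1 b) := by
            rw [Finset.mul_sum]
            refine Finset.sum_congr rfl fun a _ => ?_
            have h2 := (mem_Rg.1 a.2).2
            have h3 : (∑ j, ((a.1 j : ℂ) - b j)) = (d : ℂ) - ((∑ j, b j : ℕ) : ℂ) := by
              have h4 : ((∑ i, a.1 i : ℕ) : ℂ) = (d : ℂ) := by rw [h2]
              rw [Finset.sum_sub_distrib, ← h4]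
              push_cast
              rfl
            rw [h3]
            ring
        _ = ∑ a : {a // a ∈ Rg d w}, ∑ j, ((b j : ℂ) + 1) * q j *
              (f a * tcr q a.1 (Function.update b j (b j + 1))) := by
            refine Finset.sum_congr rfl fun a _ => ?_
            rw [GeoA_euler, Finset.mul_sum]
            refine Finset.sum_congr rfl fun j _ => ?_
            ring
        _ = ∑ j, ((b j : ℂ) + 1) * q j *
              ∑ a : {a // a ∈ Rg d w}, f a * tcr q a.1 (Function.update b j (b j + 1)) := by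
            rw [Finset.sum_comm]
            refine Finset.sum_congr rfl fun j _ => ?_
            rw [Finset.mul_sum]
        _ = 0 := by
            refine Finset.sum_eq_zero fun j _ => ?_
            rw [ih (Function.update b j (b j + 1)) (by rw [GeoA_sum_update]; omega), mul_zero]
    have h2 : ((d : ℂ) - ((∑ j, b j : ℕ) : ℂ)) ≠ 0 := by
      rw [sub_ne_zero]
      intro h3
      have h4 : d = ∑ j, b j := by exact_mod_cast h3
      omega
    exact (mul_eq_zero.1 h1).resolve_left h2

theorem toric_ge {ι : Type} [Fintype ι] [DecidableEq ι] {κ : Type} [Fintype κ] (d : ℕ)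
    (w : ι → ℕ) (m : κ → ℕ) (hm : ∀ i, m i ≤ d) (pos : κ → ι → ℂ) :
    ∃ V : Submodule ℂ ({a // a ∈ Rg d w} → ℂ),
      (Rg d w).card ≤ Module.finrank ℂ V + ∑ i, Lx w (m i) ∧
      ∀ f ∈ V, ∀ i (b : ι → ℕ), ∑ j, b j < m i →
        ∑ a : {a // a ∈ Rg d w}, f a * tcr (pos i) a.1 b = 0 := by
  classical
  set B : κ → Finset (ι → ℕ) := fun i => if m i = 0 then ∅ else Rg (m i - 1) w with hB
  set T : ({a // a ∈ Rg d w} → ℂ) →ₗ[ℂ] ((Σ i : κ, {b // b ∈ B i}) → ℂ) :=
    LinearMap.pi fun x => fnl (Rg d w) (fun a => tcr (pos x.1) a x.2.1) with hT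
  have hBc : ∀ i, (B i).card = Lx w (m i) := by
    intro i
    rw [hB]
    unfold Lx
    by_cases h0 : m i = 0
    · simp [h0]
    · simp [h0]
  refine ⟨LinearMap.ker T, ?_, ?_⟩
  · have h1 := LinearMap.finrank_range_add_finrank_ker T
    rw [Module.finrank_fintype_fun_eq_card, Fintype.card_coe] at h1
    have h2 : Module.finrank ℂ (LinearMap.range T) ≤ ∑ i, Lx w (m i) := by
      calc Module.finrank ℂ (LinearMap.range T)
          ≤ Module.finrank ℂ ((Σ i : κ, {b // b ∈ B i}) → ℂ) := Submodule.finrank_le _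
        _ = ∑ i, Lx w (m i) := by
            rw [Module.finrank_fintype_fun_eq_card, Fintype.card_sigma]
            refine Finset.sum_congr rfl fun i _ => ?_
            rw [Fintype.card_coe, hBc]
    omega
  · intro f hf i b hb
    rw [LinearMap.mem_ker] at hf
    have hmi : m i ≠ 0 := by omega
    have h1 : ∀ b' : ι → ℕ, b' ∈ Rg (m i - 1) w →
        ∑ a : {a // a ∈ Rg d w}, f a * tcr (pos i) a.1 b' = 0 := by
      intro b' hb'
      have hb2 : b' ∈ B i := by
        rw [hB]
        simp only [hmi, if_false]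
        exact hb'
      have h2 := congrFun hf ⟨i, ⟨b', hb2⟩⟩
      rw [hT] at h2
      simp only [LinearMap.pi_apply, Pi.zero_apply, fnl_apply] at h2
      exact h2
    exact GeoA_desc d w (m i) (hm i) (pos i) f h1 (m i - 1 - ∑ j, b j) b (by omega)

end Pool.Agent.H18.Tj
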