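import Pool.Agent.H18.Tj.Defs
import Pool.Agent.H18.Ta.Key
import Pool.Agent.H18.Ex.OnePar
import Pool.Agent.H18.Ex.Gen

/-!
# Module T1 (TJ): the layer lemma

`lyr A y s`: the exponents of the layer `a y = s`, with the coordinate `y` replaced by `0`.

Proof of `layers` (compare `core` in `Pool/Agent/H18/Ta/Core.lean`, whose private lemma `Core_comb` can be
copied; the keys are `e i s + kap ℓ s` with `e i = ex ℓ (u i) 0`, and `key_lt` in `Pool/Agent/H18/Ta/Key.lean`).
By `GI.general` (`Pool/Agent/H18/Ex/Gen.lean`) and the product of the polynomials for `s < ℓ` there are common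
positions `pos` such that `InjAt (lyr A y s) (free (μ i - rk ℓ (u i) 0 s)) pos` for all `s < ℓ`.  Suppose `GI A` is
false.  For `t ≠ 0` use the positions `update (pos i) y (t ^ ex ℓ (u i) 0)`: there is a nonzero solution `f` on
`A`; the coefficients `f a * (t ^ kap ℓ (a y))⁻¹` solve the system of the equations `(i, b)`, `|b| < μ i`, with entries
`(binom (a y, b y) * tcr' ) * X ^ (e i * a y + kap ℓ (a y)) * X` evaluated at `t` (multiply the equation by
`t ^ (e i * b y) * t`), where `tcr' = tcr (pos i) (update a y 0) (update b y 0)`.  By `exists_poly_solution`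
(`Pool/Agent/H18/Ex/OnePar.lean`) there is a polynomial solution `F` with `(F a₀).eval 0 ≠ 0`.  Let
`s₀ = a₀ y` and `b` a multi-index with `b y = 0`, `|b| < μ i - rk ℓ (u i) 0 s₀`.  The equations for `update b y γ`,
`γ < μ i - |b|`, combined by `Core_comb` so that the layers `s ≠ s₀` with `rk < μ i - |b|` cancel, give, at the
coefficient `X ^ (e i * s₀ + kap ℓ s₀)`, `∑_{a ∈ A, a y = s₀} (F a).eval 0 * tcr (pos i) (update a y 0) b = 0`.  (For `b y ≠ 0`
this holds since `binom (0, b y) = 0`.)  So the values `(F a).eval 0` on the layer `s₀` satisfy the conditions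
`free (μ i - rk ℓ (u i) 0 s₀)` at `pos i`, hence vanish, a contradiction.
-/

namespace Pool.Agent.H18.Tj

open Finset Function Pool.Agent.H18.Ex Pool.Agent.H18.Ta

variable {ι : Type} [Fintype ι] [DecidableEq ι]

/-- The layer `a y = s`. -/
def lyr (A : Finset (ι → ℕ)) (y : ι) (s : ℕ) : Finset (ι → ℕ) :=
  (A.filter fun a => a y = s).image fun a => update a y 0

/-- Combinations of binomial coefficients. -/
private theorem Layer_comb {R : Type*} [CommRing R] (ℓ h : ℕ) (T : ℕ → R)
    (hT : ∀ γ < h, ∑ s ∈ range ℓ, ((s.choose γ : ℕ) : R) * T s = 0) (S : Finset ℕ) :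
    ∀ γ, S.card + γ < h →
      ∑ s ∈ range ℓ, (∏ u ∈ S, ((s : R) - (u : R))) * (((s.choose γ : ℕ) : R) * T s) = 0 := by
  induction S using Finset.induction_on with
  | empty =>
    intro γ hγ
    simpa using hT γ (by simpa using hγ)
  | insert u S hu ih =>
    intro γ hγ
    rw [card_insert_of_notMem hu] at hγ
    have h1 := ih (γ + 1) (by omega)
    have h2 := ih γ (by omega)
    have h3 : ∀ s ∈ range ℓ,
        (∏ u' ∈ insert u S, ((s : R) - (u' : R))) * (((s.choose γ : ℕ) : R) * T s) =
        ((γ : R) + 1) * ((∏ u' ∈ S, ((s : R) - (u' : R))) * (((s.choose (γ + 1) : ℕ) : R) * T s)) +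
        ((γ : R) - u) * ((∏ u' ∈ S, ((s : R) - (u' : R))) * (((s.choose γ : ℕ) : R) * T s)) := by
      intro s _
      rw [prod_insert hu]
      have h4 : ((s : R) - γ) * ((s.choose γ : ℕ) : R) = ((γ : R) + 1) * ((s.choose (γ + 1) : ℕ) : R) := by
        have h5 := Nat.choose_succ_right_eq s γ
        rcases Nat.lt_or_ge s γ with h6 | h6
        · rw [Nat.choose_eq_zero_of_lt h6, Nat.choose_eq_zero_of_lt (by omega)]
          simp
        · have h7 : ((s.choose (γ + 1) * (γ + 1) : ℕ) : R) = ((s.choose γ * (s - γ) : ℕ) : R) := by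
            rw [h5]
          rw [Nat.cast_mul, Nat.cast_mul, Nat.cast_sub h6] at h7
          push_cast at h7
          linear_combination -h7
      have h5 : ((s : R) - u) * ((s.choose γ : ℕ) : R) =
          ((γ : R) + 1) * ((s.choose (γ + 1) : ℕ) : R) + ((γ : R) - u) * ((s.choose γ : ℕ) : R) := by
        rw [← h4]
        ring
      calc _ = (∏ u' ∈ S, ((s : R) - (u' : R))) * ((((s : R) - u) * ((s.choose γ : ℕ) : R)) * T s) := by
            ring
        _ = _ := by
            rw [h5]
            ring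
    rw [sum_congr rfl h3, sum_add_distrib, ← mul_sum, ← mul_sum, h1, h2, mul_zero, mul_zero, add_zero]

/-- The factor of the coordinate `y`. -/
private theorem Layer_tcr {R : Type*} [CommRing R] (p : ι → R) (y : ι) (z : R) (a b : ι → ℕ) :
    tcr (update p y z) a b = (((a y).choose (b y) : ℕ) : R) * z ^ (a y - b y) *
      tcr p (update a y 0) (update b y 0) := by
  unfold tcr
  rw [← mul_prod_erase univ _ (mem_univ y), ← mul_prod_erase univ
    (fun i => (((update a y 0 i).choose (update b y 0 i) : ℕ) : R) *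
      p i ^ (update a y 0 i - update b y 0 i)) (mem_univ y)]
  simp only [update_self, Nat.choose_zero_right, Nat.cast_one, Nat.sub_zero, pow_zero, mul_one,
    one_mul]
  congr 1
  refine prod_congr rfl fun i hi => ?_
  have hi' := ne_of_mem_erase hi
  rw [update_of_ne hi', update_of_ne hi', update_of_ne hi']

private theorem Layer_tcr_zero {R : Type*} [CommRing R] (p : ι → R) (y : ι) (a b : ι → ℕ)
    (hb : b y ≠ 0) : tcr p (update a y 0) b = 0 := by
  unfold tcr
  apply prod_eq_zero (mem_univ y)
  rw [update_self, Nat.choose_eq_zero_of_lt (Nat.pos_of_ne_zero hb), Nat.cast_zero, zero_mul]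

private theorem Layer_sum (a : ι → ℕ) (y : ι) (z : ℕ) :
    ∑ i, update a y z i + a y = ∑ i, a i + z := by
  rw [← add_sum_erase univ (fun i => update a y z i) (mem_univ y),
    ← add_sum_erase univ a (mem_univ y), update_self]
  have h : ∑ i ∈ univ.erase y, update a y z i = ∑ i ∈ univ.erase y, a i :=
    sum_congr rfl fun i hi => update_of_ne (ne_of_mem_erase hi) _ _
  rw [h]
  omega

theorem layers {κ : Type} [Fintype κ] (A : Finset (ι → ℕ)) (y : ι) (ℓ : ℕ)
    (hA : ∀ a ∈ A, a y < ℓ) (μ u : κ → ℕ) (hu : ∀ i, u i < ℓ)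
    (h : ∀ s < ℓ, GI (lyr A y s) fun i => Kind.free (μ i - Ta.rk ℓ (u i) 0 s)) :
    GI A fun i => Kind.free (μ i) := by
  classical
  -- common positions
  obtain ⟨pos, hpos⟩ : ∃ pos : κ → ι → ℂ, ∀ s < ℓ,
      InjAt (lyr A y s) (fun i => Kind.free (μ i - Ta.rk ℓ (u i) 0 s)) pos := by
    have h1 : ∀ s : ℕ, ∃ G : MvPolynomial (κ × ι) ℂ, G ≠ 0 ∧ (s < ℓ →
        ∀ pos : κ → ι → ℂ, MvPolynomial.eval (fun x => pos x.1 x.2) G ≠ 0 →
          InjAt (lyr A y s) (fun i => Kind.free (μ i - Ta.rk ℓ (u i) 0 s)) pos) := by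
      intro s
      by_cases hs : s < ℓ
      · obtain ⟨G, hG, hG'⟩ := (h s hs).general
        exact ⟨G, hG, fun _ => hG'⟩
      · exact ⟨1, one_ne_zero, fun h => absurd h hs⟩
    choose G hG hG' using h1
    have hne : (∏ s ∈ range ℓ, G s) ≠ 0 := prod_ne_zero_iff.2 fun s _ => hG s
    obtain ⟨x, hx⟩ : ∃ x : κ × ι → ℂ, MvPolynomial.eval x (∏ s ∈ range ℓ, G s) ≠ 0 := by
      by_contra hcon
      push Not at hcon
      exact hne (MvPolynomial.funext fun x => by rw [hcon x, map_zero])
    refine ⟨fun i j => x (i, j), fun s hs => hG' s hs _ ?_⟩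
    rw [map_prod, prod_ne_zero_iff] at hx
    exact hx s (mem_range.2 hs)
  by_contra hcon
  have hcon' : ∀ p : κ → ι → ℂ, ∃ f : (ι → ℕ) → ℂ,
      (∀ i, ∀ b : ι → ℕ, ∑ j, b j < μ i → ∑ a ∈ A, f a * tcr (p i) a b = 0) ∧
        ∃ a ∈ A, f a ≠ 0 := by
    intro p
    by_contra hp
    apply hcon
    refine ⟨p, fun f hf a ha => ?_⟩
    by_contra hfa
    exact hp ⟨f, fun i b hb => hf i b hb, a, ha, hfa⟩
  set e : κ → ℕ := fun i => ex ℓ (u i) 0 with he
  let ρ : Type := (i : κ) × {b // b ∈ (Kind.free (ι := ι) (μ i)).idxs}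
  let Mx : ρ → (ι → ℕ) → Polynomial ℂ := fun r a =>
    Polynomial.C (tcr (pos r.1) (update a y 0) (update r.2.1 y 0)) *
      ((((a y).choose (r.2.1 y) : ℕ) : Polynomial ℂ) *
        (Polynomial.X ^ (e r.1 * a y + kap ℓ (a y)) * Polynomial.X))
  have hsol : ∀ t : ℂ, ∃ f : (ι → ℕ) → ℂ,
      (∀ r, ∑ a ∈ A, f a * (Mx r a).eval t = 0) ∧ ∃ a ∈ A, f a ≠ 0 := by
    intro t
    obtain ⟨f, hf, a₁, ha₁, hne⟩ := hcon' fun i => update (pos i) y (t ^ e i)
    by_cases ht : t = 0
    · refine ⟨fun _ => 1, fun r => sum_eq_zero fun a _ => ?_, a₁, ha₁, one_ne_zero⟩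
      subst ht
      simp only [Mx]
      simp
    · refine ⟨fun a => f a * (t ^ kap ℓ (a y))⁻¹, fun r => ?_, a₁, ha₁, ?_⟩
      · have h1 := hf r.1 r.2.1 (Kind.mem_idxs.1 r.2.2)
        have h2 : ∑ a ∈ A, f a * (t ^ kap ℓ (a y))⁻¹ * (Mx r a).eval t =
            (t ^ (e r.1 * r.2.1 y) * t) *
              ∑ a ∈ A, f a * tcr (update (pos r.1) y (t ^ e r.1)) a r.2.1 := by
          rw [mul_sum]
          refine sum_congr rfl fun a _ => ?_
          rw [Layer_tcr]
          simp only [Mx]
          simp only [Polynomial.eval_mul, Polynomial.eval_C, Polynomial.eval_natCast,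
            Polynomial.eval_pow, Polynomial.eval_X]
          rcases Nat.lt_or_ge (a y) (r.2.1 y) with h3 | h3
          · rw [Nat.choose_eq_zero_of_lt h3]
            simp
          · have h4 : t ^ (e r.1 * a y + kap ℓ (a y)) =
                t ^ (e r.1 * r.2.1 y) * (t ^ e r.1) ^ (a y - r.2.1 y) * t ^ kap ℓ (a y) := by
              rw [← pow_mul, ← pow_add, pow_add, ← mul_add, Nat.add_sub_cancel' h3]
            rw [h4]
            have h5 : t ^ kap ℓ (a y) ≠ 0 := pow_ne_zero _ ht
            field_simp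
        rw [h2, h1, mul_zero]
      · exact mul_ne_zero hne (inv_ne_zero (pow_ne_zero _ ht))
  obtain ⟨F, hF, a₀, ha₀, hne⟩ := Pool.Agent.H18.Ex.exists_poly_solution A Mx hsol
  -- the layers
  set T : κ → (ι → ℕ) → ℕ → Polynomial ℂ := fun i b s =>
    Polynomial.X ^ (e i * s + kap ℓ s) * ∑ a ∈ A.filter (fun a => a y = s),
      F a * Polynomial.C (tcr (pos i) (update a y 0) b) with hT
  have heq : ∀ i (b : ι → ℕ) γ, b y = 0 → γ < μ i - ∑ j, b j →
      ∑ s ∈ range ℓ, ((s.choose γ : ℕ) : Polynomial ℂ) * T i b s = 0 := by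
    intro i b γ hb hγ
    have hsum : ∑ j, update b y γ j < μ i := by
      have h1 := Layer_sum b y γ
      omega
    have h1 := hF ⟨i, ⟨update b y γ, Kind.mem_idxs.2 hsum⟩⟩
    have h2 : Polynomial.X * ∑ s ∈ range ℓ, ((s.choose γ : ℕ) : Polynomial ℂ) * T i b s = 0 := by
      rw [← h1, ← sum_fiberwise_of_maps_to (t := range ℓ) (g := fun a : ι → ℕ => a y)
        (fun a ha => mem_range.2 (hA a ha)), mul_sum]
      refine sum_congr rfl fun s _ => ?_
      rw [hT]
      beta_reduce
      rw [mul_sum, mul_sum, mul_sum]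
      refine sum_congr rfl fun a ha => ?_
      have has : a y = s := (mem_filter.1 ha).2
      simp only [Mx]
      have h3 : update (update b y γ) y 0 = b := by
        rw [update_idem, ← hb, update_eq_self]
      rw [h3, update_self, has]
      ring
    exact (mul_eq_zero.1 h2).resolve_left Polynomial.X_ne_zero
  -- the vanishing at zero
  have hkeyv : ∀ i, ∀ s₀ < ℓ, ∀ b : ι → ℕ, b y = 0 → ∑ j, b j < μ i - Ta.rk ℓ (u i) 0 s₀ →
      ∑ a ∈ A.filter (fun a => a y = s₀),
        (F a).eval 0 * tcr (pos i) (update a y 0) b = 0 := by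
    intro i s₀ hs₀ b hb hα
    have hui : u i + 0 < ℓ := by have := hu i; omega
    set h' := μ i - ∑ j, b j with hh
    set S : Finset ℕ := (range ℓ).filter fun s => s ≠ s₀ ∧ Ta.rk ℓ (u i) 0 s < h' with hS
    have hScard : S.card + 0 < h' := by
      have h1 : (insert s₀ S).card ≤ (range h').card := by
        apply card_le_card_of_injOn (Ta.rk ℓ (u i) 0)
        · intro s hs
          rw [mem_coe, mem_insert] at hs
          rw [mem_coe, mem_range]
          rcases hs with rfl | hs
          · omega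
          · exact (mem_filter.1 hs).2.2
        · intro s hs t ht hst
          have hlt : ∀ s ∈ insert s₀ S, s < ℓ := by
            intro s hs
            rcases mem_insert.1 hs with rfl | hs
            · exact hs₀
            · exact mem_range.1 (mem_filter.1 hs).1
          exact Ta.rk_inj hui (hlt s hs) (hlt t ht) hst
      rw [card_insert_of_notMem (by simp [hS]), card_range] at h1
      omega
    have h2 := Layer_comb ℓ h' (T i b) (fun γ hγ => heq i b γ hb hγ) S 0 hScard
    have h3 := congrArg (fun p => Polynomial.coeff p (e i * s₀ + kap ℓ s₀)) h2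
    simp only [Polynomial.finsetSum_coeff, Polynomial.coeff_zero] at h3
    rw [sum_eq_single s₀] at h3
    · -- the main term
      have h4 : (∏ u ∈ S, (((s₀ : ℕ) : Polynomial ℂ) - ((u : ℕ) : Polynomial ℂ))) =
          Polynomial.C (∏ u ∈ S, ((s₀ : ℂ) - (u : ℂ))) := by
        rw [map_prod]
        refine prod_congr rfl fun u _ => ?_
        rw [map_sub]
        simp
      rw [h4, Nat.choose_zero_right, Nat.cast_one, one_mul, Polynomial.coeff_C_mul, hT] at h3
      simp only at h3
      rw [Polynomial.coeff_X_pow_mul', if_pos le_rfl, Nat.sub_self] at h3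
      have h5 : (∏ u ∈ S, ((s₀ : ℂ) - (u : ℂ))) ≠ 0 := by
        rw [prod_ne_zero_iff]
        intro u hu
        rw [sub_ne_zero]
        intro h6
        have h7 : s₀ = u := by exact_mod_cast h6
        exact (mem_filter.1 hu).2.1 h7.symm
      have h6 := (mul_eq_zero.1 h3).resolve_left h5
      rw [Polynomial.coeff_zero_eq_eval_zero, Polynomial.eval_finsetSum] at h6
      refine Eq.trans (sum_congr rfl fun a _ => ?_) h6
      rw [Polynomial.eval_mul, Polynomial.eval_C]
    · -- the other terms
      intro s hs hne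
      rw [mem_range] at hs
      by_cases hsS : s ∈ S
      · rw [prod_eq_zero hsS (sub_self _), zero_mul, Polynomial.coeff_zero]
      · have h4 : h' ≤ Ta.rk ℓ (u i) 0 s := by
          by_contra h5
          exact hsS (mem_filter.2 ⟨mem_range.2 hs, hne, by omega⟩)
        have h5 := Ta.key_lt hui hs₀ hs (by omega)
        rw [Nat.choose_zero_right, Nat.cast_one, one_mul, hT]
        simp only
        rw [mul_left_comm, Polynomial.coeff_X_pow_mul', if_neg (by rw [he]; beta_reduce; omega)]
    · intro hs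
      exact absurd (mem_range.2 hs₀) hs
  -- conclusion
  have hs₀ : a₀ y < ℓ := hA a₀ ha₀
  apply hne
  have hup : ∀ a ∈ A.filter (fun a => a y = a₀ y), update (update a y 0) y (a₀ y) = a := by
    intro a ha
    rw [update_idem, ← (mem_filter.1 ha).2, update_eq_self]
  have hfin := hpos (a₀ y) hs₀ (fun c => (F (update c y (a₀ y))).eval 0) (by
    intro i b hb
    have hb' : ∑ j, b j < μ i - Ta.rk ℓ (u i) 0 (a₀ y) := hb
    show ∑ c ∈ lyr A y (a₀ y), (F (update c y (a₀ y))).eval 0 * tcr (pos i) c b = 0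
    unfold lyr
    rw [sum_image]
    · by_cases hby : b y = 0
      · refine Eq.trans (sum_congr rfl fun a ha => ?_) (hkeyv i (a₀ y) hs₀ b hby hb')
        rw [hup a ha]
      · apply sum_eq_zero
        intro a _
        rw [Layer_tcr_zero _ _ _ _ hby, mul_zero]
    · intro a ha a' ha' haa
      have h1 := hup a ha
      have h2 := hup a' ha'
      beta_reduce at haa
      rw [← h1, haa, h2]) (update a₀ y 0) (by
    unfold lyr
    exact mem_image_of_mem _ (mem_filter.2 ⟨ha₀, rfl⟩))
  beta_reduce at hfin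
  rw [hup a₀ (mem_filter.2 ⟨ha₀, rfl⟩)] at hfin
  exact hfin

/-- The layers of a region. -/
theorem lyr_Rg (y : ι) (σ s : ℕ) (w : ι → ℕ) (hs : s ≤ w y) (hσ : s ≤ σ) :
    lyr (Rg σ w) y s = Rg (σ - s) (update w y 0) := by
  ext c
  unfold lyr
  rw [mem_image, mem_Rg]
  constructor
  · rintro ⟨a, ha, rfl⟩
    rw [mem_filter, mem_Rg] at ha
    obtain ⟨⟨h1, h2⟩, h3⟩ := ha
    constructor
    · intro i
      by_cases hi : i = y
      · subst hi
        rw [update_self, update_self]
      · rw [update_of_ne hi, update_of_ne hi]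
        exact h1 i
    · have h4 := Layer_sum a y 0
      omega
  · rintro ⟨h1, h2⟩
    have hcy : c y = 0 := by
      have h3 := h1 y
      rw [update_self] at h3
      omega
    refine ⟨update c y s, ?_, ?_⟩
    · rw [mem_filter, mem_Rg]
      refine ⟨⟨?_, ?_⟩, update_self _ _ _⟩
      · intro i
        by_cases hi : i = y
        · subst hi
          rw [update_self]
          exact hs
        · have h3 := h1 i
          rw [update_of_ne hi] at h3 ⊢
          exact h3
      · have h4 := Layer_sum c y s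
        omega
    · rw [update_idem, ← hcy, update_eq_self]

end Pool.Agent.H18.Tj
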