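import Pool.Agent.H18.Tj.Defs

/-!
# Module M1 (TJ): properties of lengths

`ratioM`: from `(c + 1) lo c ≤ c lo (c + 1)` and `M c ≤ (M - 1) (c + 1)` for `c + 1 ≤ M` (multiply by `M`,
divide by `c + 1`).  `trT_shf`, `flT_shf`, `flT_le`: as the private theorems `trS_shf`, `flS_shf` in
`Pool/Agent/H18/Ub/VPeel.lean` and `Cfg.fl_le` in `Pool/Agent/H18/Ex/Run.lean`, with `ell n` replaced by
`L.lo` and `ell (n + 1)` by `L.hi`.  `shf_iterate`: see `shf_iterate_eq_zero` (grep in `Pool/Agent/H18/Ex`).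
-/

namespace Pool.Agent.H18.Tj

open Finset Pool.Agent.H18.Ex

variable {M : ℕ} (L : Lens M)

private theorem LensL_lo_succ {c : ℕ} (h : c + 1 ≤ M) : L.lo c ≤ L.lo (c + 1) := by
  have h1 := L.ratio c h
  have h2 : c * L.lo (c + 1) ≤ (c + 1) * L.lo (c + 1) := Nat.mul_le_mul_right _ (Nat.le_succ c)
  exact Nat.le_of_mul_le_mul_left (le_trans h1 h2) (Nat.succ_pos c)

private theorem LensL_shf_zero : shf 0 = 0 := rfl

private theorem LensL_shf_cons (x : ℕ × ℕ) (S : Multiset (ℕ × ℕ)) :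
    shf (x ::ₘ S) = if x.2 ≤ x.1 - 1 then (x.1 - 1, x.2) ::ₘ shf S else shf S := by
  unfold shf
  rw [Multiset.map_cons]
  by_cases h : x.2 ≤ x.1 - 1
  · rw [if_pos h]
    exact Multiset.filter_cons_of_pos (p := fun y : ℕ × ℕ => y.2 ≤ y.1) _ h
  · rw [if_neg h]
    exact Multiset.filter_cons_of_neg (p := fun y : ℕ × ℕ => y.2 ≤ y.1) _ h

private theorem LensL_mem_shf {x : ℕ × ℕ} {S : Multiset (ℕ × ℕ)} (hx : x ∈ shf S) :
    ∃ y ∈ S, x = (y.1 - 1, y.2) ∧ y.2 ≤ y.1 - 1 := by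
  unfold shf at hx
  rw [Multiset.mem_filter, Multiset.mem_map] at hx
  obtain ⟨⟨y, hy, rfl⟩, h⟩ := hx
  exact ⟨y, hy, rfl, h⟩

theorem Lens.lo_mono {m m' : ℕ} (h : m ≤ m') (h2 : m' ≤ M) : L.lo m ≤ L.lo m' := by
  induction m', h using Nat.le_induction with
  | base => exact le_rfl
  | succ n hmn ih => exact le_trans (ih (by omega)) (LensL_lo_succ L h2)

theorem Lens.lo_pos {m : ℕ} (h1 : 1 ≤ m) (h2 : m ≤ M) : 1 ≤ L.lo m := by
  have h3 := L.lo_mono h1 h2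
  rw [L.lo_one] at h3
  exact h3

theorem Lens.ratioM {c : ℕ} (h : c + 1 ≤ M) : M * L.lo c ≤ (M - 1) * L.lo (c + 1) := by
  have h1 := L.ratio c h
  have h2 : M * c ≤ (M - 1) * (c + 1) := by
    obtain ⟨k, rfl⟩ : ∃ k, M = k + 1 := ⟨M - 1, by omega⟩
    rw [Nat.add_sub_cancel]
    have : c ≤ k := by omega
    nlinarith
  have h3 : (c + 1) * (M * L.lo c) ≤ (c + 1) * ((M - 1) * L.lo (c + 1)) := by
    calc (c + 1) * (M * L.lo c) = M * ((c + 1) * L.lo c) := by ring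
      _ ≤ M * (c * L.lo (c + 1)) := Nat.mul_le_mul_left _ h1
      _ = M * c * L.lo (c + 1) := by ring
      _ ≤ (M - 1) * (c + 1) * L.lo (c + 1) := Nat.mul_le_mul_right _ h2
      _ = (c + 1) * ((M - 1) * L.lo (c + 1)) := by ring
  exact Nat.le_of_mul_le_mul_left h3 (Nat.succ_pos c)

theorem Lens.hi_zero : L.hi 0 = 0 := by
  unfold Lens.hi
  simp

theorem Lens.hi_succ (m : ℕ) : L.hi (m + 1) = L.hi m + L.lo (m + 1) := by
  unfold Lens.hi
  rw [Finset.sum_range_succ]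

theorem Lens.hi_one : L.hi 1 = 1 := by
  rw [L.hi_succ 0, L.hi_zero, zero_add, zero_add, L.lo_one]

theorem Lens.hi_mono {m m' : ℕ} (h : m ≤ m') : L.hi m ≤ L.hi m' := by
  induction m', h using Nat.le_induction with
  | base => exact le_rfl
  | succ n _ ih =>
    rw [L.hi_succ]
    exact le_trans ih (Nat.le_add_right _ _)

theorem Lens.hi_pos {m : ℕ} (h : 1 ≤ m) : 1 ≤ L.hi m := by
  have h1 := L.hi_mono h
  rw [L.hi_one] at h1
  exact h1

theorem Lens.lo_le_hi (m : ℕ) : L.lo m ≤ L.hi m := by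
  cases m with
  | zero => rw [L.lo_zero]; exact Nat.zero_le _
  | succ k =>
    rw [L.hi_succ]
    exact Nat.le_add_left _ _

theorem Lens.hi_le {m : ℕ} (h : m ≤ M) : L.hi m ≤ m * L.lo m := by
  unfold Lens.hi
  calc ∑ i ∈ range m, L.lo (i + 1) ≤ ∑ i ∈ range m, L.lo m := by
        refine Finset.sum_le_sum fun i hi => ?_
        have h1 := Finset.mem_range.1 hi
        exact L.lo_mono (by omega) h
    _ = m * L.lo m := by rw [Finset.sum_const, Finset.card_range, smul_eq_mul]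

theorem trT_add (S T : Multiset (ℕ × ℕ)) : trT L (S + T) = trT L S + trT L T := by
  unfold trT
  rw [Multiset.map_add, Multiset.sum_add]

theorem flT_add (S T : Multiset (ℕ × ℕ)) : flT L (S + T) = flT L S + flT L T := by
  unfold flT
  rw [Multiset.map_add, Multiset.sum_add]

theorem trT_mono {S T : Multiset (ℕ × ℕ)} (h : S ≤ T) : trT L S ≤ trT L T := by
  obtain ⟨U, rfl⟩ := Multiset.le_iff_exists_add.1 h
  rw [trT_add]
  exact Nat.le_add_right _ _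

private theorem LensL_trT_cons (x : ℕ × ℕ) (S : Multiset (ℕ × ℕ)) :
    trT L (x ::ₘ S) = L.lo x.1 + trT L S := by
  unfold trT
  rw [Multiset.map_cons, Multiset.sum_cons]

private theorem LensL_flT_cons (x : ℕ × ℕ) (S : Multiset (ℕ × ℕ)) :
    flT L (x ::ₘ S) = (L.hi x.1 + 1 - x.2) + flT L S := by
  unfold flT
  rw [Multiset.map_cons, Multiset.sum_cons]

theorem trT_shf (S : Multiset (ℕ × ℕ)) (hS : ∀ x ∈ S, 1 ≤ x.2 ∧ x.2 ≤ 2 ∧ x.2 ≤ x.1 ∧ x.1 ≤ M) :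
    M * trT L (shf S) ≤ (M - 1) * trT L S := by
  induction S using Multiset.induction_on with
  | empty => simp [LensL_shf_zero, trT]
  | cons x S ih =>
    have ih' := ih fun y hy => hS y (Multiset.mem_cons_of_mem hy)
    have hx := hS x (Multiset.mem_cons_self x S)
    rw [LensL_shf_cons, LensL_trT_cons]
    by_cases h : x.2 ≤ x.1 - 1
    · rw [if_pos h, LensL_trT_cons]
      have h3 := L.ratioM (c := x.1 - 1) (by omega)
      have h4 : x.1 - 1 + 1 = x.1 := by omega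
      rw [h4] at h3
      rw [Nat.mul_add, Nat.mul_add]
      exact Nat.add_le_add h3 ih'
    · rw [if_neg h, Nat.mul_add]
      exact le_trans ih' (Nat.le_add_left _ _)

theorem flT_shf (S : Multiset (ℕ × ℕ)) (hS : ∀ x ∈ S, 1 ≤ x.2 ∧ x.2 ≤ 2 ∧ x.2 ≤ x.1 ∧ x.1 ≤ M) :
    flT L S = flT L (shf S) + trT L S := by
  induction S using Multiset.induction_on with
  | empty => simp [LensL_shf_zero, trT, flT]
  | cons x S ih =>
    have ih' := ih fun y hy => hS y (Multiset.mem_cons_of_mem hy)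
    obtain ⟨hx1, hx2, hx3, hx4⟩ := hS x (Multiset.mem_cons_self x S)
    have h5 := L.hi_succ (x.1 - 1)
    have h4 : x.1 - 1 + 1 = x.1 := by omega
    rw [h4] at h5
    have h6 := L.lo_pos (m := x.1) (by omega) hx4
    rw [LensL_shf_cons, LensL_trT_cons, LensL_flT_cons, ih']
    by_cases h : x.2 ≤ x.1 - 1
    · rw [if_pos h, LensL_flT_cons]
      have h7 := L.hi_pos (m := x.1 - 1) (by omega)
      change L.hi x.1 + 1 - x.2 + (flT L (shf S) + trT L S) =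
        L.hi (x.1 - 1) + 1 - x.2 + flT L (shf S) + (L.lo x.1 + trT L S)
      omega
    · rw [if_neg h]
      have h8 : L.hi (x.1 - 1) = x.2 - 1 := by
        have h9 : x.1 = x.2 := by omega
        rw [h9]
        have h10 : x.2 = 1 ∨ x.2 = 2 := by omega
        rcases h10 with h10 | h10
        · rw [h10]
          exact L.hi_zero
        · rw [h10]
          exact L.hi_one
      omega

theorem flT_le (S : Multiset (ℕ × ℕ)) (hS : ∀ x ∈ S, 1 ≤ x.2 ∧ x.2 ≤ 2 ∧ x.2 ≤ x.1 ∧ x.1 ≤ M) :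
    flT L S ≤ M * trT L S := by
  induction S using Multiset.induction_on with
  | empty => simp [trT, flT]
  | cons x S ih =>
    have ih' := ih fun y hy => hS y (Multiset.mem_cons_of_mem hy)
    obtain ⟨hx1, hx2, hx3, hx4⟩ := hS x (Multiset.mem_cons_self x S)
    rw [LensL_trT_cons, LensL_flT_cons, Nat.mul_add]
    refine Nat.add_le_add ?_ ih'
    have h1 := L.hi_le hx4
    have h2 : x.1 * L.lo x.1 ≤ M * L.lo x.1 := Nat.mul_le_mul_right _ hx4
    omega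

theorem shf_ok {S : Multiset (ℕ × ℕ)} (hS : ∀ x ∈ S, 1 ≤ x.2 ∧ x.2 ≤ 2 ∧ x.2 ≤ x.1 ∧ x.1 ≤ M) :
    ∀ x ∈ shf S, 1 ≤ x.2 ∧ x.2 ≤ 2 ∧ x.2 ≤ x.1 ∧ x.1 ≤ M := by
  intro x hx
  obtain ⟨y, hy, rfl, h⟩ := LensL_mem_shf hx
  obtain ⟨h1, h2, h3, h4⟩ := hS y hy
  refine ⟨h1, h2, h, ?_⟩
  change y.1 - 1 ≤ M
  omega

private theorem LensL_shf_iterate {S : Multiset (ℕ × ℕ)}
    (hS : ∀ x ∈ S, 1 ≤ x.2 ∧ x.2 ≤ 2 ∧ x.2 ≤ x.1 ∧ x.1 ≤ M) (k : ℕ) :
    ∀ x ∈ shf^[k] S, 1 ≤ x.2 ∧ x.2 ≤ x.1 ∧ x.1 + k ≤ M := by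
  induction k with
  | zero =>
    intro x hx
    have h := hS x hx
    exact ⟨h.1, h.2.2.1, h.2.2.2⟩
  | succ k ih =>
    intro x hx
    rw [Function.iterate_succ_apply'] at hx
    obtain ⟨y, hy, rfl, h⟩ := LensL_mem_shf hx
    obtain ⟨h1, h2, h3⟩ := ih y hy
    refine ⟨h1, h, ?_⟩
    change y.1 - 1 + (k + 1) ≤ M
    omega

theorem shf_iterate {S : Multiset (ℕ × ℕ)}
    (hS : ∀ x ∈ S, 1 ≤ x.2 ∧ x.2 ≤ 2 ∧ x.2 ≤ x.1 ∧ x.1 ≤ M) : shf^[M] S = 0 := by
  rw [Multiset.eq_zero_iff_forall_notMem]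
  intro x hx
  obtain ⟨h1, h2, h3⟩ := LensL_shf_iterate hS M x hx
  omega

end Pool.Agent.H18.Tj
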