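import Mathlib

/-!
# Module T4 (TJ): distribution of the simple points

`β s` are the sizes of the layers, `L s` the loads by the points of multiplicity at least two (total
`∑ L`), `x` the number of simple points; `N = ∑ β ≤ ∑ L + x ≤ N + V`.

Proof.  Put `xs s = β s - L s` for `s ≥ 1` and `xs 0 = x - ∑_{s ≥ 1} xs s`.  Claim: `x ≤ 2 ℓ (β s - L s)` (in `ℤ`) for all
`s < ℓ`.  `ℓ β s ≥ N - ℓ Δ` and with `δ = ℓ L s - ∑ L`, `δ² ≤ k ℓ³ V²`, `k ≤ ∑ L ≤ N + V`: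
`2 ℓ (β s - L s) ≥ 2 (N - ∑ L) - 2 ℓ Δ - 2 δ ≥ 2 x - 2 V - 2 ℓ Δ - 2 δ`.  If this is `< x` then `x < 2 (V + ℓ Δ + |δ|)`,
`x² < 12 (V² + ℓ² Δ² + δ²) ≤ Z (N + 1)`, a contradiction (`Z ≥ 12 (V² + θ² Δ² + (1 + V) θ³ V²)`,
`N + V ≤ (N + 1) (1 + V)`).  So all `xs s ≥ 0` are well defined, `xs 0 ≥ β 0 - L 0` as `N ≤ ∑ L + x`, and
`K' (β s + 1) ≤ K' (N + 1)`, `4 ℓ² K' (N + 1) ≤ x² ≤ 4 ℓ² (xs s)²`.
-/

namespace Pool.Agent.H18.Tj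

open Finset

/-- The constant. -/
def zT (q θ V : ℕ) : ℕ :=
  12 * (V ^ 2 + θ ^ 2 * (θ ^ (q + 1)) ^ 2 + (1 + V) * (θ ^ 3 * V ^ 2))

private theorem Load_claim (q θ V ℓ k x N Λ b l : ℕ) (hθ : ℓ ≤ θ)
    (hb : N ≤ ℓ * (b + θ ^ (q + 1)))
    (hsum2 : Λ + x ≤ N + V) (hk : k ≤ Λ)
    (hdev : ((ℓ : ℤ) * (l : ℤ) - (Λ : ℤ)) ^ 2 ≤ (k : ℤ) * (ℓ : ℤ) ^ 3 * (V : ℤ) ^ 2)
    (hx1 : zT q θ V * (N + 1) ≤ x ^ 2) :
    (x : ℤ) ≤ 2 * ℓ * ((b : ℤ) - l) := by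
  by_contra hcon
  push Not at hcon
  obtain ⟨T, hT⟩ : ∃ T : ℕ, T = θ ^ (q + 1) := ⟨_, rfl⟩
  rw [← hT] at hb
  have hx1' : ((12 * (V ^ 2 + θ ^ 2 * T ^ 2 + (1 + V) * (θ ^ 3 * V ^ 2)) : ℕ) : ℤ) * ((N : ℤ) + 1)
      ≤ (x : ℤ) ^ 2 := by
    have : zT q θ V = 12 * (V ^ 2 + θ ^ 2 * T ^ 2 + (1 + V) * (θ ^ 3 * V ^ 2)) := by
      rw [hT]; rfl
    rw [this] at hx1
    exact_mod_cast hx1
  push_cast at hx1'
  obtain ⟨d, hd⟩ : ∃ d : ℤ, d = |(ℓ : ℤ) * (l : ℤ) - (Λ : ℤ)| := ⟨_, rfl⟩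
  have hd0 : 0 ≤ d := by rw [hd]; exact abs_nonneg _
  have hd1 : (ℓ : ℤ) * (l : ℤ) - (Λ : ℤ) ≤ d := by rw [hd]; exact le_abs_self _
  have hd2 : d ^ 2 ≤ (k : ℤ) * (ℓ : ℤ) ^ 3 * (V : ℤ) ^ 2 := by rw [hd, sq_abs]; exact hdev
  have hb' : (N : ℤ) ≤ ℓ * (b + T) := by exact_mod_cast hb
  have hs' : (Λ : ℤ) + x ≤ N + V := by exact_mod_cast hsum2
  have hk' : (k : ℤ) ≤ N + V := by
    have : k ≤ N + V := by omega
    exact_mod_cast this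
  have hθ' : (ℓ : ℤ) ≤ θ := by exact_mod_cast hθ
  have h1 : (x : ℤ) < 2 * (V + ℓ * T + d) := by nlinarith
  have hx0 : (0 : ℤ) ≤ x := by positivity
  have hl0 : (0 : ℤ) ≤ ℓ := by positivity
  have hV0 : (0 : ℤ) ≤ V := by positivity
  have hT0 : (0 : ℤ) ≤ T := by positivity
  have hN0 : (0 : ℤ) ≤ N := by positivity
  have hθ0 : (0 : ℤ) ≤ θ := by positivity
  have h2 : (x : ℤ) ^ 2 < (2 * (V + ℓ * T + d)) ^ 2 := by
    have := mul_self_lt_mul_self hx0 h1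
    nlinarith
  have h3 : (2 * ((V : ℤ) + ℓ * T + d)) ^ 2 ≤ 12 * (V ^ 2 + (ℓ * T) ^ 2 + d ^ 2) := by
    nlinarith [sq_nonneg ((V : ℤ) - ℓ * T), sq_nonneg ((V : ℤ) - d), sq_nonneg ((ℓ : ℤ) * T - d)]
  have h4 : ((ℓ : ℤ) * T) ^ 2 ≤ θ ^ 2 * T ^ 2 := by
    rw [mul_pow]
    exact mul_le_mul_of_nonneg_right (pow_le_pow_left₀ hl0 hθ' 2) (by positivity)
  have h5 : (k : ℤ) * (ℓ : ℤ) ^ 3 * (V : ℤ) ^ 2 ≤ ((N : ℤ) + V) * (θ ^ 3 * V ^ 2) := by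
    have e1 : (ℓ : ℤ) ^ 3 ≤ θ ^ 3 := pow_le_pow_left₀ hl0 hθ' 3
    have e2 : (ℓ : ℤ) ^ 3 * V ^ 2 ≤ θ ^ 3 * V ^ 2 := mul_le_mul_of_nonneg_right e1 (by positivity)
    rw [mul_assoc]
    exact mul_le_mul hk' e2 (by positivity) (by positivity)
  have h6 : (V : ℤ) ^ 2 + θ ^ 2 * T ^ 2 ≤ (V ^ 2 + θ ^ 2 * T ^ 2) * (N + 1) := by
    have : (0 : ℤ) ≤ (V ^ 2 + θ ^ 2 * T ^ 2) * N := by positivity
    linarith
  have h7 : ((N : ℤ) + V) * (θ ^ 3 * V ^ 2) ≤ (1 + V) * (θ ^ 3 * V ^ 2) * (N + 1) := by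
    have : (0 : ℤ) ≤ (θ ^ 3 * V ^ 2) * (1 + V * N) := by positivity
    nlinarith
  nlinarith

theorem distribute (q θ V ℓ k K' x : ℕ) (hℓ : 1 ≤ ℓ) (hθ : ℓ ≤ θ) (β L : ℕ → ℕ)
    (hβ : ∀ s < ℓ, ∀ t < ℓ, β s ≤ β t + θ ^ (q + 1))
    (hsum1 : ∑ s ∈ range ℓ, β s ≤ ∑ s ∈ range ℓ, L s + x)
    (hsum2 : ∑ s ∈ range ℓ, L s + x ≤ ∑ s ∈ range ℓ, β s + V)
    (hk : k ≤ ∑ s ∈ range ℓ, L s)
    (hdev : ∑ s ∈ range ℓ, ((ℓ : ℤ) * (L s : ℤ) - ∑ t ∈ range ℓ, (L t : ℤ)) ^ 2 ≤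
      (k : ℤ) * (ℓ : ℤ) ^ 3 * (V : ℤ) ^ 2)
    (hx1 : zT q θ V * (∑ s ∈ range ℓ, β s + 1) ≤ x ^ 2)
    (hx2 : 4 * θ ^ 2 * K' * (∑ s ∈ range ℓ, β s + 1) ≤ x ^ 2) :
    ∃ xs : ℕ → ℕ, ∑ s ∈ range ℓ, xs s = x ∧ (∀ s < ℓ, β s ≤ L s + xs s) ∧
      ∀ s < ℓ, K' * (β s + 1) ≤ xs s ^ 2 := by
  have claim : ∀ s < ℓ, (x : ℤ) ≤ 2 * ℓ * ((β s : ℤ) - L s) := by
    intro s hs
    refine Load_claim q θ V ℓ k x (∑ s ∈ range ℓ, β s) (∑ s ∈ range ℓ, L s) (β s) (L s) hθ ?_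
      hsum2 hk ?_ hx1
    · calc ∑ t ∈ range ℓ, β t ≤ ∑ _t ∈ range ℓ, (β s + θ ^ (q + 1)) :=
            sum_le_sum fun t ht => hβ t (mem_range.1 ht) s hs
        _ = ℓ * (β s + θ ^ (q + 1)) := by rw [sum_const, card_range, smul_eq_mul]
    · refine le_trans ?_ hdev
      have := single_le_sum (f := fun s => ((ℓ : ℤ) * (L s : ℤ) - ∑ t ∈ range ℓ, (L t : ℤ)) ^ 2)
        (fun i _ => sq_nonneg _) (mem_range.2 hs)
      push_cast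
      exact this
  have hℓ0 : (0 : ℤ) < ℓ := by exact_mod_cast hℓ
  have hle : ∀ s < ℓ, L s ≤ β s := by
    intro s hs
    have h1 := claim s hs
    have h2 : (0 : ℤ) ≤ 2 * ℓ * ((β s : ℤ) - L s) := le_trans (by positivity) h1
    have h3 : (0 : ℤ) ≤ (β s : ℤ) - L s := by
      by_contra h
      push Not at h
      have : 2 * (ℓ : ℤ) * ((β s : ℤ) - L s) < 0 := mul_neg_of_pos_of_neg (by linarith) h
      linarith
    omega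
  obtain ⟨m, rfl⟩ : ∃ m, ℓ = m + 1 := ⟨ℓ - 1, by omega⟩
  have hs1 : ∑ s ∈ range (m + 1), β s = ∑ s ∈ range (m + 1), (β s - L s) +
      ∑ s ∈ range (m + 1), L s := by
    rw [← sum_add_distrib]
    exact sum_congr rfl fun s hs => (Nat.sub_add_cancel (hle s (mem_range.1 hs))).symm
  have hs2 : ∑ s ∈ range (m + 1), (β s - L s) ≤ x := by omega
  rw [sum_range_succ'] at hs2
  refine ⟨fun s => if s = 0 then x - ∑ t ∈ range m, (β (t + 1) - L (t + 1)) else β s - L s,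
    ?_, ?_, ?_⟩
  · rw [sum_range_succ']
    simp only [Nat.add_eq_zero_iff, one_ne_zero, and_false, if_false, if_true]
    omega
  · intro s hs
    rcases Nat.eq_zero_or_pos s with h0 | h0
    · subst h0
      simp only [if_true]
      omega
    · simp only [h0.ne', if_false]
      have := hle s hs
      omega
  · intro s hs
    have h1 : ∃ y : ℕ, β s - L s ≤ y ∧ (if s = 0 then x - ∑ t ∈ range m, (β (t + 1) - L (t + 1))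
        else β s - L s) = y := by
      refine ⟨_, ?_, rfl⟩
      rcases Nat.eq_zero_or_pos s with h0 | h0
      · subst h0
        simp only [if_true]
        omega
      · simp only [h0.ne', if_false, le_refl]
    obtain ⟨y, hy, h2⟩ := h1
    show K' * (β s + 1) ≤ (if s = 0 then x - ∑ t ∈ range m, (β (t + 1) - L (t + 1))
        else β s - L s) ^ 2
    rw [h2]
    have h3 := claim s hs
    have h4 : (x : ℤ) ≤ ((2 * (m + 1) * y : ℕ) : ℤ) := by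
      refine h3.trans ?_
      push_cast
      have h5 : (β s : ℤ) - L s ≤ y := by
        have := hle s hs
        omega
      have h6 : (0 : ℤ) ≤ 2 * ((m : ℤ) + 1) := by positivity
      exact mul_le_mul_of_nonneg_left h5 h6
    have h5 : x ≤ 2 * (m + 1) * y := by exact_mod_cast h4
    have h6 : x ^ 2 ≤ (2 * (m + 1) * y) ^ 2 := Nat.pow_le_pow_left h5 2
    have h7 : β s ≤ ∑ s ∈ range (m + 1), β s :=
      single_le_sum (f := β) (fun i _ => Nat.zero_le _) (mem_range.2 hs)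
    have h8 : 4 * (m + 1) ^ 2 * K' * (β s + 1) ≤
        4 * θ ^ 2 * K' * (∑ s ∈ range (m + 1), β s + 1) := by
      refine Nat.mul_le_mul (Nat.mul_le_mul_right _ (Nat.mul_le_mul_left _ ?_)) (by omega)
      exact Nat.pow_le_pow_left hθ 2
    have h9 : 4 * (m + 1) ^ 2 * (K' * (β s + 1)) ≤ 4 * (m + 1) ^ 2 * y ^ 2 := by
      calc 4 * (m + 1) ^ 2 * (K' * (β s + 1)) = 4 * (m + 1) ^ 2 * K' * (β s + 1) := by ring
        _ ≤ x ^ 2 := h8.trans hx2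
        _ ≤ (2 * (m + 1) * y) ^ 2 := h6
        _ = 4 * (m + 1) ^ 2 * y ^ 2 := by ring
    exact Nat.le_of_mul_le_mul_left h9 (by positivity)

end Pool.Agent.H18.Tj
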