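import Pool.Agent.H18.Tj.CntL

/-!
# Module C2a (TJ): the numbers `Lx w m`

(`Lx_ratio`, `Lx_convex` are in LxR.)
* `Lx_layer`: `cnt_layer` (for `m ≥ 1`; the terms with `t ≥ m` are `Lx _ 0 = 0`).
* `Lx_sum`: `Lx_layer` with `w l + 1 ≥ m`: `∑_{t < m} Lx w' (m - t)`, reflect the sum.
* `Lx_ratio` (`h`, `c` both of width `≥ M`): with `p_j` the number of the `γ ≤ w`, `γ_h = γ_c = 0`, `|γ| = j`:
  `Lx w m = ∑_{j < m} (m - j) p_j` for `m ≤ M + 1`; `(m + 1) (m - j) ≤ m (m + 1 - j)`.  (Alternatively: double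
  counting; or apply `Lx_layer` twice: `Lx w m = ∑_{t < m} ∑_{s < m - t} Lx w'' (m - t - s)`.)
* `Lx_mono`, `Lx_convex` (same hypotheses): `Lx w (m + 1) - Lx w m = #{b : b h = 0, |b| = m, b ≤ w} =: g_m` for
  `m ≤ M`, and `g_m ≤ g_{m+1}` for `m + 1 ≤ M` by `b ↦ b + e_c`.
* `Lx_two`: only `h`, `c` are active.
-/

namespace Pool.Agent.H18.Tj

open Finset Function Pool.Agent.H18.Ex

variable {ι : Type} [Fintype ι] [DecidableEq ι]

theorem Lx_zero (w : ι → ℕ) : Lx w 0 = 0 := by
  simp [Lx]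

private lemma LxA_succ (w : ι → ℕ) (k : ℕ) : Lx w (k + 1) = (Rg k w).card := by
  simp [Lx]

theorem Lx_one (w : ι → ℕ) : Lx w 1 = 1 := by
  rw [show (1 : ℕ) = 0 + 1 from rfl, LxA_succ, Finset.card_eq_one]
  refine ⟨fun _ => 0, ?_⟩
  ext a
  rw [mem_Rg, mem_singleton]
  constructor
  · rintro ⟨-, h⟩
    funext i
    exact (Finset.sum_eq_zero_iff.mp h) i (mem_univ i)
  · rintro rfl
    exact ⟨fun i => Nat.zero_le _, by simp⟩

theorem Lx_layer (y : ι) (w : ι → ℕ) (m : ℕ) :
    Lx w m = ∑ t ∈ range (w y + 1), Lx (update w y 0) (m - t) := by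
  rcases m with _ | k
  · rw [Lx_zero]
    symm
    apply Finset.sum_eq_zero
    intro t _
    rw [Nat.zero_sub, Lx_zero]
  · rw [LxA_succ, cnt_layer y k w, Finset.sum_filter]
    apply Finset.sum_congr rfl
    intro t _
    split_ifs with h
    · rw [show k + 1 - t = (k - t) + 1 by omega, LxA_succ]
    · rw [show k + 1 - t = 0 by omega, Lx_zero]

theorem Lx_sum (l : ι) (w : ι → ℕ) (m : ℕ) (hm : m ≤ w l + 1) :
    ∑ i ∈ range m, Lx (update w l 0) (i + 1) = Lx w m := by
  rw [Lx_layer l w m, ← Finset.sum_range_reflect]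
  have h1 : ∑ t ∈ range (w l + 1), Lx (update w l 0) (m - t) =
      ∑ t ∈ range m, Lx (update w l 0) (m - t) := by
    symm
    apply Finset.sum_subset
    · intro t ht
      rw [mem_range] at ht ⊢
      omega
    · intro t _ ht
      rw [mem_range, not_lt] at ht
      rw [show m - t = 0 by omega, Lx_zero]
  rw [h1]
  apply Finset.sum_congr rfl
  intro t ht
  rw [mem_range] at ht
  congr 1
  omega

theorem Lx_mono {h : ι} {w : ι → ℕ} {M m m' : ℕ} (hh : M ≤ w h) (hm : m ≤ m') (hM : m' ≤ M) :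
    Lx w m ≤ Lx w m' := by
  rcases m with _ | k
  · rw [Lx_zero]
    exact Nat.zero_le _
  · obtain ⟨k', rfl⟩ : ∃ k', m' = k' + 1 := ⟨m' - 1, by omega⟩
    rw [LxA_succ, LxA_succ]
    exact cnt_mono (h := h) (by omega) (by omega)

theorem Lx_pos {w : ι → ℕ} {h : ι} {m : ℕ} (hm : 1 ≤ m) (hh : m ≤ w h) : 1 ≤ Lx w m := by
  rw [← Lx_one w]
  exact Lx_mono hh hm le_rfl

theorem Lx_le_pow {w : ι → ℕ} {q M m : ℕ} (hq : Fintype.card ι ≤ q) (hι : Nonempty ι)
    (hm : m ≤ M) (hM : 1 ≤ M) : Lx w m ≤ M ^ q := by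
  rcases m with _ | k
  · rw [Lx_zero]
    exact Nat.zero_le _
  · rw [LxA_succ]
    exact (cnt_le_pow hq).trans (Nat.pow_le_pow_left hm q)

private lemma LxA_single {h : ι} {w : ι → ℕ} (h0 : ∀ i, i ≠ h → w i = 0) {k : ℕ}
    (hh : k ≤ w h) : (Rg k w).card = 1 := by
  rw [Finset.card_eq_one]
  refine ⟨update (fun _ => 0) h k, ?_⟩
  ext a
  rw [mem_Rg, mem_singleton]
  constructor
  · rintro ⟨ha, hs⟩
    have hz : ∀ i, i ≠ h → a i = 0 := fun i hi => Nat.le_zero.mp (h0 i hi ▸ ha i)
    have hs' : ∑ i, a i = a h := Finset.sum_eq_single h (fun i _ hi => hz i hi)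
      (fun hn => absurd (mem_univ h) hn)
    funext i
    by_cases hi : i = h
    · subst hi
      rw [update_self, ← hs', hs]
    · rw [update_of_ne hi, hz i hi]
  · rintro rfl
    constructor
    · intro i
      by_cases hi : i = h
      · subst hi
        rw [update_self]
        exact hh
      · rw [update_of_ne hi]
        exact Nat.zero_le _
    · rw [Finset.sum_eq_single h (fun i _ hi => update_of_ne hi _ _)
        (fun hn => absurd (mem_univ h) hn), update_self]

theorem Lx_two {h c : ι} (hhc : h ≠ c) {w : ι → ℕ} (h0 : ∀ i, i ≠ h → i ≠ c → w i = 0) {m : ℕ}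
    (hh : m ≤ w h) (hc : m ≤ w c) : Lx w m = m := by
  rcases m with _ | k
  · exact Lx_zero w
  · have key : ∀ t ∈ range (w c + 1), Lx (update w c 0) (k + 1 - t) =
        if t < k + 1 then 1 else 0 := by
      intro t _
      split_ifs with ht
      · rw [show k + 1 - t = (k - t) + 1 by omega, LxA_succ]
        apply LxA_single (h := h)
        · intro i hi
          by_cases hic : i = c
          · subst hic
            rw [update_self]
          · rw [update_of_ne hic]
            exact h0 i hi hic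
        · rw [update_of_ne hhc]
          omega
      · rw [show k + 1 - t = 0 by omega, Lx_zero]
    rw [Lx_layer c w (k + 1), Finset.sum_congr rfl key, ← Finset.sum_filter,
      Finset.sum_const, smul_eq_mul, mul_one]
    have : (range (w c + 1)).filter (fun t => t < k + 1) = range (k + 1) := by
      ext t
      rw [mem_filter, mem_range, mem_range]
      omega
    rw [this, card_range]

end Pool.Agent.H18.Tj
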