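import Pool.Agent.H18.Tj.LxR
import Pool.Agent.H18.Tj.LensL

/-!
# Module C2c (TJ), the lens: the numbers `Lx w m`

* `Lx_layer`: `cnt_layer` (for `m ≥ 1`; the terms with `t ≥ m` are `Lx _ 0 = 0`).
* `Lx_sum`: `Lx_layer` with `w l + 1 ≥ m`: `∑_{t < m} Lx w' (m - t)`, reflect the sum.
* `Lx_ratio` (`h`, `c` both of width `≥ M`): with `p_j` the number of the `γ ≤ w`, `γ_h = γ_c = 0`, `|γ| = j`:
  `Lx w m = ∑_{j < m} (m - j) p_j` for `m ≤ M + 1`; `(m + 1) (m - j) ≤ m (m + 1 - j)`.  (Alternatively: double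
  counting; or apply `Lx_layer` twice: `Lx w m = ∑_{t < m} ∑_{s < m - t} Lx w'' (m - t - s)`.)
* `Lx_mono`, `Lx_convex` (same hypotheses): `Lx w (m + 1) - Lx w m = #{b : b h = 0, |b| = m, b ≤ w} =: g_m` for
  `m ≤ M`, and `g_m ≤ g_{m+1}` for `m + 1 ≤ M` by `b ↦ b + e_c`.
* `Lx_two`: only `h`, `c` are active.
-/

namespace Pool.Agent.H18.Tj

open Finset Function Pool.Agent.H18.Ex

variable {ι : Type} [Fintype ι] [DecidableEq ι]

/-- The lengths of the traces. -/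
noncomputable def lensOf (M : ℕ) (w : ι → ℕ) (h c : ι) (hhc : h ≠ c) (hh : M ≤ w h)
    (hc : M ≤ w c) : Lens M where
  lo := Lx w
  lo_zero := Lx_zero w
  lo_one := Lx_one w
  ratio := fun m hm => Lx_ratio hhc hh hc m hm

private theorem LxL_le {q M : ℕ} (hM : 1 ≤ M) (hq : Fintype.card ι ≤ q) (w : ι → ℕ) {m : ℕ}
    (hm : m ≤ M) : Lx w m ≤ M ^ q := by
  unfold Lx
  split_ifs with h0
  · exact Nat.zero_le _
  · have h1 : Rg (m - 1) w ⊆ Fintype.piFinset fun _ : ι => range M := by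
      intro a ha
      rw [mem_Rg] at ha
      rw [Fintype.mem_piFinset]
      intro i
      have h2 : a i ≤ ∑ j, a j := Finset.single_le_sum (fun j _ => Nat.zero_le (a j)) (mem_univ i)
      have := ha.2
      rw [mem_range]
      omega
    calc (Rg (m - 1) w).card ≤ (Fintype.piFinset fun _ : ι => range M).card := card_le_card h1
      _ = M ^ Fintype.card ι := by
        rw [Fintype.card_piFinset, prod_const, card_range, card_univ]
      _ ≤ M ^ q := Nat.pow_le_pow_right hM hq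

/-- The constant `cE` is at most `cQ`. -/
theorem cE_le {q M : ℕ} (hM : 1 ≤ M) (hq : Fintype.card ι ≤ q) (w : ι → ℕ) (h c : ι) (hhc : h ≠ c)
    (hh : M ≤ w h) (hc : M ≤ w c) : cE (lensOf M w h c hhc hh hc) ≤ cQ q M := by
  have h1 : Lx w M ≤ M ^ q := LxL_le hM hq w le_rfl
  have h2 : ∑ i ∈ range M, Lx w (i + 1) ≤ M ^ (q + 1) := by
    calc ∑ i ∈ range M, Lx w (i + 1) ≤ ∑ _i ∈ range M, M ^ q :=
          sum_le_sum fun i hi => LxL_le hM hq w (mem_range.1 hi)
      _ = M ^ (q + 1) := by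
        rw [sum_const, card_range, smul_eq_mul, pow_succ, mul_comm]
  change 64 * M * (M + 1) * (Lx w M + 1) ^ 2 * (∑ i ∈ range M, Lx w (i + 1) + 1) ≤
    64 * M * (M + 1) * (M ^ q + 1) ^ 2 * (M ^ (q + 1) + 1)
  gcongr

end Pool.Agent.H18.Tj
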