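import Pool.Agent.H18.Tj.LxA

/-!
# Module C2b (TJ): the numbers `Lx w m`

* `Lx_layer`: `cnt_layer` (for `m ≥ 1`; the terms with `t ≥ m` are `Lx _ 0 = 0`).
* `Lx_sum`: `Lx_layer` with `w l + 1 ≥ m`: `∑_{t < m} Lx w' (m - t)`, reflect the sum.
* `Lx_ratio` (`h`, `c` both of width `≥ M`): with `p_j` the number of the `γ ≤ w`, `γ_h = γ_c = 0`, `|γ| = j`:
  `Lx w m = ∑_{j < m} (m - j) p_j` for `m ≤ M + 1`; `(m + 1) (m - j) ≤ m (m + 1 - j)`.  (Alternatively: double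
  counting; or apply `Lx_layer` twice: `Lx w m = ∑_{t < m} ∑_{s < m - t} Lx w'' (m - t - s)`.)
* `Lx_mono`, `Lx_convex` (same hypotheses): `Lx w (m + 1) - Lx w m = #{b : b h = 0, |b| = m, b ≤ w} =: g_m` for
  `m ≤ M`, and `g_m ≤ g_{m+1}` for `m + 1 ≤ M` by `b ↦ b + e_c`.
* `Lx_two`: only `h`, `c` are active.
-/

namespace Pool.Agent.H18.Tj

open Finset Function Pool.Agent.H18.Ex

variable {ι : Type} [Fintype ι] [DecidableEq ι]

private theorem LxR_sum {h : ι} {w : ι → ℕ} {M : ℕ} (hh : M ≤ w h) (m : ℕ) (hm : m ≤ M) :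
    Lx w m = ∑ i ∈ range m, Lx (update w h 0) (i + 1) :=
  (Lx_sum h w m (by omega)).symm

private theorem LxR_mono {h c : ι} (hhc : h ≠ c) {w : ι → ℕ} {M : ℕ} (hc : M ≤ w c) {m m' : ℕ}
    (hm : m ≤ m') (hM : m' ≤ M) : Lx (update w h 0) m ≤ Lx (update w h 0) m' := by
  apply Lx_mono (h := c) (M := M) _ hm hM
  rw [update_of_ne (Ne.symm hhc)]
  exact hc

theorem Lx_ratio {h c : ι} (hhc : h ≠ c) {w : ι → ℕ} {M : ℕ} (hh : M ≤ w h) (hc : M ≤ w c)
    (m : ℕ) (hm : m + 1 ≤ M) : (m + 1) * Lx w m ≤ m * Lx w (m + 1) := by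
  have h1 := LxR_sum hh m (by omega)
  have h2 := LxR_sum hh (m + 1) hm
  rw [sum_range_succ, ← h1] at h2
  have h3 : Lx w m ≤ m * Lx (update w h 0) (m + 1) := by
    rw [h1]
    calc ∑ i ∈ range m, Lx (update w h 0) (i + 1)
        ≤ ∑ _i ∈ range m, Lx (update w h 0) (m + 1) := by
          apply sum_le_sum
          intro i hi
          rw [mem_range] at hi
          exact LxR_mono hhc hc (by omega) hm
      _ = m * Lx (update w h 0) (m + 1) := by
          rw [sum_const, card_range, smul_eq_mul]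
  rw [h2, Nat.mul_add, Nat.add_mul, Nat.one_mul]
  omega

theorem Lx_convex {h c : ι} (hhc : h ≠ c) {w : ι → ℕ} {M : ℕ} (hh : M ≤ w h) (hc : M ≤ w c)
    (m : ℕ) (hm : m + 2 ≤ M) : 2 * Lx w (m + 1) ≤ Lx w m + Lx w (m + 2) := by
  have h1 := LxR_sum hh m (by omega)
  have h2 := LxR_sum hh (m + 1) (by omega)
  have h3 := LxR_sum hh (m + 1 + 1) (by omega)
  rw [sum_range_succ, ← h1] at h2
  rw [sum_range_succ, sum_range_succ, ← h1] at h3
  have h4 : Lx (update w h 0) (m + 1) ≤ Lx (update w h 0) (m + 1 + 1) :=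
    LxR_mono hhc hc (by omega) hm
  have h5 : Lx w (m + 2) = Lx w (m + 1 + 1) := rfl
  omega

end Pool.Agent.H18.Tj
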