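import Pool.Agent.H18.Tj.PhaseT
import Pool.Agent.H18.Pr.MainN

/-!
# Module M4a (TJ): near-exactness (`exact_of_num` is in MainT)

`of_multiset`: `S` consists of the multiplicities `≥ 2`, ones and zeros (`Y.one`, `Y.mono`).

`near_of_num`: If `R ≤ x` use `Y.full`.  Otherwise drop superfluous points of `S` (`exists_drop` as in
`Pool/Agent/H18/Pr/MainN.lean`): `R kt ≤ ∑ hi + x ≤ R kt + hi M`; write the rest as a configuration `c` with
`c.s ≥ x`, `c.Φ = 0`, `sz = ∑ hi + x`, and apply `endA`: `sz + R (M + 2) ≤ R kt + hi M + R (M + 2) < s + R kt`.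

`exact_of_num`: as `mainN` in `Pool/Agent/H18/Pr/MainN.lean`.  Let `s₀ = R (M + 2) + hi M + 1`,
`F = F kt`, `cE L * s₀ ≤ F`.  Drop superfluous points: `R kt ≤ sz ≤ R kt + hi M`.  If `s₀ ≤ c.s` use `endA`.
Otherwise `(1 + hi M * M) s₀ ≤ F ≤ R kt ≤ sz = ∑ hi + s` gives `M s₀ ≤ card N`, hence (`exists_replicate_le`)
`replicate s₀ μ ≤ N`, `2 ≤ μ ≤ M`.  Step 1 with `I₀ = replicate s₀ μ` (room: `s₀ lo M + F / E + 1 ≤ F`), then
`μ - 2` steps with `I₀ = 0`: at the state `j + 1 = kt - (μ - 1)` the forced conditions are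
`Φ = X + replicate s₀ (1, 1)` (`shf_iterate_replicate`).  `Y.bridge`: (A) `⟨N, s + s₀, X⟩` at the state `j + 1`:
`endA` (`sz` is unchanged); (B) `⟨N, s, shf X⟩` at the state `j`: `sz = sz₂ - tr₂` (`flT_shf`), so the surplus is at
least `F (j + 1) - tr₂ ≥ F (j + 1) / (2 M) ≥ (hi M + M) R (M + 2)` (`F (j + 1) ≥ F kt / 2` by `slow`), and
`2 M tr (shf X) ≤ 2 (M - 1) F (j + 1) ≤ (2 M - 1) F j`: `endB`.
-/

namespace Pool.Agent.H18.Tj

open Finset Pool.Agent.H18.Ex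

variable {M : ℕ} {L : Lens M} {Y : SysL} {E kt : ℕ}

private theorem MainA_split (S : Multiset ℕ) :
    S = (S.filter fun m => 2 ≤ m) + Multiset.replicate (S.count 1) 1 +
      Multiset.replicate (S.count 0) 0 := by
  ext a
  simp only [Multiset.count_add, Multiset.count_filter, Multiset.count_replicate]
  rcases Nat.lt_or_ge a 2 with h | h
  · interval_cases a <;> simp
  · rw [if_pos h, if_neg (by omega), if_neg (by omega)]
    omega

private theorem MainA_sum (L : Lens M) (S : Multiset ℕ) :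
    (S.map L.hi).sum = ((S.filter fun m => 2 ≤ m).map L.hi).sum + S.count 1 := by
  have h := congrArg (fun T : Multiset ℕ => (T.map L.hi).sum) (MainA_split S)
  simp only [Multiset.map_add, Multiset.sum_add, Multiset.map_replicate,
    Multiset.sum_replicate, L.hi_one, L.hi_zero, smul_eq_mul, mul_one, mul_zero, add_zero] at h
  exact h

private theorem MainA_le (S : Multiset ℕ) :
    (S.filter fun m => 2 ≤ m) + Multiset.replicate (S.count 1) 1 ≤ S := by
  conv_rhs => rw [MainA_split S]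
  exact Multiset.le_add_right _ _

private theorem MainA_one (Y : SysL) (k : ℕ) (N : Multiset ℕ) (Φ : Multiset (ℕ × ℕ)) (n : ℕ) :
    ∀ x, Y.K k ⟨N, x + n, Φ⟩ → Y.K k ⟨N + Multiset.replicate n 1, x, Φ⟩ := by
  induction n with
  | zero =>
    intro x h
    simpa using h
  | succ n ih =>
    intro x h
    have h1 := ih (x + 1) (by rwa [show x + 1 + n = x + (n + 1) by omega])
    have h2 := Y.one k _ x Φ h1
    rwa [Multiset.replicate_succ, Multiset.add_cons]

theorem of_multiset (L : Lens M) (Y : SysL) (k : ℕ) (S : Multiset ℕ) (hS : ∀ m ∈ S, m ≤ M)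
    (x : ℕ) : ∃ c : Cf, c.OK M ∧ c.Φ = 0 ∧ x ≤ c.s ∧ c.sz L = (S.map L.hi).sum + x ∧
      (Y.K k c → Y.K k ⟨S, x, 0⟩) := by
  refine ⟨⟨S.filter fun m => 2 ≤ m, x + S.count 1, 0⟩, ⟨?_, ?_⟩, rfl, Nat.le_add_right _ _, ?_, ?_⟩
  · intro m hm
    have hm' := Multiset.mem_filter.1 hm
    exact ⟨hm'.2, hS m hm'.1⟩
  · intro y hy
    exact absurd hy (Multiset.notMem_zero y)
  · have h1 := MainA_sum L S
    have h2 : flT L (0 : Multiset (ℕ × ℕ)) = 0 := by simp [flT]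
    unfold Cf.sz Cf.nsz
    rw [h2, h1]
    simp only
    omega
  · intro h
    have h1 := MainA_one Y k (S.filter fun m => 2 ≤ m) 0 (S.count 1) x h
    refine Y.mono k ⟨(S.filter fun m => 2 ≤ m) + Multiset.replicate (S.count 1) 1, x, 0⟩
      ⟨S, x, 0⟩ (MainA_le S) le_rfl le_rfl h1

theorem near_of_num (H : NumL L Y E kt) (hkt : M + 2 ≤ kt) (S : Multiset ℕ)
    (hS : ∀ m ∈ S, m ≤ M) (x : ℕ) (hx : Y.R (M + 2) + L.hi M + 1 ≤ x)
    (hsum : Y.R kt ≤ (S.map L.hi).sum + x) : Y.K kt ⟨S, x, 0⟩ := by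
  by_cases hR : Y.R kt ≤ x
  · have h1 : Y.K kt ⟨0, x, 0⟩ := Y.full kt 0 x 0 (fun m hm => absurd hm (Multiset.notMem_zero m))
      (by simpa using hR)
    exact Y.mono kt ⟨0, x, 0⟩ ⟨S, x, 0⟩ (Multiset.zero_le _) le_rfl le_rfl h1
  · push Not at hR
    obtain ⟨S₁, hS₁, h1, h2, -⟩ := exists_drop L.hi (L.hi M) (Y.R kt - x) S
      (fun m hm => L.hi_mono (hS m hm)) (by omega)
    obtain ⟨c, hc, hcΦ, hcs, hcsz, hcK⟩ := of_multiset L Y kt S₁
      (fun m hm => hS m (Multiset.mem_of_le hS₁ hm)) x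
    have h3 : Y.K kt c := by
      refine endA H kt hkt le_rfl c hc ?_ ?_ ?_
      · rw [hcΦ]
        simp [trT]
      · rw [hcsz]
        omega
      · rw [hcsz]
        omega
    exact Y.mono kt ⟨S₁, x, 0⟩ ⟨S, x, 0⟩ hS₁ le_rfl le_rfl (hcK h3)

end Pool.Agent.H18.Tj
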