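import Pool.Agent.H18.Tj.MainA

/-!
# Module M4b (TJ): exactness (`of_multiset`, `near_of_num` are in MainA)

`of_multiset`: `S` consists of the multiplicities `≥ 2`, ones and zeros (`Y.one`, `Y.mono`).

`near_of_num`: If `R ≤ x` use `Y.full`.  Otherwise drop superfluous points of `S` (`exists_drop` as in
`Pool/Agent/H18/Pr/MainN.lean`): `R kt ≤ ∑ hi + x ≤ R kt + hi M`; write the rest as a configuration `c` with
`c.s ≥ x`, `c.Φ = 0`, `sz = ∑ hi + x`, and apply `endA`: `sz + R (M + 2) ≤ R kt + hi M + R (M + 2) < s + R kt`.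

`exact_of_num`: as `mainN` in `Pool/Agent/H18/Pr/MainN.lean`.  Let `s₀ = R (M + 2) + hi M + 1`,
`F = F kt`, `cE L * s₀ ≤ F`.  Drop superfluous points: `R kt ≤ sz ≤ R kt + hi M`.  If `s₀ ≤ c.s` use `endA`.
Otherwise `(1 + hi M * M) s₀ ≤ F ≤ R kt ≤ sz = ∑ hi + s` gives `M s₀ ≤ card N`, hence (`exists_replicate_le`)
`replicate s₀ μ ≤ N`, `2 ≤ μ ≤ M`.  Step 1 with `I₀ = replicate s₀ μ` (room: `s₀ lo M + F / E + 1 ≤ F`), then
`μ - 2` steps with `I₀ = 0`: at the state `j + 1 = kt - (μ - 1)` the forced conditions are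
`Φ = X + replicate s₀ (1, 1)` (`shf_iterate_replicate`).  `Y.bridge`: (A) `⟨N, s + s₀, X⟩` at the state `j + 1`:
`endA` (`sz` is unchanged); (B) `⟨N, s, shf X⟩` at the state `j`: `sz = sz₂ - tr₂` (`flT_shf`), so the surplus is at
least `F (j + 1) - tr₂ ≥ F (j + 1) / (2 M) ≥ (hi M + M) R (M + 2)` (`F (j + 1) ≥ F kt / 2` by `slow`), and
`2 M tr (shf X) ≤ 2 (M - 1) F (j + 1) ≤ (2 M - 1) F j`: `endB`.
-/

namespace Pool.Agent.H18.Tj

open Finset Pool.Agent.H18.Ex

variable {M : ℕ} {L : Lens M} {Y : SysL} {E kt : ℕ}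

private theorem MainT_sub (n F : ℕ) (hn : 1 ≤ n) : (n - 1) * F + F = n * F := by
  obtain ⟨m, rfl⟩ := Nat.exists_eq_add_of_le hn
  rw [Nat.add_sub_cancel_left]
  ring

private theorem MainT_mono : Monotone shf := fun _ _ h =>
  Multiset.filter_le_filter _ (Multiset.map_le_map h)

private theorem MainT_trT_zero (L : Lens M) : trT L 0 = 0 := by
  unfold trT
  simp

private theorem MainT_flT_zero (L : Lens M) : flT L 0 = 0 := by
  unfold flT
  simp

private theorem MainT_trT_rep (L : Lens M) (s : ℕ) : trT L (Multiset.replicate s (1, 1)) = s := by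
  unfold trT
  rw [Multiset.map_replicate, Multiset.sum_replicate]
  simp [L.lo_one]

private theorem MainT_flT_rep (L : Lens M) (s : ℕ) : flT L (Multiset.replicate s (1, 1)) = s := by
  unfold flT
  rw [Multiset.map_replicate, Multiset.sum_replicate]
  simp [L.hi_one]

/-- Several steps without distinguished points. -/
private theorem MainT_steps (H : NumL L Y E kt) : ∀ (ν j : ℕ), 1 ≤ j → j + ν ≤ kt → ∀ c : Cf,
    c.OK M → 2 * M * trT L c.Φ ≤ (2 * M - 1) * Y.F (j + ν) → Y.R (j + ν) ≤ c.sz L →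
    ∃ c' : Cf, c'.OK M ∧ (Y.K j c' → Y.K (j + ν) c) ∧
      2 * M * trT L c'.Φ ≤ (2 * M - 1) * Y.F j ∧ Y.R j ≤ c'.sz L ∧
      c'.sz L + Y.R (j + ν) = c.sz L + Y.R j ∧ shf^[ν] c.Φ ≤ c'.Φ := by
  intro ν
  induction ν with
  | zero =>
    intro j _ _ c hc htr hsz
    exact ⟨c, hc, id, htr, hsz, rfl, le_rfl⟩
  | succ ν ih =>
    intro j hj hjk c hc htr hsz
    obtain ⟨c₁, h1, h2, h3, h4, h5, -, -, -, h6, -⟩ := step_inv H (j + ν) (by omega) (by omega) c hc
      htr hsz 0 (Multiset.zero_le _) (by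
        have := room_zero H (j + ν + 1) (by omega) (by omega) (trT L c.Φ) htr
        simpa using this)
    obtain ⟨c₂, g1, g2, g3, g4, g5, g6⟩ := ih j hj (by omega) c₁ h1 h3 h4
    refine ⟨c₂, g1, fun h => h2 (g2 h), g3, g4, ?_, ?_⟩
    · have h7 := Y.count (j + ν)
      have h8 : j + (ν + 1) = j + ν + 1 := rfl
      rw [h8]
      omega
    · rw [Function.iterate_succ_apply]
      refine le_trans (MainT_mono.iterate ν ?_) g6
      exact (Multiset.le_add_right _ _).trans h6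

/-- The traces decrease slowly. -/
private theorem MainT_slow (H : NumL L Y E kt) : ∀ i, i + 1 ≤ kt →
    Y.F (kt - i) ≤ Y.F kt ∧ E * Y.F kt ≤ E * Y.F (kt - i) + i * Y.F kt := by
  intro i
  induction i with
  | zero => intro _; simp
  | succ i ih =>
    intro hi
    obtain ⟨h1, h2⟩ := ih (by omega)
    have e : kt - i = (kt - (i + 1)) + 1 := by omega
    have h3 := H.mono (kt - (i + 1)) (by omega) (by omega)
    have h4 := H.slow (kt - (i + 1)) (by omega) (by omega)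
    rw [← e] at h3 h4
    refine ⟨h3.trans h1, ?_⟩
    have h5 : (i + 1) * Y.F kt = i * Y.F kt + Y.F kt := by ring
    rw [h5]
    omega

theorem exact_of_num (H : NumL L Y E kt) (hkt : 2 * M + 4 ≤ kt)
    (hC : cE L * (Y.R (M + 2) + L.hi M + 1) ≤ Y.F kt) (S : Multiset ℕ)
    (hS : ∀ m ∈ S, m ≤ M) (hsum : Y.R kt ≤ (S.map L.hi).sum) : Y.K kt ⟨S, 0, 0⟩ := by
  have hM : 1 ≤ M := H.hM
  have hb1 : 1 ≤ L.hi M := L.hi_pos hM
  have ha1 : 1 ≤ L.lo M := L.lo_pos hM le_rfl
  have hE := H.hE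
  set a := L.lo M with ha
  set b := L.hi M with hb
  set F := Y.F kt with hF
  set s₀ := Y.R (M + 2) + b + 1 with hs₀
  have hcE : cE L = 64 * M * (M + 1) * (a + 1) ^ 2 * (b + 1) := rfl
  -- numerical consequences
  have hc1 : 64 * (a + 1) ≤ cE L := by
    rw [hcE]
    calc 64 * (a + 1) = 64 * 1 * 1 * (a + 1) * 1 := by ring
      _ ≤ 64 * M * (M + 1) * (a + 1) ^ 2 * (b + 1) := by
        gcongr
        · omega
        · rw [pow_two]; exact Nat.le_mul_of_pos_left _ (by omega)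
        · omega
  have hc2 : 64 * (M * (b + 1)) ≤ cE L := by
    rw [hcE]
    calc 64 * (M * (b + 1)) = 64 * M * 1 * 1 * (b + 1) := by ring
      _ ≤ 64 * M * (M + 1) * (a + 1) ^ 2 * (b + 1) := by
        gcongr
        · omega
        · exact Nat.one_le_pow _ _ (by omega)
  have hc3 : 64 * (M * (b + M)) ≤ cE L := by
    rw [hcE]
    calc 64 * (M * (b + M)) ≤ 64 * (M * ((M + 1) * (b + 1))) := by
          gcongr
          have : (M + 1) * (b + 1) = M * b + M + b + 1 := by ring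
          omega
      _ = 64 * M * (M + 1) * 1 * (b + 1) := by ring
      _ ≤ 64 * M * (M + 1) * (a + 1) ^ 2 * (b + 1) := by
        gcongr
        exact Nat.one_le_pow _ _ (by omega)
  have hc4 : 64 * M ≤ E := by
    refine le_trans ?_ hE
    refine le_trans ?_ hc2
    gcongr
    exact Nat.le_mul_of_pos_right _ (by omega)
  have hFR : F ≤ Y.R kt := by
    have h1 := H.low kt (by omega) le_rfl
    rw [← hF] at h1
    exact (Nat.le_mul_of_pos_left F (by omega)).trans h1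
  have hs₀1 : 1 ≤ s₀ := by omega
  -- drop superfluous points
  obtain ⟨S₁, hS₁, hs1, hs2, -⟩ := exists_drop L.hi b (Y.R kt) S
    (fun m hm => L.hi_mono (hS m hm)) hsum
  refine Y.mono kt ⟨S₁, 0, 0⟩ ⟨S, 0, 0⟩ hS₁ le_rfl le_rfl ?_
  obtain ⟨c, hc, hcΦ, -, hcsz, hcK⟩ := of_multiset L Y kt S₁
    (fun m hm => hS m (Multiset.mem_of_le hS₁ hm)) 0
  refine hcK ?_
  rw [add_zero] at hcsz
  rw [← hcsz] at hs1 hs2
  have htr0 : trT L c.Φ = 0 := by rw [hcΦ, MainT_trT_zero]
  by_cases hbig : s₀ ≤ c.s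
  · exact endA H kt (by omega) le_rfl c hc (by rw [htr0]; simp) hs1 (by omega)
  push Not at hbig
  -- many points of the same multiplicity
  have hcard : M * s₀ ≤ c.N.card := by
    have h1 : (c.N.map L.hi).sum ≤ b * c.N.card := by
      have := Multiset.sum_le_card_nsmul (c.N.map L.hi) b (by
        intro x hx
        obtain ⟨m, hm, rfl⟩ := Multiset.mem_map.1 hx
        exact L.hi_mono (hc.hN m hm).2)
      rw [Multiset.card_map, smul_eq_mul, mul_comm] at this
      exact this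
    have h2 : c.sz L = (c.N.map L.hi).sum + c.s := by
      unfold Cf.sz Cf.nsz
      rw [hcΦ, MainT_flT_zero, add_zero]
    have h3 : (1 + b * M) * s₀ ≤ F := by
      refine le_trans (Nat.mul_le_mul_right _ ?_) hC
      refine le_trans ?_ hc2
      have : 64 * (M * (b + 1)) = 64 * (b * M) + 64 * M := by ring
      omega
    have h4 : b * (M * s₀) ≤ b * c.N.card := by
      have h5 : (1 + b * M) * s₀ = s₀ + b * (M * s₀) := by ring
      omega
    exact Nat.le_of_mul_le_mul_left h4 (by omega)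
  obtain ⟨μ, hμN, hμ⟩ := exists_replicate_le c.N M s₀ (fun m hm => by
    have := hc.hN m hm
    omega) hcard hM hs₀1
  have hμ2 := hc.hN μ hμN
  obtain ⟨ν, rfl⟩ : ∃ ν, μ = ν + 2 := ⟨μ - 2, by omega⟩
  obtain ⟨j, hj⟩ : ∃ j, kt = j + (ν + 2) := ⟨kt - (ν + 2), by omega⟩
  have hj2 : M + 2 ≤ j := by omega
  -- the first step
  have ek : kt = (j + 1 + ν) + 1 := by omega
  have hroom : trT L c.Φ + ((Multiset.replicate s₀ (ν + 2)).map L.lo).sum + (F / E + 1) ≤ F := by
    rw [htr0, Multiset.map_replicate, Multiset.sum_replicate, smul_eq_mul, zero_add]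
    have h1 : s₀ * L.lo (ν + 2) ≤ s₀ * a := Nat.mul_le_mul_left _ (L.lo_mono hμ2.2 le_rfl)
    have h2 : 64 * (a + 1) * s₀ ≤ F := (Nat.mul_le_mul_right _ hc1).trans hC
    have h3 : 64 * (a + 1) * s₀ = 64 * (s₀ * a) + 64 * s₀ := by ring
    have h4 : E * (F / E) ≤ F := Nat.mul_div_le F E
    have h5 : 64 * (F / E) ≤ E * (F / E) := Nat.mul_le_mul_right _ (by omega)
    omega
  obtain ⟨c₁, hc₁, hK₁, htr₁, hR₁, hsz₁, -, -, -, hΦ₁, -⟩ := step_inv H (j + 1 + ν) (by omega)
    (by omega) c hc (by rw [htr0]; simp) (by rw [← ek]; exact hs1) (Multiset.replicate s₀ (ν + 2)) hμ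
    (by rw [← ek]; exact hroom)
  rw [← ek] at hK₁ hsz₁
  refine hK₁ ?_
  -- the following steps
  obtain ⟨c₂, hc₂, hK₂, htr₂, hR₂, hsz₂, hΦ₂⟩ := MainT_steps H ν (j + 1) (by omega) (by omega) c₁ hc₁
    htr₁ hR₁
  refine hK₂ ?_
  -- the forced simple points
  have hrepl : Multiset.replicate s₀ (1, 1) ≤ c₂.Φ := by
    have h1 : Multiset.replicate s₀ (ν + 1, 1) ≤ c₁.Φ := by
      refine le_trans ?_ hΦ₁
      rw [Multiset.map_replicate]
      exact Multiset.le_add_left _ _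
    refine le_trans (le_of_eq ?_) ((MainT_mono.iterate ν h1).trans hΦ₂)
    rw [shf_iterate_replicate _ _ _ le_rfl]
    simp
  obtain ⟨X, hX⟩ := Multiset.le_iff_exists_add.1 hrepl
  rw [add_comm] at hX
  obtain ⟨N₂, t₂, Φ₂⟩ := c₂
  simp only at hX hrepl
  subst hX
  have hXval : ∀ x ∈ X, 1 ≤ x.2 ∧ x.2 ≤ 2 ∧ x.2 ≤ x.1 ∧ x.1 ≤ M := fun x hx =>
    hc₂.hΦ x (Multiset.mem_add.2 (Or.inl hx))
  have htrX : trT L (X + Multiset.replicate s₀ (1, 1)) = trT L X + s₀ := by
    rw [trT_add, MainT_trT_rep]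
  have hflX : flT L (X + Multiset.replicate s₀ (1, 1)) = flT L X + s₀ := by
    rw [flT_add, MainT_flT_rep]
  simp only at htr₂ hΦ₂
  rw [htrX] at htr₂
  -- sizes
  have hnsz : (⟨N₂, t₂, X + Multiset.replicate s₀ (1, 1)⟩ : Cf).sz L =
      (N₂.map L.hi).sum + t₂ + (flT L X + s₀) := by
    unfold Cf.sz Cf.nsz
    rw [hflX]
  have hcount := Y.count (j + 1 + ν)
  rw [← ek] at hcount
  have hcountj := Y.count j
  have hszA : (⟨N₂, t₂, X + Multiset.replicate s₀ (1, 1)⟩ : Cf).sz L ≤ Y.R (j + 1) + b := by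
    omega
  -- the traces
  have h2M : (2 * M - 1) * Y.F (j + 1) + Y.F (j + 1) = 2 * M * Y.F (j + 1) :=
    MainT_sub _ _ (by omega)
  have h2Mj : (2 * M - 1) * Y.F j + Y.F j = 2 * M * Y.F j := MainT_sub _ _ (by omega)
  have hslow := (MainT_slow H (ν + 1) (by omega)).2
  rw [show kt - (ν + 1) = j + 1 by omega, ← hF] at hslow
  have hhalf : F ≤ 2 * Y.F (j + 1) := by
    have h1 : 2 * ((ν + 1) * F) ≤ E * F := by
      rw [← mul_assoc]
      exact Nat.mul_le_mul_right _ (by omega)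
    have h2 : E * F ≤ E * (2 * Y.F (j + 1)) := by
      have : E * (2 * Y.F (j + 1)) = 2 * (E * Y.F (j + 1)) := by ring
      omega
    exact Nat.le_of_mul_le_mul_left h2 (by omega)
  refine Y.bridge j N₂ t₂ s₀ X ?_ ?_
  · -- (A)
    refine endA H (j + 1) (by omega) (by omega) ⟨N₂, t₂ + s₀, X⟩ ⟨hc₂.hN, hXval⟩ ?_ ?_ ?_
    · refine le_trans (Nat.mul_le_mul_left _ ?_) htr₂
      exact Nat.le_add_right _ _
    · have : (⟨N₂, t₂ + s₀, X⟩ : Cf).sz L = (N₂.map L.hi).sum + (t₂ + s₀) + flT L X := rfl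
      omega
    · have : (⟨N₂, t₂ + s₀, X⟩ : Cf).sz L = (N₂.map L.hi).sum + (t₂ + s₀) + flT L X := rfl
      simp only
      omega
  · -- (B)
    have hfl := flT_shf L X hXval
    have hszB : (⟨N₂, t₂, shf X⟩ : Cf).sz L = (N₂.map L.hi).sum + t₂ + flT L (shf X) := rfl
    refine endB H j hj2 (by omega) ⟨N₂, t₂, shf X⟩ ⟨hc₂.hN, shf_ok hXval⟩ ?_ ?_
    · simp only
      have h1 := trT_shf L X hXval
      have h2 : 2 * M * trT L (shf X) ≤ 2 * (M - 1) * trT L X := by
        calc 2 * M * trT L (shf X) = 2 * (M * trT L (shf X)) := by ring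
          _ ≤ 2 * ((M - 1) * trT L X) := Nat.mul_le_mul_left _ h1
          _ = 2 * (M - 1) * trT L X := by ring
      have h3 : trT L X ≤ Y.F (j + 1) := by
        have h4 : 2 * M * trT L X ≤ 2 * M * Y.F (j + 1) := by
          have h5 : 2 * M * trT L X ≤ 2 * M * (trT L X + s₀) :=
            Nat.mul_le_mul_left _ (Nat.le_add_right _ _)
          omega
        exact Nat.le_of_mul_le_mul_left h4 (by omega)
      have h4 : 2 * (M - 1) * trT L X ≤ 2 * (M - 1) * Y.F (j + 1) := Nat.mul_le_mul_left _ h3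
      have h5 : 2 * (M - 1) * Y.F (j + 1) + Y.F (j + 1) + Y.F (j + 1) = 2 * M * Y.F (j + 1) := by
        have h6 := MainT_sub M (Y.F (j + 1)) hM
        calc 2 * (M - 1) * Y.F (j + 1) + Y.F (j + 1) + Y.F (j + 1) =
            2 * ((M - 1) * Y.F (j + 1) + Y.F (j + 1)) := by ring
          _ = 2 * (M * Y.F (j + 1)) := by rw [h6]
          _ = 2 * M * Y.F (j + 1) := by ring
      have h6 := H.slow j (by omega) (by omega)
      -- `2 (M - 1) F (j + 1) ≤ (2 M - 1) F j`
      have h7 : 2 * M * Y.F (j + 1) ≤ 2 * M * Y.F j + Y.F (j + 1) := by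
        have h8 : E * (2 * M * Y.F (j + 1)) ≤ E * (2 * M * Y.F j + Y.F (j + 1)) := by
          calc E * (2 * M * Y.F (j + 1)) = 2 * M * (E * Y.F (j + 1)) := by ring
            _ ≤ 2 * M * (E * Y.F j + Y.F (j + 1)) := Nat.mul_le_mul_left _ h6
            _ = E * (2 * M * Y.F j) + 2 * M * Y.F (j + 1) := by ring
            _ ≤ E * (2 * M * Y.F j) + E * Y.F (j + 1) := by
              gcongr
              omega
            _ = E * (2 * M * Y.F j + Y.F (j + 1)) := by ring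
        exact Nat.le_of_mul_le_mul_left h8 (by omega)
      have h9 := H.mono j (by omega) (by omega)
      omega
    · -- the surplus
      have h1 : 2 * M * (trT L X + s₀ + (b + M) * Y.R (M + 2)) ≤ 2 * M * Y.F (j + 1) := by
        have h2 : 64 * (M * (b + M)) * s₀ ≤ F := (Nat.mul_le_mul_right _ hc3).trans hC
        have h3 : M * (b + M) * Y.R (M + 2) ≤ M * (b + M) * s₀ := Nat.mul_le_mul_left _ (by omega)
        have h4 : 64 * (M * (b + M)) * s₀ = 64 * (M * (b + M) * s₀) := by ring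
        have h5 : 2 * M * (trT L X + s₀ + (b + M) * Y.R (M + 2)) =
            2 * M * (trT L X + s₀) + 2 * (M * (b + M) * Y.R (M + 2)) := by ring
        omega
      have h2 : trT L X + s₀ + (b + M) * Y.R (M + 2) ≤ Y.F (j + 1) :=
        Nat.le_of_mul_le_mul_left h1 (by omega)
      rw [← hb]
      omega

end Pool.Agent.H18.Tj
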