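import Pool.Agent.H18.Tj.NumT
import Pool.Agent.H18.Tj.MainT

/-!
# Module C5 (TJ): near-exactness, a second long coordinate

`K = min (w l) σ`, `m0 = σ - K`, `k0 = D' + kQ q M E'`, `kt = K - k0 ≥ M + 2`.  By `Rg_min` the region is
`Rg (m0 + K) (update w l K)`, the state `kt` of `sysT l w m0 k0` (`w` may be replaced: `update (update w l _) l _`).
`num_sysT` gives `NumL` (`L = lensOf`), `L.hi m = Lx w m` for `m ≤ M` (`Lx_sum`, `M ≤ w l + 1`).  `near_of_num` gives
the result if `R (M + 2) + L.hi M + 1 ≤ x₀`: with `F = c(σ, w')`, `w' = update w l 0`: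
`R (M + 2) ≤ (k0 + M + 3) c(m0 + k0 + M + 2, w') ≤ (k0 + M + 3) F` (`cnt_le_mul`, `cnt_mono`), `hi M + 1 ≤ cE L ≤ F`
(`NumL.floor`), so it suffices that `(k0 + M + 4) F ≤ x₀`; by `mul_le_cnt` with `B = 2 E (k0 + M + 4)`:
`(B + 1) F ≤ 2 card ≤ 2 E x₀`, and `E ≥ 1` (`card ≥ 1`).
-/

namespace Pool.Agent.H18.Tj

open Finset Function Pool.Agent.H18.Ex

variable {ι : Type} [Fintype ι] [DecidableEq ι]

/-- The bound of the run. -/
def dA (q M E E' D' : ℕ) : ℕ :=
  (2 * q + 1) * (2 * E * (D' + kQ q M E' + M + 4)) + D' + kQ q M E' + 2 * M + 4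

private theorem NearA_le_cQ {q M : ℕ} (hM : 1 ≤ M) : M ≤ cQ q M := by
  unfold cQ
  have h1 : 0 < M := hM
  have h2 : 1 ≤ 64 * (M + 1) * (M ^ q + 1) ^ 2 * (M ^ (q + 1) + 1) :=
    Nat.succ_le_of_lt (by positivity)
  calc M = M * 1 := (mul_one M).symm
    _ ≤ M * (64 * (M + 1) * (M ^ q + 1) ^ 2 * (M ^ (q + 1) + 1)) := Nat.mul_le_mul_left _ h2
    _ = 64 * M * (M + 1) * (M ^ q + 1) ^ 2 * (M ^ (q + 1) + 1) := by ring

private theorem NearA_le_cE {M : ℕ} (L : Lens M) (hM : 1 ≤ M) : L.hi M + 1 ≤ cE L := by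
  unfold cE
  have h1 : 0 < M := hM
  have h2 : 1 ≤ 64 * M * (M + 1) * (L.lo M + 1) ^ 2 := Nat.succ_le_of_lt (by positivity)
  calc L.hi M + 1 = 1 * (L.hi M + 1) := (one_mul _).symm
    _ ≤ _ := Nat.mul_le_mul_right _ h2

private theorem NearA_kinds {ι : Type} [Fintype ι] [DecidableEq ι] (l : ι) (S : Multiset ℕ)
    (x : ℕ) : (⟨S, x, 0⟩ : Cf).kinds l = (S + Multiset.replicate x 1).map Kind.free := by
  unfold Cf.kinds
  simp only [Multiset.map_add, Multiset.map_replicate, Multiset.map_zero, add_zero]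

theorem near_run {q M E E' D' : ℕ} (hq : Fintype.card ι ≤ q) (hM : 1 ≤ M) (l h u : ι)
    (hlh : h ≠ l) (hul : u ≠ l) (huh : h ≠ u) (w : ι → ℕ) (σ : ℕ) (hσ : σ ≤ w h)
    (hE' : cQ q M ≤ E') (hu : cQ q M ≤ w u)
    (hex : ∀ σ', D' ≤ σ' → σ' ≤ σ → ∀ x₀, (Rg σ' (update w l 0)).card ≤ E' * x₀ →
      NE M x₀ σ' (update w l 0))
    (hl : dA q M E E' D' ≤ w l) (hDσ : dA q M E E' D' ≤ σ) (x₀ : ℕ)
    (hcard : (Rg σ w).card ≤ E * x₀) : NE M x₀ σ w := by
  intro S hS x hx hsum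
  have hw'h : update w l 0 h = w h := Function.update_of_ne hlh _ _
  have hw'u : update w l 0 u = w u := Function.update_of_ne hul _ _
  set K := min (w l) σ with hK
  have hKl : K ≤ w l := Nat.min_le_left _ _
  have hKσ : K ≤ σ := Nat.min_le_right _ _
  have hdK : dA q M E E' D' ≤ K := le_min hl hDσ
  have hd : dA q M E E' D' =
    (2 * q + 1) * (2 * E * (D' + kQ q M E' + M + 4)) + D' + kQ q M E' + 2 * M + 4 := rfl
  set k0 := D' + kQ q M E' with hk0
  set B := 2 * E * (k0 + M + 4) with hB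
  have hq1 : B ≤ (2 * q + 1) * B := Nat.le_mul_of_pos_left _ (by omega)
  have hq2 : 2 * (B * q) + B = (2 * q + 1) * B := by ring
  obtain ⟨kt, hkt⟩ : ∃ kt, K = k0 + kt := Nat.exists_eq_add_of_le (by omega)
  obtain ⟨m0, hm0⟩ : ∃ m0, σ = m0 + K := ⟨σ - K, by omega⟩
  have hσ2 : m0 + (k0 + kt) = σ := by omega
  have h1 : M ≤ update w l 0 h := by rw [hw'h]; omega
  have h2 : M ≤ update w l 0 u := by rw [hw'u]; exact le_trans (NearA_le_cQ hM) hu
  have H := num_sysT (E := E') hq hM l h u hlh hul huh w m0 k0 kt hE' (Nat.le_add_left _ _)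
    (by omega) hu h1 h2 (fun k hk hk' y hy => hex (m0 + k) (by omega) (by omega) y hy)
  set L := lensOf M (update w l 0) h u huh h1 h2 with hL
  have hhi : ∀ m, m ≤ M → L.hi m = Lx w m := fun m hm => Lx_sum l w m (by omega)
  have hRg : Rg σ (update w l K) = Rg σ w := Rg_min l σ w
  set F := (Rg σ (update w l 0)).card with hF
  have hFkt : (sysT l w m0 k0).F kt = F := by
    change (Rg (m0 + (k0 + kt)) (update w l 0)).card = F
    rw [hσ2]
  have hfl : L.hi M + 1 ≤ F := by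
    have h3 := H.floor kt (by omega) le_rfl
    rw [hFkt] at h3
    exact le_trans (NearA_le_cE L hM) h3
  have hR2 : (sysT l w m0 k0).R (M + 2) ≤ (k0 + M + 3) * F := by
    change (Rg (m0 + (k0 + (M + 2))) (update w l (k0 + (M + 2)))).card ≤ _
    have h3 := cnt_le_mul (h := h) (l := l) hlh (σ := m0 + (k0 + (M + 2))) (k0 + (M + 2)) (w := w)
      (by omega)
    have h4 := cnt_mono (h := h) (σ := m0 + (k0 + (M + 2))) (σ' := σ) (w := update w l 0)
      (by omega) (by rw [hw'h]; exact hσ)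
    have h5 : k0 + (M + 2) + 1 = k0 + M + 3 := by omega
    rw [h5] at h3
    exact le_trans h3 (Nat.mul_le_mul_left _ h4)
  have hBF := mul_le_cnt (h := h) (l := l) hlh (σ := σ) (B := B) (k := K) (q := q) (w := w) hq hσ
    (by omega) (by omega)
  rw [hRg] at hBF
  have hF1 : 1 ≤ F := by omega
  have hE1 : 1 ≤ E := by
    rcases Nat.eq_zero_or_pos E with h0 | h0
    · exfalso
      rw [h0, zero_mul] at hcard
      have h3 : (B + 1) * F ≤ 2 * 0 := le_trans hBF (Nat.mul_le_mul_left _ hcard)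
      have h4 : 1 ≤ (B + 1) * F := Nat.mul_pos (Nat.succ_pos _) hF1
      omega
    · exact h0
  have hx0 : (k0 + M + 4) * F ≤ x₀ := by
    have h3 : 2 * E * ((k0 + M + 4) * F) ≤ 2 * E * x₀ := by
      calc 2 * E * ((k0 + M + 4) * F) = B * F := by rw [hB]; ring
        _ ≤ (B + 1) * F := Nat.mul_le_mul_right _ (Nat.le_succ _)
        _ ≤ 2 * (Rg σ w).card := hBF
        _ ≤ 2 * (E * x₀) := Nat.mul_le_mul_left _ hcard
        _ = 2 * E * x₀ := by ring
    exact Nat.le_of_mul_le_mul_left h3 (by omega)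
  have hxx : (sysT l w m0 k0).R (M + 2) + L.hi M + 1 ≤ x := by
    have h3 : (k0 + M + 4) * F = (k0 + M + 3) * F + F := by ring
    omega
  have hRkt : (sysT l w m0 k0).R kt = (Rg σ w).card := by
    change (Rg (m0 + (k0 + kt)) (update w l (k0 + kt))).card = _
    rw [hσ2, ← hkt, hRg]
  have hsum2 : (sysT l w m0 k0).R kt ≤ (S.map L.hi).sum + x := by
    rw [hRkt, Multiset.map_congr rfl fun m hm => hhi m (hS m hm)]
    exact hsum
  have hres := near_of_num H (by omega) S hS x hxx hsum2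
  change GM (Rg (m0 + (k0 + kt)) (update w l (k0 + kt))) ((⟨S, x, 0⟩ : Cf).kinds l) at hres
  rw [hσ2, ← hkt, hRg, NearA_kinds] at hres
  exact hres

end Pool.Agent.H18.Tj
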