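import Pool.Agent.H18.Tj.PolyT

/-!
# Module T6 (TJ): near-exactness in general

Induction on `n` (number of the active coordinates other than `h`, `c`).  Given `E`: let `D'` be the function of the
induction hypothesis for the constant function... for `E' = cQ q` (polynomially bounded), `θ = D' + cQ q M + 1`,
`K = kT q θ (M ^ q) (n + 1)`.  `D` is the sum of `dA q M (E M) (cQ q M) (D' M)`, `(n + 2) θ`, `2 K E^2`, `θ`, `M`, `1`.
* (A) some `u ≠ h, c` has `θ ≤ w u`: `near_run` with `l = c`: for `σ' ≥ D'` the induction hypothesis applies to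
  `update w c 0` and the pair `(h, u)` (`u` is not counted any more).
* (B) all `w u < θ`: `thin`; `K (card + 1) ≤ 2 K card ≤ 2 K E x₀ ≤ x₀²` as `x₀ ≥ 2 K E`: otherwise
  `card ≤ E x₀ < 2 K E²`, but `card ≥ min (w c) σ + 1 > 2 K E²` (`cnt_ge`).
For `n = 0` there is no such `u`, or the count gives `w u = 0`: case (B) with `θ = 1`.
-/

namespace Pool.Agent.H18.Tj

open Finset Function Pool.Agent.H18.Ex Pool.Agent.H18.Pr

variable {ι : Type} [Fintype ι] [DecidableEq ι]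

private theorem NearAll_step (q : ℕ) (hq : Fintype.card ι ≤ q) (n : ℕ) (E D' : ℕ → ℕ)
    (hE : PolyB E) (hD' : PolyB D')
    (H : ∀ M, 1 ≤ M → ∀ (h c u : ι), h ≠ c → u ≠ c → h ≠ u → ∀ (w : ι → ℕ) (σ' : ℕ),
      (univ.filter fun i => i ≠ h ∧ i ≠ c ∧ 0 < w i).card ≤ n → 0 < w u → σ' ≤ w h →
      D' M ≤ w u → D' M ≤ σ' → ∀ x₀, (Rg σ' (update w c 0)).card ≤ cQ q M * x₀ →
      NE M x₀ σ' (update w c 0)) :
    ∃ D : ℕ → ℕ, PolyB D ∧ ∀ M, 1 ≤ M → ∀ (h c : ι), h ≠ c →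
    ∀ (w : ι → ℕ) (σ : ℕ), (univ.filter fun i => i ≠ h ∧ i ≠ c ∧ 0 < w i).card ≤ n →
    σ ≤ w h → D M ≤ w c → D M ≤ σ → ∀ x₀, (Rg σ w).card ≤ E M * x₀ → NE M x₀ σ w := by
  have hθ : PolyB fun M => D' M + cQ q M + 1 := (hD'.add (polyB_cQ q)).add (PolyB.const 1)
  have hV : PolyB fun M => M ^ q := PolyB.id.pow q
  have hK : PolyB fun M => kT q (D' M + cQ q M + 1) (M ^ q) n := polyB_kT q n hθ hV
  refine ⟨fun M => dA q M (E M) (cQ q M) (D' M) + (n + 2) * (D' M + cQ q M + 1) +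
    2 * kT q (D' M + cQ q M + 1) (M ^ q) n * E M ^ 2 + (D' M + cQ q M + 1) + M + 1, ?_, ?_⟩
  · exact (((((polyB_dA q hE (polyB_cQ q) hD').add ((PolyB.const (n + 2)).mul hθ)).add
      (((PolyB.const 2).mul hK).mul (hE.pow 2))).add hθ).add PolyB.id).add (PolyB.const 1)
  · intro M hM h c hhc w σ hcnt hσ hDc hDσ x₀ hcard
    simp only at hDc hDσ
    have hcge := cnt_ge hhc hσ hDc hDσ
    obtain ⟨θ, hθd⟩ : ∃ θ, θ = D' M + cQ q M + 1 := ⟨_, rfl⟩
    rw [← hθd] at hDc hDσ hcge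
    obtain ⟨K, hKd⟩ : ∃ K, K = kT q θ (M ^ q) n := ⟨_, rfl⟩
    rw [← hKd] at hDc hDσ hcge
    by_cases hA : ∃ u, u ≠ h ∧ u ≠ c ∧ θ ≤ w u
    · obtain ⟨u, huh, huc, hu⟩ := hA
      refine near_run (E' := cQ q M) (D' := D' M) (E := E M) hq hM c h u hhc huc (Ne.symm huh) w σ
        hσ le_rfl (by omega) ?_ (by omega) (by omega) x₀ hcard
      intro σ' h1 h2 x₁ hx₁
      exact H M hM h c u hhc huc (Ne.symm huh) w σ' hcnt (by omega) (h2.trans hσ) (by omega) h1
        x₁ hx₁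
    · push Not at hA
      intro S hS x hx hsum
      have hθσ : (n + 1) * θ ≤ σ := by
        have : (n + 2) * θ = (n + 1) * θ + θ := by ring
        omega
      refine thin (q := q) (M := M) (θ := θ) hq hM h c hhc n w σ hcnt hσ hθσ (by omega) (by omega)
        (by omega) (by omega) (fun i h1 h2 => hA i h1 h2) S hS x ?_ hsum
      rw [← hKd]
      have hcard' : (Rg σ w).card ≤ E M * x := hcard.trans (Nat.mul_le_mul_left _ hx)
      have h2 : 2 * K * E M ^ 2 < (Rg σ w).card := by omega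
      have h3 : 2 * K * E M ≤ x := by
        by_contra h3
        push Not at h3
        have h4 : E M * x ≤ E M * (2 * K * E M) := Nat.mul_le_mul_left _ h3.le
        have h5 : E M * (2 * K * E M) = 2 * K * E M ^ 2 := by ring
        omega
      have h6 : (Rg σ w).card + 1 ≤ 2 * (Rg σ w).card := by omega
      calc K * ((Rg σ w).card + 1) ≤ K * (2 * (Rg σ w).card) := Nat.mul_le_mul_left _ h6
        _ ≤ K * (2 * (E M * x)) := Nat.mul_le_mul_left _ (Nat.mul_le_mul_left _ hcard')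
        _ = (2 * K * E M) * x := by ring
        _ ≤ x * x := Nat.mul_le_mul_right _ h3
        _ = x ^ 2 := by ring

theorem near_all (q : ℕ) (hq : Fintype.card ι ≤ q) (hq1 : 1 ≤ q) (n : ℕ) :
    ∀ E : ℕ → ℕ, PolyB E → ∃ D : ℕ → ℕ, PolyB D ∧ ∀ M, 1 ≤ M → ∀ (h c : ι), h ≠ c →
    ∀ (w : ι → ℕ) (σ : ℕ), (univ.filter fun i => i ≠ h ∧ i ≠ c ∧ 0 < w i).card ≤ n →
    σ ≤ w h → D M ≤ w c → D M ≤ σ → ∀ x₀, (Rg σ w).card ≤ E M * x₀ → NE M x₀ σ w := by
  induction n with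
  | zero =>
    intro E hE
    refine NearAll_step q hq 0 E (fun _ => 0) hE (PolyB.const 0) ?_
    intro M _ h c u _ huc hhu w σ' hcnt hu _ _ _ x₀ _
    exfalso
    have h1 : u ∈ univ.filter fun i => i ≠ h ∧ i ≠ c ∧ 0 < w i :=
      mem_filter.mpr ⟨mem_univ _, Ne.symm hhu, huc, hu⟩
    have h2 := card_pos.mpr ⟨u, h1⟩
    omega
  | succ n ih =>
    intro E hE
    obtain ⟨D', hD', H⟩ := ih (cQ q) (polyB_cQ q)
    refine NearAll_step q hq (n + 1) E D' hE hD' ?_
    intro M hM h c u hhc huc hhu w σ' hcnt hu hσ' hDu hDσ x₀ hx₀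
    refine H M hM h u hhu (update w c 0) σ' ?_ ?_ ?_ hDσ x₀ hx₀
    · have h1 : u ∈ univ.filter fun i => i ≠ h ∧ i ≠ c ∧ 0 < w i :=
        mem_filter.mpr ⟨mem_univ _, Ne.symm hhu, huc, hu⟩
      have h2 : (univ.filter fun i => i ≠ h ∧ i ≠ u ∧ 0 < update w c 0 i) ⊆
          (univ.filter fun i => i ≠ h ∧ i ≠ c ∧ 0 < w i).erase u := by
        intro i hi
        obtain ⟨-, hih, hiu, hi0⟩ := mem_filter.mp hi
        have hic : i ≠ c := by
          rintro rfl
          rw [update_self] at hi0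
          exact lt_irrefl _ hi0
        rw [update_of_ne hic] at hi0
        exact mem_erase.mpr ⟨hiu, mem_filter.mpr ⟨mem_univ _, hih, hic, hi0⟩⟩
      have h3 := card_le_card h2
      rw [card_erase_of_mem h1] at h3
      omega
    · rw [update_of_ne hhc]
      exact hσ'
    · rw [update_of_ne huc]
      exact hDu

end Pool.Agent.H18.Tj
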