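import Pool.Agent.H18.Tj.CntL

/-!
# Module C3 (TJ): the concrete Horace system

The state `j` is `Rg (m0 + (k0 + j)) (update w l (k0 + j))`, its trace (on `x_l = 0`) is
`Rg (m0 + (k0 + j)) (update w l 0)`.
* `step`: `GM.step` (`Pool/Agent/H18/Ex/Multi.lean`) for the roles `stay (free m)` (`m ∈ N`), `ord m` (`m ∈ I`),
  `dif` (`t` times), `stay (free 1)` (`s` times), `ord 1` (`u` times), `here c e` (`(c, e) ∈ Φ`); `Rg_layer`,
  `Rg_resid` (`Pool/Agent/H18/Ex/Run.lean`).  The layers are `0` (stay), `m`, `1`, `0`, `1`, `c` (as `e ≤ c`); zeros can be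
  added by `GM.mono`.  The residual kinds are `free m`, `forced l (m - 1) 1`, `forced l μ 2`, `free 1`,
  `forced l 0 1` (`u` times; more conditions: `GM.mono`), `forced l (c - 1) e` (`shf` keeps those with
  `e ≤ c - 1`; `GM.mono`).  Compare the private theorems `roles_before`, `roles_after` in
  `Pool/Agent/H18/Ub/VPeel.lean`.
* `bridge`: `GM.bridge` with `S = N.map free + replicate s (free 1) + Φ.map (forced l)`; `Kind.dn l` of
  `forced l c e` is `forced l (c - 1) e`; `shf Φ` is a part of it (`GM.mono`).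
* `full`: `GM.of_card` with `T = N + replicate s 1`.
-/

namespace Pool.Agent.H18.Tj

open Finset Function Pool.Agent.H18.Ex

variable {ι : Type} [Fintype ι] [DecidableEq ι]

theorem kinds_mono (l : ι) {c c' : Cf} (h1 : c.N ≤ c'.N) (h2 : c.s ≤ c'.s) (h3 : c.Φ ≤ c'.Φ) :
    c.kinds l ≤ c'.kinds l := by
  unfold Cf.kinds
  have h4 : Multiset.replicate c.s (Kind.free 1 : Kind ι) ≤ Multiset.replicate c'.s (Kind.free 1) :=
    Multiset.replicate_le_replicate _ |>.2 h2
  have h5 := Multiset.map_le_map (f := (Kind.free : ℕ → Kind ι)) h1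
  have h6 := Multiset.map_le_map (f := fun x : ℕ × ℕ => Kind.forced l x.1 x.2) h3
  exact add_le_add (add_le_add h5 h4) h6

theorem kinds_one (l : ι) (N : Multiset ℕ) (s : ℕ) (Φ : Multiset (ℕ × ℕ)) :
    (⟨1 ::ₘ N, s, Φ⟩ : Cf).kinds l = (⟨N, s + 1, Φ⟩ : Cf).kinds l := by
  unfold Cf.kinds
  change (1 ::ₘ N).map Kind.free + Multiset.replicate s (Kind.free 1) +
      Φ.map (fun x => Kind.forced l x.1 x.2) = N.map Kind.free +
      Multiset.replicate (s + 1) (Kind.free 1) + Φ.map (fun x => Kind.forced l x.1 x.2)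
  rw [Multiset.map_cons, Multiset.replicate_succ, Multiset.cons_add, Multiset.add_cons]

/-- The roles of the conditions. -/
private def SysT_roles (ι : Type) (N I : Multiset ℕ) (t s u : ℕ) (Φ : Multiset (ℕ × ℕ)) :
    Multiset (Role ι) :=
  N.map (fun m => Role.stay (Kind.free m)) +
    Multiset.replicate s (Role.stay (Kind.free 1)) +
    Φ.map (fun x => Role.here x.1 x.2) + I.map (fun m => Role.ord m) +
    Multiset.replicate t Role.dif + Multiset.replicate u (Role.ord 1)

omit [Fintype ι] [DecidableEq ι] in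
private theorem SysT_before (l : ι) (N I : Multiset ℕ) (μ t s u : ℕ) (Φ : Multiset (ℕ × ℕ)) :
    (SysT_roles ι N I t s u Φ).map (Role.before l μ) =
      (⟨N + I + Multiset.replicate t μ, s + u, Φ⟩ : Cf).kinds l := by
  unfold SysT_roles Cf.kinds
  simp only [Multiset.map_add, Multiset.map_map, Multiset.map_replicate,
    Function.comp_def, Role.before, Multiset.replicate_add]
  abel

omit [Fintype ι] in
private theorem SysT_after (l : ι) (N I : Multiset ℕ) (μ t s u : ℕ) (Φ : Multiset (ℕ × ℕ)) :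
    (⟨N, s, shf Φ + I.map (fun m => (m - 1, 1)) + Multiset.replicate t (μ, 2)⟩ : Cf).kinds l ≤
      (SysT_roles ι N I t s u Φ).map (Role.after l μ) := by
  have h5 : (shf Φ).map (fun x => Kind.forced l x.1 x.2) ≤
      Φ.map (fun x => Kind.forced l (x.1 - 1) x.2) := by
    have h6 : shf Φ ≤ Φ.map fun x => (x.1 - 1, x.2) := Multiset.filter_le _ _
    have h7 := Multiset.map_le_map (f := fun x : ℕ × ℕ => Kind.forced l x.1 x.2) h6
    rw [Multiset.map_map] at h7
    exact h7
  unfold SysT_roles Cf.kinds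
  simp only [Multiset.map_add, Multiset.map_map, Multiset.map_replicate,
    Function.comp_def, Role.after]
  calc N.map Kind.free + Multiset.replicate s (Kind.free 1) +
        ((shf Φ).map (fun x => Kind.forced l x.1 x.2) +
          I.map (fun m => Kind.forced l (m - 1) 1) +
          Multiset.replicate t (Kind.forced l μ 2))
      ≤ N.map Kind.free + Multiset.replicate s (Kind.free 1) +
        (Φ.map (fun x => Kind.forced l (x.1 - 1) x.2) +
          I.map (fun m => Kind.forced l (m - 1) 1) +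
          Multiset.replicate t (Kind.forced l μ 2)) := by
        gcongr
    _ = N.map (fun m => Kind.free m) + Multiset.replicate s (Kind.free 1) +
      Φ.map (fun x => Kind.forced l (x.1 - 1) x.2) +
      I.map (fun m => Kind.forced l (m - 1) 1) +
      Multiset.replicate t (Kind.forced l μ 2) := by abel
    _ ≤ _ := Multiset.le_add_right _ _

omit [Fintype ι] [DecidableEq ι] in
private theorem SysT_layer (N I : Multiset ℕ) (t s u : ℕ) (Φ : Multiset (ℕ × ℕ))
    (hΦ : ∀ x ∈ Φ, x.2 ≤ x.1) :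
    (Φ.map Prod.fst + I + Multiset.replicate (t + u) 1).map (Kind.free : ℕ → Kind ι) ≤
      (SysT_roles ι N I t s u Φ).map (fun r => Kind.free r.layer) := by
  have h1 : Φ.map (fun x : ℕ × ℕ => (Kind.free (if x.2 ≤ x.1 then x.1 else 0) : Kind ι)) =
      Φ.map (fun x => Kind.free x.1) :=
    Multiset.map_congr rfl fun x hx => by rw [if_pos (hΦ x hx)]
  unfold SysT_roles
  simp only [Multiset.map_add, Multiset.map_map, Multiset.map_replicate,
    Function.comp_def, Role.layer, Multiset.replicate_add]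
  rw [h1]
  calc Φ.map (fun x => (Kind.free x.1 : Kind ι)) + I.map Kind.free +
        (Multiset.replicate t (Kind.free 1) + Multiset.replicate u (Kind.free 1))
      ≤ (N.map (fun _ => Kind.free 0) + Multiset.replicate s (Kind.free 0)) +
        (Φ.map (fun x => (Kind.free x.1 : Kind ι)) + I.map Kind.free +
        (Multiset.replicate t (Kind.free 1) + Multiset.replicate u (Kind.free 1))) :=
        Multiset.le_add_left _ _
    _ = _ := by abel

omit [Fintype ι] [DecidableEq ι] in
private theorem SysT_notAt (l : ι) (N I : Multiset ℕ) (t s u : ℕ) (Φ : Multiset (ℕ × ℕ))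
    (k : Kind ι) (hk : Role.stay k ∈ SysT_roles ι N I t s u Φ) : k.NotAt l := by
  unfold SysT_roles at hk
  simp only [Multiset.mem_add] at hk
  rcases hk with ((((h | h) | h) | h) | h) | h
  · obtain ⟨m, _, hm⟩ := Multiset.mem_map.1 h
    cases hm
    trivial
  · have h1 := (Multiset.mem_replicate.1 h).2
    cases h1
    trivial
  · obtain ⟨m, _, hm⟩ := Multiset.mem_map.1 h
    cases hm
  · obtain ⟨m, _, hm⟩ := Multiset.mem_map.1 h
    cases hm
  · have h1 := (Multiset.mem_replicate.1 h).2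
    cases h1
  · have h1 := (Multiset.mem_replicate.1 h).2
    cases h1

private theorem SysT_resid (l : ι) (σ k : ℕ) (w : ι → ℕ) (a : ι → ℕ) :
    a ∈ Rg σ (update w l k) ↔
      Function.update a l (a l + 1) ∈ Rg (σ + 1) (update w l (k + 1)) := by
  have h := Rg_resid (σ + 1) (update w l (k + 1)) l (by omega)
    (by rw [Function.update_self]; omega) a
  rw [Function.update_self, Function.update_idem] at h
  exact h

private theorem SysT_zero (l : ι) (σ k : ℕ) (w : ι → ℕ) :
    (Rg (σ + 1) (update w l (k + 1))).filter (fun a => a l = 0) = Rg (σ + 1) (update w l 0) := by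
  rw [Rg_layer, Function.update_idem]

theorem step_Rg (l : ι) (σ k : ℕ) (w : ι → ℕ) (N I : Multiset ℕ) (μ t s u : ℕ)
    (Φ : Multiset (ℕ × ℕ)) (hμ : 1 ≤ μ) (hΦ : ∀ x ∈ Φ, x.2 ≤ x.1)
    (h0 : GM (Rg (σ + 1) (update w l 0))
      ((Φ.map Prod.fst + I + Multiset.replicate (t + u) 1).map Kind.free))
    (h1 : GM (Rg σ (update w l k)) ((⟨N, s, shf Φ + I.map (fun m => (m - 1, 1)) +
      Multiset.replicate t (μ, 2)⟩ : Cf).kinds l)) :
    GM (Rg (σ + 1) (update w l (k + 1)))
      ((⟨N + I + Multiset.replicate t μ, s + u, Φ⟩ : Cf).kinds l) := by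
  rw [← SysT_before]
  refine GM.step _ (Rg σ (update w l k)) l (SysT_resid l σ k w) μ hμ _
    (fun k' hk' => SysT_notAt l N I t s u Φ k' hk') ?_ ?_
  · rw [SysT_zero]
    exact GM.mono (SysT_layer N I t s u Φ hΦ) h0
  · exact GM.mono (SysT_after l N I μ t s u Φ) h1

theorem bridge_Rg (l : ι) (σ k : ℕ) (w : ι → ℕ) (N : Multiset ℕ) (s s₀ : ℕ)
    (Φ : Multiset (ℕ × ℕ))
    (h1 : GM (Rg (σ + 1) (update w l (k + 1))) ((⟨N, s + s₀, Φ⟩ : Cf).kinds l))
    (h2 : GM (Rg σ (update w l k)) ((⟨N, s, shf Φ⟩ : Cf).kinds l)) :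
    GM (Rg (σ + 1) (update w l (k + 1)))
      ((⟨N, s, Φ + Multiset.replicate s₀ (1, 1)⟩ : Cf).kinds l) := by
  have e1 : (⟨N, s, Φ + Multiset.replicate s₀ (1, 1)⟩ : Cf).kinds l =
      (⟨N, s, Φ⟩ : Cf).kinds l + Multiset.replicate s₀ (Kind.forced l 1 1) := by
    unfold Cf.kinds
    simp only [Multiset.map_add, Multiset.map_replicate]
    abel
  have e2 : (⟨N, s + s₀, Φ⟩ : Cf).kinds l =
      (⟨N, s, Φ⟩ : Cf).kinds l + Multiset.replicate s₀ (Kind.free 1) := by
    unfold Cf.kinds
    simp only [Multiset.replicate_add]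
    abel
  have e3 : (⟨N, s, shf Φ⟩ : Cf).kinds l ≤ ((⟨N, s, Φ⟩ : Cf).kinds l).map (Kind.dn l) := by
    have h5 : (shf Φ).map (fun x => Kind.forced l x.1 x.2) ≤
        Φ.map (fun x => Kind.forced l (x.1 - 1) x.2) := by
      have h6 : shf Φ ≤ Φ.map fun x => (x.1 - 1, x.2) := Multiset.filter_le _ _
      have h7 := Multiset.map_le_map (f := fun x : ℕ × ℕ => Kind.forced l x.1 x.2) h6
      rw [Multiset.map_map] at h7
      exact h7
    unfold Cf.kinds
    simp only [Multiset.map_add, Multiset.map_map, Multiset.map_replicate, Function.comp_def,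
      Kind.dn, if_true]
    exact add_le_add le_rfl h5
  rw [e1]
  rw [e2] at h1
  exact GM.bridge _ (Rg σ (update w l k)) l (SysT_resid l σ k w) _ s₀ h1 (GM.mono e3 h2)

theorem full_Rg (l : ι) (σ : ℕ) (w : ι → ℕ) (N : Multiset ℕ) (s : ℕ) (Φ : Multiset (ℕ × ℕ))
    (hN : ∀ m ∈ N, 1 ≤ m) (h : (Rg σ w).card ≤ N.card + s) :
    GM (Rg σ w) ((⟨N, s, Φ⟩ : Cf).kinds l) := by
  have e1 : (⟨N, s, Φ⟩ : Cf).kinds l = (N + Multiset.replicate s 1).map Kind.free +
      Φ.map fun x => Kind.forced l x.1 x.2 := by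
    unfold Cf.kinds
    simp only [Multiset.map_add, Multiset.map_replicate]
  rw [e1]
  refine GM.of_card _ _ _ (fun m hm => ?_) ?_
  · rcases Multiset.mem_add.1 hm with h1 | h1
    · exact hN m h1
    · rw [(Multiset.mem_replicate.1 h1).2]
  · rw [Multiset.card_add, Multiset.card_replicate]
    exact h

/-- The concrete system. -/
noncomputable def sysT (l : ι) (w : ι → ℕ) (m0 k0 : ℕ) : SysL where
  K j c := GM (Rg (m0 + (k0 + j)) (update w l (k0 + j))) (c.kinds l)
  F j := (Rg (m0 + (k0 + j)) (update w l 0)).card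
  R j := (Rg (m0 + (k0 + j)) (update w l (k0 + j))).card
  tr j S := GM (Rg (m0 + (k0 + j)) (update w l 0)) (S.map Kind.free)
  mono := fun _ _ _ h1 h2 h3 h => GM.mono (kinds_mono l h1 h2 h3) h
  one := fun _ N s Φ h => by rw [kinds_one]; exact h
  count := fun k => cnt_succ l (m0 + (k0 + k)) w (k0 + k)
  step := fun k N I μ t s u Φ hμ hΦ h0 h1 =>
    step_Rg l (m0 + (k0 + k)) (k0 + k) w N I μ t s u Φ hμ hΦ h0 h1
  bridge := fun k N s s₀ Φ h1 h2 => bridge_Rg l (m0 + (k0 + k)) (k0 + k) w N s s₀ Φ h1 h2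
  full := fun _ N s Φ hN h => full_Rg l _ _ N s Φ hN h

end Pool.Agent.H18.Tj
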