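import Pool.Agent.H18.Tj.LxL
import Pool.Agent.H18.Tj.SysT

/-!
# Module C4 (TJ): the numerical properties of the concrete system

`w' = update w l 0`, `F j = c(m0 + k0 + j, w')`, `h` free, `u` a coordinate with `cQ q M ≤ w u`.
* `floor`: `cnt_ge` with `b = min (w u) (m0 + k0 + j) ≥ cQ - 1`... (`cQ q M ≤ k0`), then `cE_le`.
* `mono`: `cnt_mono`; `slow`: `cnt_slow` with `s = 1`, `σ = m0 + k0 + j + 1 ≥ q E`.
* `low`: `mul_le_cnt` with `B = 2 E`, `2 (2 E q) + 2 E ≤ k0`: `(2 E + 1) F ≤ 2 R`.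
* `gd`: `hex` with `x₀ = F / E + 1` (`F ≤ E (F / E + 1)`), the lengths are `Lx w'`.
-/

namespace Pool.Agent.H18.Tj

open Finset Function Pool.Agent.H18.Ex

variable {ι : Type} [Fintype ι] [DecidableEq ι]

/-- The lowest state. -/
def kQ (q M E : ℕ) : ℕ := 8 * q * E + 4 * E + cQ q M + M

private theorem NumT_cQ_pos {q M : ℕ} (hM : 1 ≤ M) : 1 ≤ cQ q M := by
  unfold cQ
  have h1 : 0 < M := hM
  exact Nat.succ_le_of_lt (by positivity)

theorem num_sysT {q M E : ℕ} (hq : Fintype.card ι ≤ q) (hM : 1 ≤ M) (l h u : ι) (hlh : h ≠ l)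
    (hul : u ≠ l) (huh : h ≠ u) (w : ι → ℕ) (m0 k0 kt : ℕ) (hE : cQ q M ≤ E)
    (hk0 : kQ q M E ≤ k0) (hwh : m0 + (k0 + kt) ≤ w h) (hwu : cQ q M ≤ w u)
    (h1 : M ≤ update w l 0 h) (h2 : M ≤ update w l 0 u)
    (hex : ∀ k, k0 < k → k ≤ k0 + kt → ∀ x₀, (Rg (m0 + k) (update w l 0)).card ≤ E * x₀ →
      NE M x₀ (m0 + k) (update w l 0)) :
    NumL (lensOf M (update w l 0) h u huh h1 h2) (sysT l w m0 k0) E kt := by
  have hw'h : update w l 0 h = w h := Function.update_of_ne hlh _ _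
  have hw'u : update w l 0 u = w u := Function.update_of_ne hul _ _
  have hcE := cE_le hM hq (update w l 0) h u huh h1 h2
  have hcQ : 1 ≤ cQ q M := NumT_cQ_pos hM
  have hE1 : 1 ≤ E := le_trans hcQ hE
  have hq1 : 1 ≤ q := le_trans (Fintype.card_pos_iff.2 ⟨h⟩) hq
  have hkQ : 8 * q * E + 4 * E + cQ q M + M ≤ k0 := hk0
  have hF : ∀ j, (sysT l w m0 k0).F j = (Rg (m0 + (k0 + j)) (update w l 0)).card := fun _ => rfl
  have hR : ∀ j, (sysT l w m0 k0).R j =
      (Rg (m0 + (k0 + j)) (update w l (k0 + j))).card := fun _ => rfl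
  refine ⟨hM, le_trans hcE hE, ?_, ?_, ?_, ?_, ?_⟩
  · intro k _ hk
    rw [hF]
    have h3 := cnt_ge (h := h) (c := u) huh (σ := m0 + (k0 + k)) (b := cQ q M)
      (w := update w l 0) (by rw [hw'h]; omega) (by rw [hw'u]; exact hwu) (by omega)
    omega
  · intro k _ hk
    rw [hF, hF]
    exact cnt_mono (h := h) (by omega) (by rw [hw'h]; omega)
  · intro k _ hk
    rw [hF, hF]
    have h3 := cnt_slow (h := h) (σ := m0 + (k0 + (k + 1))) (q := q) (w := update w l 0) hq 1
      (by omega) (by rw [hw'h]; omega)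
    have h4 := cnt_mono (h := h) (σ := m0 + (k0 + k)) (σ' := m0 + (k0 + (k + 1)))
      (w := update w l 0) (by omega) (by rw [hw'h]; omega)
    have e1 : m0 + (k0 + (k + 1)) - 1 = m0 + (k0 + k) := by omega
    rw [e1] at h3
    set a := (Rg (m0 + (k0 + (k + 1))) (update w l 0)).card with ha
    set b := (Rg (m0 + (k0 + k)) (update w l 0)).card with hb
    obtain ⟨d, hd⟩ := Nat.exists_eq_add_of_le h4
    have hσ : q * E ≤ m0 + (k0 + k) + 1 := by
      have : q * E ≤ 8 * q * E := by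
        rw [mul_assoc]
        exact Nat.le_mul_of_pos_left _ (by norm_num)
      omega
    have h5 : (m0 + (k0 + k) + 1) * d ≤ q * a := by
      rw [hd, Nat.mul_add, one_mul] at h3
      have : q * (b + d) = q * a := by rw [hd]
      rw [← this]
      omega
    have h6 : q * (E * d) ≤ q * a := by
      calc q * (E * d) = (q * E) * d := by ring
        _ ≤ (m0 + (k0 + k) + 1) * d := Nat.mul_le_mul_right _ hσ
        _ ≤ q * a := h5
    have h7 : E * d ≤ a := Nat.le_of_mul_le_mul_left h6 hq1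
    calc E * a = E * b + E * d := by rw [hd, Nat.mul_add]
      _ ≤ E * b + a := by omega
  · intro k _ hk
    rw [hF, hR]
    have e1 : 2 * (2 * E * q) + 2 * E ≤ m0 + (k0 + k) := by
      have : 2 * (2 * E * q) ≤ 8 * q * E := by
        have : 2 * (2 * E * q) = 4 * (q * E) := by ring
        rw [this, mul_assoc]
        exact Nat.mul_le_mul_right _ (by norm_num)
      omega
    have h3 := mul_le_cnt (h := h) (l := l) hlh (σ := m0 + (k0 + k)) (B := 2 * E) (k := k0 + k)
      (q := q) (w := w) hq (by omega) (by omega) e1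
    have h4 : 2 * (E * (Rg (m0 + (k0 + k)) (update w l 0)).card) ≤
        2 * (Rg (m0 + (k0 + k)) (update w l (k0 + k))).card := by
      refine le_trans ?_ h3
      rw [← mul_assoc]
      exact Nat.mul_le_mul_right _ (by omega)
    exact Nat.le_of_mul_le_mul_left h4 (by norm_num)
  · intro k hk1 hk S hS x hx hsum
    have h3 := hex (k0 + k) (by omega) (by omega) ((sysT l w m0 k0).F k / E + 1)
      (by
        change (sysT l w m0 k0).F k ≤ E * ((sysT l w m0 k0).F k / E + 1)
        have := Nat.lt_mul_div_succ ((sysT l w m0 k0).F k) hE1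
        omega)
    exact h3 S hS x hx hsum

end Pool.Agent.H18.Tj
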