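import Pool.Agent.H18.Tj.Bal

/-!
# Module T3 (TJ): assignment of the points to the cells

Induction on the number of points (`Multiset.induction_on` or on `k`): let `D s` be the deviation
`ℓ L_s - ∑_i ∑_t W_i t` of the assignment for the first `k` points, and choose the cell of the new point by `bal` with
`y = D`: the square norm grows by at most `∑_s (ℓ W (rk ℓ u 0 s) - ∑ W)^2 ≤ ℓ (ℓ V)^2`.
-/

namespace Pool.Agent.H18.Tj

open Finset Pool.Agent.H18.Ta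

theorem assign (ℓ V : ℕ) (hℓ : 1 ≤ ℓ) (k : ℕ) (W : Fin k → ℕ → ℕ)
    (hdec : ∀ j i, W j (i + 1) ≤ W j i) (hconv : ∀ j i, 2 * W j (i + 1) ≤ W j i + W j (i + 2))
    (hV : ∀ j, W j 0 ≤ V) :
    ∃ u : Fin k → ℕ, (∀ j, u j < ℓ) ∧
      ∑ s ∈ range ℓ, ((ℓ : ℤ) * ∑ j, (W j (rk ℓ (u j) 0 s) : ℤ) -
        ∑ j, ∑ t ∈ range ℓ, (W j t : ℤ)) ^ 2 ≤ (k : ℤ) * (ℓ : ℤ) ^ 3 * (V : ℤ) ^ 2 := by
  induction k with
  | zero =>
    refine ⟨fun j => j.elim0, fun j => j.elim0, ?_⟩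
    simp
  | succ k ih =>
    obtain ⟨u', hu', hs'⟩ := ih (fun j => W j.castSucc) (fun j i => hdec _ i) (fun j i => hconv _ i)
      (fun j => hV _)
    set D : ℕ → ℤ := fun s => (ℓ : ℤ) * ∑ j : Fin k, (W j.castSucc (rk ℓ (u' j) 0 s) : ℤ) -
      ∑ j : Fin k, ∑ t ∈ range ℓ, (W j.castSucc t : ℤ) with hD
    obtain ⟨u₀, hu₀, hb⟩ := bal ℓ hℓ (W (Fin.last k)) (hdec _) (hconv _) D
    set E : ℕ → ℤ := fun s => (ℓ : ℤ) * W (Fin.last k) (rk ℓ u₀ 0 s) -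
      ∑ t ∈ range ℓ, (W (Fin.last k) t : ℤ) with hE
    have hW : ∀ i, (W (Fin.last k) i : ℤ) ≤ V := by
      intro i
      have h1 : W (Fin.last k) i ≤ W (Fin.last k) 0 := antitone_nat_of_succ_le (hdec _) (Nat.zero_le i)
      exact_mod_cast h1.trans (hV _)
    have hW0 : ∀ i, (0 : ℤ) ≤ (W (Fin.last k) i : ℤ) := fun i => Int.natCast_nonneg _
    have hℓ0 : (0 : ℤ) ≤ (ℓ : ℤ) := Int.natCast_nonneg _
    have hEb : ∀ s, E s ^ 2 ≤ ((ℓ : ℤ) * V) ^ 2 := by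
      intro s
      have h1 : (ℓ : ℤ) * W (Fin.last k) (rk ℓ u₀ 0 s) ≤ ℓ * V := mul_le_mul_of_nonneg_left (hW _) hℓ0
      have h2 : (0 : ℤ) ≤ (ℓ : ℤ) * W (Fin.last k) (rk ℓ u₀ 0 s) := mul_nonneg hℓ0 (hW0 _)
      have h3 : ∑ t ∈ range ℓ, (W (Fin.last k) t : ℤ) ≤ ℓ * V := by
        calc ∑ t ∈ range ℓ, (W (Fin.last k) t : ℤ) ≤ ∑ _t ∈ range ℓ, (V : ℤ) :=
              sum_le_sum fun t _ => hW t
          _ = ℓ * V := by rw [sum_const, card_range, nsmul_eq_mul]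
      have h4 : (0 : ℤ) ≤ ∑ t ∈ range ℓ, (W (Fin.last k) t : ℤ) := sum_nonneg fun t _ => hW0 t
      apply sq_le_sq'
      · simp only [hE]
        linarith
      · simp only [hE]
        linarith
    refine ⟨Fin.snoc (α := fun _ => ℕ) u' u₀, ?_, ?_⟩
    · intro j
      refine Fin.lastCases ?_ ?_ j
      · rw [Fin.snoc_last]
        exact hu₀
      · intro i
        rw [Fin.snoc_castSucc]
        exact hu' i
    · have h1 : ∀ s, ((ℓ : ℤ) * ∑ j : Fin (k + 1), (W j (rk ℓ ((Fin.snoc (α := fun _ => ℕ) u' u₀ :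
          Fin (k + 1) → ℕ) j) 0 s) : ℤ) - ∑ j : Fin (k + 1), ∑ t ∈ range ℓ, (W j t : ℤ)) = D s + E s := by
        intro s
        rw [Fin.sum_univ_castSucc, Fin.sum_univ_castSucc, Fin.snoc_last]
        simp only [Fin.snoc_castSucc, hD, hE]
        ring
      calc ∑ s ∈ range ℓ, ((ℓ : ℤ) * ∑ j : Fin (k + 1), (W j (rk ℓ ((Fin.snoc (α := fun _ => ℕ) u' u₀ :
          Fin (k + 1) → ℕ) j) 0 s) : ℤ) - ∑ j : Fin (k + 1), ∑ t ∈ range ℓ, (W j t : ℤ)) ^ 2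
          = ∑ s ∈ range ℓ, (D s + E s) ^ 2 := sum_congr rfl fun s _ => by rw [h1 s]
        _ = ∑ s ∈ range ℓ, D s ^ 2 + 2 * ∑ s ∈ range ℓ, D s * E s + ∑ s ∈ range ℓ, E s ^ 2 := by
            rw [mul_sum, ← sum_add_distrib, ← sum_add_distrib]
            exact sum_congr rfl fun s _ => by ring
        _ ≤ (k : ℤ) * (ℓ : ℤ) ^ 3 * (V : ℤ) ^ 2 + 2 * 0 + ∑ _s ∈ range ℓ, ((ℓ : ℤ) * V) ^ 2 := by
            have h2 : ∑ s ∈ range ℓ, E s ^ 2 ≤ ∑ _s ∈ range ℓ, ((ℓ : ℤ) * V) ^ 2 :=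
              sum_le_sum fun s _ => hEb s
            have h3 : ∑ s ∈ range ℓ, D s ^ 2 ≤ (k : ℤ) * (ℓ : ℤ) ^ 3 * (V : ℤ) ^ 2 := hs'
            linarith
        _ = ((k + 1 : ℕ) : ℤ) * (ℓ : ℤ) ^ 3 * (V : ℤ) ^ 2 := by
            rw [sum_const, card_range, nsmul_eq_mul]
            push_cast
            ring

end Pool.Agent.H18.Tj
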