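import Pool.Agent.H18.Tj.LensL
import Pool.Agent.H18.Ub.VPeel

/-!
# Module M2 (TJ): one Horace step for configurations

As `peelNw` in `Pool/Agent/H18/Ub/VPeel.lean`, much shorter since `SysL.step` is stated for configurations:
`c' = ⟨c.N - I - replicate t μ, c.s - u, shf c.Φ + I.map (m ↦ (m - 1, 1)) + replicate t (μ, 2)⟩` with the maximal
`I` (`exists_maximal_fill c.N I₀ L.lo (F - tr - w)`), `ρ = F - tr - ∑_I lo ≥ w`; case (i)
`g0T L w ≤ (c.N - I).card`: `t = ρ ≤ lo M + w`, `u = 0`, `μ` from `exists_replicate_le`; case (ii) otherwise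
`t = 0`, `u = ρ ≤ c.s`.  `hE` is applied with `S = c.Φ.map Prod.fst + I` and `x = ρ`.  The new output (7): if
`c.N.card * lo M + tr + w ≤ F` then `I = c.N` by maximality, so case (ii) and `c'.N = 0`.
`Y.step` gives `K (k + 1)` of `⟨(c.N - I - replicate t μ) + I + replicate t μ, (c.s - u) + u, c.Φ⟩ = c`.
-/

namespace Pool.Agent.H18.Tj

open Finset Pool.Agent.H18.Ex

/-- The new configuration. -/
private def PeelT_c (c : Cf) (I : Multiset ℕ) (μ t u : ℕ) : Cf :=
  ⟨c.N - I - Multiset.replicate t μ, c.s - u,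
    shf c.Φ + I.map (fun m => (m - 1, 1)) + Multiset.replicate t (μ, 2)⟩

private theorem PeelT_OK {M : ℕ} {c : Cf} (hc : c.OK M) {I : Multiset ℕ}
    (hI : I ≤ c.N) {μ t u : ℕ} (hμ : t ≠ 0 → 2 ≤ μ ∧ μ ≤ M) : (PeelT_c c I μ t u).OK M := by
  refine ⟨fun m hm => hc.hN m ?_, fun x hx => ?_⟩
  · exact Multiset.mem_of_le (le_trans tsub_le_self tsub_le_self) hm
  · have hx' : x ∈ shf c.Φ + I.map (fun m => (m - 1, 1)) + Multiset.replicate t (μ, 2) := hx
    rw [Multiset.mem_add, Multiset.mem_add] at hx'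
    rcases hx' with (hx | hx) | hx
    · exact shf_ok hc.hΦ x hx
    · obtain ⟨m, hm, rfl⟩ := Multiset.mem_map.1 hx
      have h2 := hc.hN m (Multiset.mem_of_le hI hm)
      refine ⟨le_rfl, by norm_num, ?_, ?_⟩
      · change 1 ≤ m - 1
        omega
      · change m - 1 ≤ M
        omega
    · have h1 := Multiset.mem_replicate.1 hx
      have h2 := hμ h1.1
      rw [h1.2]
      exact ⟨by norm_num, le_rfl, h2.1, h2.2⟩

private theorem PeelT_K {M : ℕ} (L : Lens M) (Y : SysL) (w k : ℕ) (hE : Gx L Y w (k + 1))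
    (c : Cf) (hc : c.OK M) {I : Multiset ℕ} (hI : I ≤ c.N) {μ t u : ℕ} (hμ1 : 1 ≤ μ)
    (ht : Multiset.replicate t μ ≤ c.N - I) (hu : u ≤ c.s) (hw : w ≤ t + u)
    (hsum : trT L c.Φ + (I.map L.lo).sum + t + u = Y.F (k + 1))
    (h : Y.K k (PeelT_c c I μ t u)) : Y.K (k + 1) c := by
  have h1 : (c.N - I - Multiset.replicate t μ) + I + Multiset.replicate t μ = c.N := by
    rw [add_right_comm, tsub_add_cancel_of_le ht, tsub_add_cancel_of_le hI]
  have h2 : c.s - u + u = c.s := Nat.sub_add_cancel hu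
  have h3 := Y.step k (c.N - I - Multiset.replicate t μ) I μ t (c.s - u) u c.Φ hμ1
    (fun x hx => (hc.hΦ x hx).2.2.1) (hE (c.Φ.map Prod.fst + I) ?_ (t + u) hw ?_) h
  · rw [h1, h2] at h3
    exact h3
  · intro m hm
    rcases Multiset.mem_add.1 hm with hm | hm
    · obtain ⟨x, hx, rfl⟩ := Multiset.mem_map.1 hm
      exact (hc.hΦ x hx).2.2.2
    · exact (hc.hN m (Multiset.mem_of_le hI hm)).2
  · rw [Multiset.map_add, Multiset.sum_add, Multiset.map_map]
    have h4 : (c.Φ.map (L.lo ∘ Prod.fst)).sum = trT L c.Φ := rfl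
    rw [h4]
    omega

private theorem PeelT_tr {M : ℕ} (L : Lens M) {c : Cf} (hc : c.OK M)
    {I : Multiset ℕ} (hI : I ≤ c.N) (μ t u : ℕ) :
    M * trT L (PeelT_c c I μ t u).Φ ≤ (M - 1) * (trT L c.Φ + (I.map L.lo).sum) +
      M * (t * L.lo μ) := by
  have h1 : trT L (PeelT_c c I μ t u).Φ = trT L (shf c.Φ) +
      trT L (I.map (fun m => (m - 1, 1))) + trT L (Multiset.replicate t (μ, 2)) := by
    unfold PeelT_c
    rw [trT_add, trT_add]
  have h2 : trT L (Multiset.replicate t (μ, 2)) = t * L.lo μ := by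
    unfold trT
    rw [Multiset.map_replicate, Multiset.sum_replicate, smul_eq_mul]
  have h3 := trT_shf L c.Φ (fun x hx => hc.hΦ x hx)
  have h5 : M * trT L (I.map (fun m => (m - 1, 1))) ≤ (M - 1) * (I.map L.lo).sum := by
    have h6 : ∀ m ∈ I, 2 ≤ m ∧ m ≤ M := fun m hm => hc.hN m (Multiset.mem_of_le hI hm)
    clear h1 h2 h3 hI
    unfold trT
    rw [Multiset.map_map]
    induction I using Multiset.induction_on with
    | empty => simp
    | cons m I ih =>
      have ih' := ih fun m' hm' => h6 m' (Multiset.mem_cons_of_mem hm')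
      have h7 := h6 m (Multiset.mem_cons_self m I)
      rw [Multiset.map_cons, Multiset.map_cons, Multiset.sum_cons, Multiset.sum_cons,
        Nat.mul_add, Nat.mul_add]
      have h8 := L.ratioM (c := m - 1) (by omega)
      have h9 : m - 1 + 1 = m := by omega
      rw [h9] at h8
      exact Nat.add_le_add h8 ih'
  rw [h1, h2, Nat.mul_add, Nat.mul_add, Nat.mul_add]
  omega

private theorem PeelT_sumN {M : ℕ} (L : Lens M) (c : Cf) {I : Multiset ℕ} (hI : I ≤ c.N)
    {μ t : ℕ} (ht : Multiset.replicate t μ ≤ c.N - I) :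
    (c.N.map L.hi).sum = ((c.N - I - Multiset.replicate t μ).map L.hi).sum +
      (I.map L.hi).sum + t * L.hi μ := by
  have h1 : c.N = (c.N - I - Multiset.replicate t μ) + I + Multiset.replicate t μ := by
    rw [add_right_comm, tsub_add_cancel_of_le ht, tsub_add_cancel_of_le hI]
  conv_lhs => rw [h1]
  rw [Multiset.map_add, Multiset.map_add, Multiset.sum_add, Multiset.sum_add,
    Multiset.map_replicate, Multiset.sum_replicate, smul_eq_mul]

private theorem PeelT_sz {M : ℕ} (L : Lens M) {c : Cf} (hc : c.OK M)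
    {I : Multiset ℕ} (hI : I ≤ c.N) {μ t u : ℕ} (hμ1 : 1 ≤ μ)
    (ht : Multiset.replicate t μ ≤ c.N - I) (hu : u ≤ c.s) :
    (PeelT_c c I μ t u).sz L + (trT L c.Φ + (I.map L.lo).sum + t + u) = c.sz L := by
  have h1 : flT L (PeelT_c c I μ t u).Φ = flT L (shf c.Φ) +
      flT L (I.map (fun m => (m - 1, 1))) + flT L (Multiset.replicate t (μ, 2)) := by
    unfold PeelT_c
    rw [flT_add, flT_add]
  have h2 : flT L (Multiset.replicate t (μ, 2)) + t = t * L.hi μ := by
    unfold flT
    rw [Multiset.map_replicate, Multiset.sum_replicate, smul_eq_mul]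
    have h3 := L.hi_pos hμ1
    change t * (L.hi μ + 1 - 2) + t = t * L.hi μ
    have h4 : L.hi μ = (L.hi μ + 1 - 2) + 1 := by omega
    conv_rhs => rw [h4]
    ring
  have h3 := flT_shf L c.Φ (fun x hx => hc.hΦ x hx)
  have h5 : flT L (I.map (fun m => (m - 1, 1))) + (I.map L.lo).sum = (I.map L.hi).sum := by
    have h6 : ∀ m ∈ I, 2 ≤ m ∧ m ≤ M := fun m hm => hc.hN m (Multiset.mem_of_le hI hm)
    clear h1 h2 h3 hI ht
    unfold flT
    rw [Multiset.map_map]
    induction I using Multiset.induction_on with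
    | empty => simp
    | cons m I ih =>
      have ih' := ih fun m' hm' => h6 m' (Multiset.mem_cons_of_mem hm')
      have h7 := h6 m (Multiset.mem_cons_self m I)
      rw [Multiset.map_cons, Multiset.map_cons, Multiset.map_cons, Multiset.sum_cons,
        Multiset.sum_cons, Multiset.sum_cons, ← ih']
      have h8 := L.hi_succ (m - 1)
      have h9 : m - 1 + 1 = m := by omega
      rw [h9] at h8
      simp only [Function.comp_apply]
      omega
  have h8 := PeelT_sumN L c hI ht
  have h9 : (PeelT_c c I μ t u).nsz L =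
      ((c.N - I - Multiset.replicate t μ).map L.hi).sum + (c.s - u) := rfl
  have h10 : c.nsz L = (c.N.map L.hi).sum + c.s := rfl
  unfold Cf.sz
  rw [h9, h10]
  omega

private theorem PeelT_sum_le {M : ℕ} {g : ℕ → ℕ} {C : ℕ} {I : Multiset ℕ}
    (hI : ∀ m ∈ I, g m ≤ C) : (I.map g).sum ≤ C * I.card := by
  have _ := M
  induction I using Multiset.induction_on with
  | empty => simp
  | cons m I ih =>
    have ih' := ih fun m' hm' => hI m' (Multiset.mem_cons_of_mem hm')
    have h7 := hI m (Multiset.mem_cons_self m I)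
    rw [Multiset.card_cons, Multiset.map_cons, Multiset.sum_cons, Nat.mul_add, Nat.mul_one]
    omega

private theorem PeelT_card_le {M : ℕ} (L : Lens M) {I : Multiset ℕ}
    (hI : ∀ m ∈ I, 2 ≤ m ∧ m ≤ M) : I.card ≤ (I.map L.lo).sum := by
  induction I using Multiset.induction_on with
  | empty => simp
  | cons m I ih =>
    have ih' := ih fun m' hm' => hI m' (Multiset.mem_cons_of_mem hm')
    have h7 := hI m (Multiset.mem_cons_self m I)
    rw [Multiset.card_cons, Multiset.map_cons, Multiset.sum_cons]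
    have h8 := L.lo_pos (m := m) (by omega) h7.2
    omega

theorem peelL {M : ℕ} (L : Lens M) (hM : 1 ≤ M) (Y : SysL) (w k : ℕ) (hE : Gx L Y w (k + 1))
    (c : Cf) (hc : c.OK M) (I₀ : Multiset ℕ) (hI₀ : I₀ ≤ c.N)
    (hroom : trT L c.Φ + (I₀.map L.lo).sum + w ≤ Y.F (k + 1))
    (hav : L.hi M * (Y.F (k + 1) + g0T L w) + Y.F (k + 1) ≤ c.nsz L) :
    ∃ c' : Cf, c'.OK M ∧ (Y.K k c' → Y.K (k + 1) c) ∧
      M * trT L c'.Φ ≤ (M - 1) * Y.F (k + 1) + M * ((L.lo M + w) * L.lo M) ∧
      c'.sz L + Y.F (k + 1) = c.sz L ∧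
      (c'.s = c.s ∨ c'.N.card < g0T L w) ∧
      c'.N.card ≤ c.N.card ∧
      (c.N.card * L.lo M + trT L c.Φ + w ≤ Y.F (k + 1) → c'.N = 0) ∧
      (c.N = 0 → c'.N = 0 ∧ c'.Φ = shf c.Φ) ∧
      shf c.Φ + I₀.map (fun m => (m - 1, 1)) ≤ c'.Φ ∧ c'.s ≤ c.s := by
  set f := Y.F (k + 1) with hf
  obtain ⟨I, hI1, hI2, hI3, hI4⟩ := exists_maximal_fill c.N I₀ L.lo (f - trT L c.Φ - w) hI₀
    (by omega)
  set ρ := f - trT L c.Φ - (I.map L.lo).sum with hρ
  have hρw : w ≤ ρ := by omega
  have hIN : ∀ m ∈ I, 2 ≤ m ∧ m ≤ M := fun m hm => hc.hN m (Multiset.mem_of_le hI2 hm)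
  have hcard := PeelT_card_le L hIN
  have hlo1 : 1 ≤ L.lo M := L.lo_pos hM le_rfl
  have hg0 : 1 ≤ g0T L w := by
    unfold g0T
    exact Nat.mul_pos (by omega) (by omega)
  have hsub : (c.N - I).card = c.N.card - I.card := Multiset.card_sub hI2
  have hIc : I.card ≤ c.N.card := Multiset.card_le_card hI2
  have hmapI : shf c.Φ + I₀.map (fun m => (m - 1, 1)) ≤
      shf c.Φ + I.map (fun m => (m - 1, 1)) := by
    gcongr
  -- the output (7)
  have hall : c.N.card * L.lo M + trT L c.Φ + w ≤ f → c.N - I = 0 := by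
    intro h
    by_contra hne
    obtain ⟨m, hm⟩ := Multiset.exists_mem_of_ne_zero hne
    have h1 := hI4 m hm
    have hmN := hc.hN m (Multiset.mem_of_le tsub_le_self hm)
    have h2 := L.lo_mono hmN.2 le_rfl
    have h3 : (I.map L.lo).sum ≤ L.lo M * I.card :=
      PeelT_sum_le (M := M) fun m' hm' => L.lo_mono (hIN m' hm').2 le_rfl
    have h4 : 0 < (c.N - I).card := Multiset.card_pos.2 hne
    have h5 : I.card + 1 ≤ c.N.card := by omega
    have h6 : L.lo M * (I.card + 1) ≤ L.lo M * c.N.card := Nat.mul_le_mul_left _ h5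
    rw [Nat.mul_add, Nat.mul_one] at h6
    rw [Nat.mul_comm (L.lo M) c.N.card] at h6
    omega
  by_cases hcase : g0T L w ≤ (c.N - I).card
  · -- case (i)
    have hNI : ∀ m ∈ c.N - I, 1 ≤ m ∧ m ≤ M := by
      intro m hm
      have := hc.hN m (Multiset.mem_of_le tsub_le_self hm)
      omega
    obtain ⟨μ, hμ, hrep⟩ := exists_replicate_le (c.N - I) M (L.lo M + w) hNI hcase hM (by omega)
    have hμ2 := hc.hN μ (Multiset.mem_of_le tsub_le_self hμ)
    have hρle : ρ ≤ L.lo M + w := by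
      have h1 := hI4 μ hμ
      have h2 := L.lo_mono hμ2.2 le_rfl
      omega
    have ht : Multiset.replicate ρ μ ≤ c.N - I :=
      le_trans (Multiset.replicate_le_replicate μ |>.2 hρle) hrep
    have hsum : trT L c.Φ + (I.map L.lo).sum + ρ + 0 = f := by omega
    refine ⟨PeelT_c c I μ ρ 0, PeelT_OK hc hI2 (fun _ => hμ2),
      PeelT_K L Y w k hE c hc hI2 (by omega) ht (Nat.zero_le _) (by omega) hsum,
      ?_, ?_, Or.inl rfl, ?_, ?_, ?_, ?_, Nat.sub_le _ _⟩
    · refine le_trans (PeelT_tr L hc hI2 μ ρ 0) (Nat.add_le_add ?_ ?_)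
      · exact Nat.mul_le_mul_left _ (by omega)
      · apply Nat.mul_le_mul_left
        exact Nat.mul_le_mul hρle (L.lo_mono hμ2.2 le_rfl)
    · have h1 := PeelT_sz L hc hI2 (by omega : 1 ≤ μ) ht (Nat.zero_le c.s)
      rw [hsum] at h1
      exact h1
    · exact Multiset.card_le_card (le_trans tsub_le_self tsub_le_self)
    · intro h
      have h1 := hall h
      rw [h1, Multiset.card_zero] at hcase
      omega
    · intro h
      rw [h] at hcase hsub
      rw [hsub] at hcase
      simp at hcase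
      omega
    · exact le_trans hmapI (Multiset.le_add_right _ _)
  · -- case (ii)
    push Not at hcase
    have hρs : ρ ≤ c.s := by
      have h1 : c.nsz L ≤ L.hi M * c.N.card + c.s := by
        unfold Cf.nsz
        exact Nat.add_le_add_right
          (PeelT_sum_le (M := M) fun m hm => L.hi_mono (hc.hN m hm).2) _
      have h2 : L.hi M * c.N.card ≤ L.hi M * (f + g0T L w) :=
        Nat.mul_le_mul_left _ (by omega)
      omega
    have hsum : trT L c.Φ + (I.map L.lo).sum + 0 + ρ = f := by omega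
    have ht : Multiset.replicate 0 1 ≤ c.N - I := Multiset.zero_le _
    have hNeq : (PeelT_c c I 1 0 ρ).N = c.N - I := by
      change c.N - I - Multiset.replicate 0 1 = c.N - I
      rw [Multiset.replicate_zero, tsub_zero]
    refine ⟨PeelT_c c I 1 0 ρ, PeelT_OK hc hI2 (fun h => absurd rfl h),
      PeelT_K L Y w k hE c hc hI2 le_rfl ht hρs (by omega) hsum,
      ?_, ?_, Or.inr ?_, ?_, ?_, ?_, ?_, Nat.sub_le _ _⟩
    · refine le_trans (PeelT_tr L hc hI2 1 0 ρ) (Nat.add_le_add ?_ ?_)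
      · exact Nat.mul_le_mul_left _ (by omega)
      · rw [zero_mul, mul_zero]
        exact Nat.zero_le _
    · have h1 := PeelT_sz L hc hI2 (le_refl 1) ht hρs
      rw [hsum] at h1
      exact h1
    · rw [hNeq]
      exact hcase
    · rw [hNeq]
      exact Multiset.card_le_card tsub_le_self
    · intro h
      rw [hNeq]
      exact hall h
    · intro h
      have hI0 : I = 0 := by
        rw [h] at hI2
        exact Multiset.le_zero.1 hI2
      refine ⟨?_, ?_⟩
      · rw [hNeq, h, hI0]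
        rfl
      · change shf c.Φ + I.map (fun m => (m - 1, 1)) + Multiset.replicate 0 (1, 2) = shf c.Φ
        rw [hI0]
        simp
    · exact le_trans hmapI (Multiset.le_add_right _ _)

end Pool.Agent.H18.Tj
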