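import Pool.Agent.H18.Tj.PeelT

/-!
# Module M3a (TJ): one step, keeping the invariants (see below; `clean`, `few`, `endA`, `endB` are in PhaseT)

Write `a = lo M`, `b = hi M`, `F = F k`, `w = F / E + 1`; all `E`, `F k ≥ cE L = 64 M (M + 1) (a + 1)^2 (b + 1)`.

`step_inv`: one step from the state `k + 1` to the state `k ≥ 1`, keeping the invariants
`2 M tr ≤ (2 M - 1) F`, `R ≤ sz`.
* room: `2 M (F - tr) ≥ F ≥ 2 M w`, so `tr + w ≤ F` (the hypothesis `hroom` is given for general `I₀`);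
* availability: `nsz = sz - fl ≥ R - M tr ≥ (E - M) F ≥ b (F + g0) + F` since `g0 = M (a + w) ≤ F`, `flT_le`;
* new invariant: `M tr' ≤ (M - 1) F' + M (a + w') a` with `F' = F (k + 1)`, `w' = F' / E + 1`;
  `2 M (a + w') a ≤ F' / 16`, `(2 M - 1) F k ≥ (2 M - 1) F' - F' / 32` by `slow`.

`clean`: `c.N = 0`, `shf^[j] c.Φ = 0`, `j + 1 ≤ k`: by induction on `j`; for `j = 0` the configuration consists
of `sz ≥ R` simple points (`Y.full`).
`few`: if `4 M a * card N ≤ F k` then one step (with `I₀ = 0`) gives `N = 0` (output (7) of `peelL`), then `clean` with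
`j = M` (`shf_iterate`) at the state `k - 1 ≥ M + 1`.
`endA`: by induction on `k`; for `k = M + 2` the hypothesis `hs` says `sz < s`, impossible.  Otherwise one step
to the state `k - 1`; either `s` is unchanged and the induction hypothesis applies, or `card N < g0T L w'`, and
`few` applies: `4 M a * M (a + w') ≤ F (k - 1)` (`F k ≤ 2 F (k - 1)`).
`endB`: by induction on `k`; for `k = M + 2`: `b (card N + s) ≥ nsz ≥ sz - M tr ≥ R + (b + M) R - M F ≥ b R`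
(`F ≤ R`), so `card N + s ≥ R` (`Y.full`).
-/

namespace Pool.Agent.H18.Tj

open Finset Pool.Agent.H18.Ex

variable {M : ℕ} {L : Lens M} {Y : SysL} {E kt : ℕ}

/-- the numerical facts -/
private theorem PhaseA_num (M a b W F E : ℕ) (hM : 1 ≤ M) (ha : 1 ≤ a) (hb : 1 ≤ b)
    (hE : 64 * M * (M + 1) * (a + 1) ^ 2 * (b + 1) ≤ E)
    (hF : 64 * M * (M + 1) * (a + 1) ^ 2 * (b + 1) ≤ F) (hW : W = F / E + 1) :
    4 * M * W ≤ F ∧ M * (a + W) ≤ F ∧ 64 * (M * ((a + W) * a)) ≤ F ∧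
      16 * (M * M * (a * (a + W))) ≤ F ∧ M + 2 * b + 1 ≤ E ∧ 32 * (2 * M) ≤ E := by
  have hW1 : 1 ≤ W := by rw [hW]; exact Nat.le_add_left _ _
  have haW : a + W ≤ 2 * (a * W) := by nlinarith
  have hWF : 32 * M * (M + 1) * (a + 1) ^ 2 * (b + 1) * W ≤ F := by
    have h1 : E * (F / E) ≤ F := Nat.mul_div_le F E
    have h2 : 64 * M * (M + 1) * (a + 1) ^ 2 * (b + 1) * (F / E) ≤ F :=
      (Nat.mul_le_mul_right _ hE).trans h1
    have h3 : 64 * M * (M + 1) * (a + 1) ^ 2 * (b + 1) * (F / E + 1) ≤ 2 * F := by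
      rw [mul_add, mul_one]
      omega
    rw [← hW] at h3
    have h4 : 64 * M * (M + 1) * (a + 1) ^ 2 * (b + 1) * W =
        2 * (32 * M * (M + 1) * (a + 1) ^ 2 * (b + 1) * W) := by ring
    omega
  have ha2 : a ≤ (a + 1) ^ 2 := by nlinarith
  have ha3 : a * a ≤ (a + 1) ^ 2 := by nlinarith
  have ha4 : 1 ≤ (a + 1) ^ 2 := Nat.one_le_pow _ _ (Nat.succ_pos _)
  have hM1 : 1 ≤ M + 1 := Nat.le_add_left _ _
  have hM2 : 2 ≤ M + 1 := by omega
  have hb1 : 1 ≤ b + 1 := Nat.le_add_left _ _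
  have hb2 : 2 ≤ b + 1 := by omega
  refine ⟨?_, ?_, ?_, ?_, ?_, ?_⟩
  · refine le_trans ?_ hWF
    calc 4 * M * W = 4 * M * 1 * 1 * 1 * W := by ring
      _ ≤ 32 * M * (M + 1) * (a + 1) ^ 2 * (b + 1) * W := by
        gcongr
        norm_num
  · refine le_trans ?_ hWF
    calc M * (a + W) ≤ M * (2 * (a * W)) := Nat.mul_le_mul_left _ haW
      _ = 2 * M * 1 * a * 1 * W := by ring
      _ ≤ 32 * M * (M + 1) * (a + 1) ^ 2 * (b + 1) * W := by
        gcongr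
        norm_num
  · refine le_trans ?_ hWF
    calc 64 * (M * ((a + W) * a)) ≤ 64 * (M * ((2 * (a * W)) * a)) := by gcongr
      _ = 32 * M * 2 * (a * a) * 2 * W := by ring
      _ ≤ 32 * M * (M + 1) * (a + 1) ^ 2 * (b + 1) * W := by gcongr
  · refine le_trans ?_ hWF
    calc 16 * (M * M * (a * (a + W))) ≤ 16 * (M * M * (a * (2 * (a * W)))) := by gcongr
      _ = 32 * M * M * (a * a) * 1 * W := by ring
      _ ≤ 32 * M * (M + 1) * (a + 1) ^ 2 * (b + 1) * W := by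
        gcongr
        exact Nat.le_succ M
  · refine le_trans ?_ hE
    have h1 : 64 * M * 2 * 1 * (b + 1) ≤ 64 * M * (M + 1) * (a + 1) ^ 2 * (b + 1) := by gcongr
    have h2 : b + 1 ≤ M * (b + 1) := Nat.le_mul_of_pos_left _ hM
    have h3 : M ≤ M * (b + 1) := Nat.le_mul_of_pos_right _ hb1
    have h4 : 64 * M * 2 * 1 * (b + 1) = 128 * (M * (b + 1)) := by ring
    omega
  · refine le_trans ?_ hE
    calc 32 * (2 * M) = 64 * M * 1 * 1 * 1 := by ring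
      _ ≤ 64 * M * (M + 1) * (a + 1) ^ 2 * (b + 1) := by gcongr

private theorem PhaseA_all (H : NumL L Y E kt) (k : ℕ) (hk : 1 ≤ k) (hkt : k ≤ kt) :
    1 ≤ L.lo M ∧ 1 ≤ L.hi M ∧ 4 * M * (Y.F k / E + 1) ≤ Y.F k ∧
      M * (L.lo M + (Y.F k / E + 1)) ≤ Y.F k ∧
      64 * (M * ((L.lo M + (Y.F k / E + 1)) * L.lo M)) ≤ Y.F k ∧
      16 * (M * M * (L.lo M * (L.lo M + (Y.F k / E + 1)))) ≤ Y.F k ∧
      M + 2 * L.hi M + 1 ≤ E ∧ 32 * (2 * M) ≤ E := by
  have ha := L.lo_pos H.hM le_rfl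
  have hb := ha.trans (L.lo_le_hi M)
  have hE := H.hE
  have hF := H.floor k hk hkt
  unfold cE at hE hF
  exact ⟨ha, hb, PhaseA_num M (L.lo M) (L.hi M) _ _ E H.hM ha hb hE hF rfl⟩

theorem step_inv (H : NumL L Y E kt) (k : ℕ) (hk : 1 ≤ k) (hkt : k + 1 ≤ kt) (c : Cf)
    (hc : c.OK M) (htr : 2 * M * trT L c.Φ ≤ (2 * M - 1) * Y.F (k + 1))
    (hsz : Y.R (k + 1) ≤ c.sz L) (I₀ : Multiset ℕ) (hI₀ : I₀ ≤ c.N)
    (hroom : trT L c.Φ + (I₀.map L.lo).sum + (Y.F (k + 1) / E + 1) ≤ Y.F (k + 1)) :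
    ∃ c' : Cf, c'.OK M ∧ (Y.K k c' → Y.K (k + 1) c) ∧
      2 * M * trT L c'.Φ ≤ (2 * M - 1) * Y.F k ∧ Y.R k ≤ c'.sz L ∧
      c'.sz L + Y.F (k + 1) = c.sz L ∧
      (c'.s = c.s ∨ 4 * M * L.lo M * c'.N.card ≤ Y.F k) ∧
      (4 * M * L.lo M * c.N.card ≤ Y.F (k + 1) → c'.N = 0) ∧
      (c.N = 0 → c'.N = 0 ∧ c'.Φ = shf c.Φ) ∧
      shf c.Φ + I₀.map (fun m => (m - 1, 1)) ≤ c'.Φ ∧ c'.s ≤ c.s := by
  obtain ⟨ha, hb, h1, h2, h3, h4, h5, h6⟩ := PhaseA_all H (k + 1) (by omega) hkt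
  have hM := H.hM
  have hmono := H.mono k hk hkt
  have hslow := H.slow k hk hkt
  have hlow := H.low (k + 1) (by omega) hkt
  have hcount := Y.count k
  have hfl := flT_le L c.Φ hc.hΦ
  have hsz' : c.sz L = c.nsz L + flT L c.Φ := rfl
  have hg0 : g0T L (Y.F (k + 1) / E + 1) = M * (L.lo M + (Y.F (k + 1) / E + 1)) := rfl
  obtain ⟨w, hw⟩ : ∃ w, w = Y.F (k + 1) / E + 1 := ⟨_, rfl⟩
  rw [← hw] at h1 h2 h3 h4 hroom hg0
  obtain ⟨F', hF'⟩ : ∃ F', F' = Y.F (k + 1) := ⟨_, rfl⟩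
  rw [← hF'] at h1 h2 h3 h4 hroom hmono hslow hlow hcount htr
  obtain ⟨F, hF⟩ : ∃ F, F = Y.F k := ⟨_, rfl⟩
  rw [← hF] at hmono hslow
  have htr2 : 2 * M * trT L c.Φ + F' ≤ 2 * M * F' := by
    have e : (2 * M - 1) * F' + F' = 2 * M * F' := by
      rw [← Nat.succ_mul]
      congr 1
      omega
    omega
  have htrF : trT L c.Φ ≤ F' := by omega
  have hav : L.hi M * (Y.F (k + 1) + g0T L w) + Y.F (k + 1) ≤ c.nsz L := by
    rw [← hF', hg0]
    have e1 : L.hi M * (F' + M * (L.lo M + w)) ≤ L.hi M * (2 * F') :=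
      Nat.mul_le_mul_left _ (by omega)
    have e2 : M * trT L c.Φ ≤ M * F' := Nat.mul_le_mul_left _ htrF
    have e3 : (M + 2 * L.hi M + 1) * F' ≤ E * F' := Nat.mul_le_mul_right _ h5
    have e4 : (M + 2 * L.hi M + 1) * F' = M * F' + L.hi M * (2 * F') + F' := by ring
    omega
  obtain ⟨c', hc', hK, htr', hszc, hs, hcard, hN, hN0, hΦ, hss⟩ :=
    peelL L hM Y w k (by rw [hw]; exact H.gd (k + 1) (by omega) hkt) c hc I₀ hI₀
      (by rw [← hF']; exact hroom) hav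
  rw [← hF'] at htr' hszc hN ⊢
  rw [← hF]
  have hslow2 : F' ≤ 2 * F := by
    by_contra hlt
    push Not at hlt
    have e1 : 2 ≤ E := by omega
    have e2 : 2 * (F' - F) ≤ E * (F' - F) := Nat.mul_le_mul_right _ e1
    have e3 : E * (F' - F) = E * F' - E * F := Nat.mul_sub _ _ _
    have e4 : F + (F' - F) = F' := Nat.add_sub_of_le hmono
    omega
  refine ⟨c', hc', hK, ?_, ?_, hszc, ?_, ?_, hN0, hΦ, hss⟩
  · have e1 : E * (F' - F) ≤ F' := by
      rw [Nat.mul_sub]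
      omega
    have e2 : 32 * (2 * M) * (F' - F) ≤ E * (F' - F) := Nat.mul_le_mul_right _ h6
    obtain ⟨d, hd⟩ : ∃ d, F' = F + d := ⟨F' - F, by omega⟩
    have hd' : F' - F = d := by omega
    rw [hd'] at e1 e2
    obtain ⟨m, rfl⟩ : ∃ m, M = m + 1 := ⟨M - 1, by omega⟩
    have e5 : 2 * (m + 1) - 1 = 2 * m + 1 := by omega
    have e6 : m + 1 - 1 = m := by omega
    rw [e5]
    rw [e6] at htr'
    have e7 : 2 * (m + 1) * trT L c'.Φ = 2 * ((m + 1) * trT L c'.Φ) := by ring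
    have e8 : 32 * (2 * (m + 1)) * d = 64 * (m * d) + 64 * d := by ring
    have e9 : m * F' = m * F + m * d := by rw [hd]; ring
    have e10 : (2 * m + 1) * F = 2 * (m * F) + F := by ring
    rw [e7, e10]
    omega
  · omega
  · rcases hs with h | h
    · exact Or.inl h
    · right
      rw [hg0] at h
      have e1 : 4 * M * L.lo M * c'.N.card ≤ 4 * M * L.lo M * (M * (L.lo M + w)) :=
        Nat.mul_le_mul_left _ h.le
      have e2 : 4 * (4 * M * L.lo M * (M * (L.lo M + w))) =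
          16 * (M * M * (L.lo M * (L.lo M + w))) := by ring
      omega
  · intro h
    refine hN ?_
    have e1 : 4 * M * L.lo M * c.N.card = 2 * (2 * M * (c.N.card * L.lo M)) := by ring
    have e2 : 4 * M * w = 2 * (2 * M * w) := by ring
    have e3 : 2 * M * (c.N.card * L.lo M + trT L c.Φ + w) ≤ 2 * M * F' := by
      rw [mul_add, mul_add]
      omega
    exact Nat.le_of_mul_le_mul_left e3 (by omega)

/-- The room for `I₀ = 0`. -/
theorem room_zero (H : NumL L Y E kt) (k : ℕ) (hk : 1 ≤ k) (hkt : k ≤ kt) (t : ℕ)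
    (htr : 2 * M * t ≤ (2 * M - 1) * Y.F k) : t + (Y.F k / E + 1) ≤ Y.F k := by
  obtain ⟨ha, hb, h1, h2, h3, h4, h5, h6⟩ := PhaseA_all H k hk hkt
  have hM := H.hM
  have e : (2 * M - 1) * Y.F k + Y.F k = 2 * M * Y.F k := by
    rw [← Nat.succ_mul]
    congr 1
    omega
  have e2 : 4 * M * (Y.F k / E + 1) = 2 * (2 * M * (Y.F k / E + 1)) := by ring
  have e3 : 2 * M * (t + (Y.F k / E + 1)) ≤ 2 * M * Y.F k := by
    rw [mul_add]
    omega
  exact Nat.le_of_mul_le_mul_left e3 (by omega)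

end Pool.Agent.H18.Tj
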