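import Pool.Agent.H18.Tj.PhaseA

/-!
# Module M3b (TJ): the two endings (`step_inv`, `room_zero` are in PhaseA)

Write `a = lo M`, `b = hi M`, `F = F k`, `w = F / E + 1`; all `E`, `F k ≥ cE L = 64 M (M + 1) (a + 1)^2 (b + 1)`.

`step_inv`: one step from the state `k + 1` to the state `k ≥ 1`, keeping the invariants
`2 M tr ≤ (2 M - 1) F`, `R ≤ sz`.
* room: `2 M (F - tr) ≥ F ≥ 2 M w`, so `tr + w ≤ F` (the hypothesis `hroom` is given for general `I₀`);
* availability: `nsz = sz - fl ≥ R - M tr ≥ (E - M) F ≥ b (F + g0) + F` since `g0 = M (a + w) ≤ F`, `flT_le`;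
* new invariant: `M tr' ≤ (M - 1) F' + M (a + w') a` with `F' = F (k + 1)`, `w' = F' / E + 1`;
  `2 M (a + w') a ≤ F' / 16`, `(2 M - 1) F k ≥ (2 M - 1) F' - F' / 32` by `slow`.

`clean`: `c.N = 0`, `shf^[j] c.Φ = 0`, `j + 1 ≤ k`: by induction on `j`; for `j = 0` the configuration consists
of `sz ≥ R` simple points (`Y.full`).
`few`: if `4 M a * card N ≤ F k` then one step (with `I₀ = 0`) gives `N = 0` (output (7) of `peelL`), then `clean` with
`j = M` (`shf_iterate`) at the state `k - 1 ≥ M + 1`.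
`endA`: by induction on `k`; for `k = M + 2` the hypothesis `hs` says `sz < s`, impossible.  Otherwise one step
to the state `k - 1`; either `s` is unchanged and the induction hypothesis applies, or `card N < g0T L w'`, and
`few` applies: `4 M a * M (a + w') ≤ F (k - 1)` (`F k ≤ 2 F (k - 1)`).
`endB`: by induction on `k`; for `k = M + 2`: `b (card N + s) ≥ nsz ≥ sz - M tr ≥ R + (b + M) R - M F ≥ b R`
(`F ≤ R`), so `card N + s ≥ R` (`Y.full`).
-/

namespace Pool.Agent.H18.Tj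

open Finset Pool.Agent.H18.Ex

variable {M : ℕ} {L : Lens M} {Y : SysL} {E kt : ℕ}

private theorem PhaseT_step0 (H : NumL L Y E kt) (k : ℕ) (hk : 1 ≤ k) (hkt : k + 1 ≤ kt) (c : Cf)
    (hc : c.OK M) (htr : 2 * M * trT L c.Φ ≤ (2 * M - 1) * Y.F (k + 1))
    (hsz : Y.R (k + 1) ≤ c.sz L) :
    ∃ c' : Cf, c'.OK M ∧ (Y.K k c' → Y.K (k + 1) c) ∧
      2 * M * trT L c'.Φ ≤ (2 * M - 1) * Y.F k ∧ Y.R k ≤ c'.sz L ∧
      c'.sz L + Y.F (k + 1) = c.sz L ∧
      (c'.s = c.s ∨ 4 * M * L.lo M * c'.N.card ≤ Y.F k) ∧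
      (4 * M * L.lo M * c.N.card ≤ Y.F (k + 1) → c'.N = 0) ∧
      (c.N = 0 → c'.N = 0 ∧ c'.Φ = shf c.Φ) := by
  obtain ⟨c', h1, h2, h3, h4, h5, h6, h7, h8, -, -⟩ :=
    step_inv H k hk hkt c hc htr hsz 0 (Multiset.zero_le _)
      (by simpa using room_zero H (k + 1) (by omega) hkt (trT L c.Φ) htr)
  exact ⟨c', h1, h2, h3, h4, h5, h6, h7, h8⟩

theorem clean (H : NumL L Y E kt) (j : ℕ) : ∀ k, j + 1 ≤ k → k ≤ kt → ∀ c : Cf, c.OK M → c.N = 0 →
    shf^[j] c.Φ = 0 → 2 * M * trT L c.Φ ≤ (2 * M - 1) * Y.F k → Y.R k ≤ c.sz L → Y.K k c := by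
  induction j with
  | zero =>
    intro k _ _ c _ hN hΦ _ hsz
    have hΦ' : c.Φ = 0 := by simpa using hΦ
    refine Y.full k c.N c.s c.Φ (by simp [hN]) ?_
    have hs : c.sz L = c.s := by simp [Cf.sz, Cf.nsz, hN, hΦ', flT]
    rw [hs] at hsz
    omega
  | succ j ih =>
    intro k hk hkt c hc hN hΦ htr hsz
    obtain ⟨k', rfl⟩ : ∃ k', k = k' + 1 := ⟨k - 1, by omega⟩
    obtain ⟨c', h1, h2, h3, h4, -, -, -, h8⟩ :=
      PhaseT_step0 H k' (by omega) hkt c hc htr hsz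
    obtain ⟨hN', hΦ'⟩ := h8 hN
    refine h2 (ih k' (by omega) (by omega) c' h1 hN' ?_ h3 h4)
    rw [hΦ', ← Function.iterate_succ_apply]
    exact hΦ

theorem few (H : NumL L Y E kt) (k : ℕ) (hk : M + 2 ≤ k) (hkt : k ≤ kt) (c : Cf) (hc : c.OK M)
    (htr : 2 * M * trT L c.Φ ≤ (2 * M - 1) * Y.F k) (hsz : Y.R k ≤ c.sz L)
    (hN : 4 * M * L.lo M * c.N.card ≤ Y.F k) : Y.K k c := by
  obtain ⟨k', rfl⟩ : ∃ k', k = k' + 1 := ⟨k - 1, by omega⟩
  obtain ⟨c', h1, h2, h3, h4, -, -, h7, -⟩ :=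
    PhaseT_step0 H k' (by omega) hkt c hc htr hsz
  exact h2 (clean H M k' (by omega) (by omega) c' h1 (h7 hN) (shf_iterate h1.hΦ) h3 h4)

theorem endA (H : NumL L Y E kt) (k : ℕ) (hk : M + 2 ≤ k) (hkt : k ≤ kt) (c : Cf) (hc : c.OK M)
    (htr : 2 * M * trT L c.Φ ≤ (2 * M - 1) * Y.F k) (hsz : Y.R k ≤ c.sz L)
    (hs : c.sz L + Y.R (M + 2) < c.s + Y.R k) : Y.K k c := by
  induction k, hk using Nat.le_induction generalizing c with
  | base =>
    exfalso
    have h : c.s ≤ c.sz L := by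
      unfold Cf.sz Cf.nsz
      omega
    omega
  | succ k hk ih =>
    obtain ⟨c', h1, h2, h3, h4, h5, h6, -, -⟩ :=
      PhaseT_step0 H k (by omega) hkt c hc htr hsz
    have hcount := Y.count k
    rcases h6 with h6 | h6
    · exact h2 (ih (by omega) c' h1 h3 h4 (by omega))
    · exact h2 (few H k hk (by omega) c' h1 h3 h4 h6)

theorem endB (H : NumL L Y E kt) (k : ℕ) (hk : M + 2 ≤ k) (hkt : k ≤ kt) (c : Cf) (hc : c.OK M)
    (htr : 2 * M * trT L c.Φ ≤ (2 * M - 1) * Y.F k)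
    (hsz : Y.R k + (L.hi M + M) * Y.R (M + 2) ≤ c.sz L) : Y.K k c := by
  induction k, hk using Nat.le_induction generalizing c with
  | base =>
    refine Y.full (M + 2) c.N c.s c.Φ (fun m hm => le_trans (by norm_num) (hc.hN m hm).1) ?_
    have hM := H.hM
    have hb : 1 ≤ L.hi M := L.hi_pos hM
    have hE1 : 1 ≤ E := by
      refine le_trans ?_ H.hE
      have h0 : 0 < cE L := by
        unfold cE
        positivity
      exact h0
    have hFR : Y.F (M + 2) ≤ Y.R (M + 2) :=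
      le_trans (Nat.le_mul_of_pos_left _ hE1) (H.low (M + 2) (by omega) hkt)
    have hT : trT L c.Φ ≤ Y.F (M + 2) := by
      have h1 : (2 * M) * trT L c.Φ ≤ (2 * M) * Y.F (M + 2) :=
        le_trans htr (Nat.mul_le_mul_right _ (Nat.sub_le _ _))
      exact Nat.le_of_mul_le_mul_left h1 (by omega)
    have hfl : flT L c.Φ ≤ M * Y.R (M + 2) :=
      le_trans (flT_le L c.Φ hc.hΦ) (Nat.mul_le_mul_left _ (hT.trans hFR))
    have hN : (c.N.map L.hi).sum ≤ L.hi M * c.N.card := by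
      have h1 : (c.N.map L.hi).sum ≤ (c.N.map L.hi).card • L.hi M := by
        refine Multiset.sum_le_card_nsmul _ _ ?_
        intro x hx
        obtain ⟨m, hm, rfl⟩ := Multiset.mem_map.1 hx
        exact L.hi_mono (hc.hN m hm).2
      rw [Multiset.card_map, smul_eq_mul, mul_comm] at h1
      exact h1
    have hsum : Y.R (M + 2) + (L.hi M + M) * Y.R (M + 2) ≤
        L.hi M * c.N.card + c.s + M * Y.R (M + 2) := by
      refine le_trans hsz ?_
      unfold Cf.sz Cf.nsz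
      omega
    have h2 : L.hi M * Y.R (M + 2) ≤ L.hi M * (c.N.card + c.s) := by
      have h3 : c.s ≤ L.hi M * c.s := Nat.le_mul_of_pos_left _ hb
      nlinarith
    exact Nat.le_of_mul_le_mul_left h2 hb
  | succ k hk ih =>
    obtain ⟨c', h1, h2, h3, h4, h5, -, -, -⟩ :=
      PhaseT_step0 H k (by omega) hkt c hc htr (le_trans (Nat.le_add_right _ _) hsz)
    have hcount := Y.count k
    exact h2 (ih (by omega) c' h1 h3 (by omega))

end Pool.Agent.H18.Tj
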