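import Pool.Agent.H18.Tj.ThinS
import Pool.Agent.H18.Ex.Base

/-!
# Module T5b (TJ): near-exactness if all coordinates other than `h`, `c` are thin

`kT q θ V n = (4 θ²)^n zT q θ V`; `n` bounds the number of the active coordinates other than `h`, `c`.

`thin_step`: let `y ≠ h, c`, `ℓ = w y + 1 ≤ θ`, `w' = update w y 0`, `V = M ^ q` (`Lx_le_pow`).  Remove the zeros of
`S`.  If `card ≤ x` use `GM.of_card`.  Otherwise drop superfluous points (`exists_drop`, see
`Pool/Agent/H18/Pr/MainN.lean`): `card ≤ ∑ Lx w + x ≤ card + V`.  Write `S` as the family `μ : Fin k → ℕ` (`1 ≤ μ j ≤ M`).  The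
layers `s < ℓ` are `Rg (σ - s) w'` (`lyr_Rg`, `s ≤ θ ≤ σ`), of sizes `β s`, `∑ β s = card` (`cnt_layer`),
`β s ≤ β t + θ ^ (q + 1)` (`cnt_thin` at most `ℓ` times for `w'`; `cnt_mono`).  `W j i = Lx w' (μ j - i)` is decreasing and
convex (`Lx_mono`, `Lx_convex`; `M ≤ w h`, `M ≤ w c`), `∑_{t<ℓ} W j t = Lx w (μ j)` (`Lx_layer`).  `assign` gives the cells
`u j`; `L s = ∑_j W j (rk ℓ (u j) 0 s)`, `∑_s L s = ∑_j Lx w (μ j)` (`rk` is a permutation of `range ℓ`: `rk_lt`, `rk_inj`),
`k ≤ ∑ L s` (`Lx_pos`).  `distribute` gives `xs`.  Apply `layers` to the family of the points `j` (cell `u j`) and of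
the simple points (`xs u` of them in the cell `u`, `u < ℓ`; load `1 - rk ℓ u 0 s`, which is `1` iff `s = u`).  On the
layer `s` the hypothesis `ih` (with `S_s = {μ j - rk ℓ (u j) 0 s}`, `x = xs s`) gives `GM`, hence `GI` of the family
(`GM_iff`, `GI.of_comp`: the simple points of the other cells carry the empty condition `free 0`).

`thin`: induction on `n`.  If there is an active `y ≠ h, c` use `thin_step` (`w'` has one thin active coordinate
less), otherwise `base_one` (`Pool/Agent/H18/Ex/Base.lean`; exactly `h`, `c` are active) with `ell 1 m = m`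
(`base_ell_one`) and `Lx_two`.
-/

namespace Pool.Agent.H18.Tj

open Finset Function Pool.Agent.H18.Ex Pool.Agent.H18.Ta

variable {ι : Type} [Fintype ι] [DecidableEq ι]

/-- The constants. -/
def kT (q θ V n : ℕ) : ℕ := (4 * θ ^ 2) ^ n * zT q θ V

private theorem Thin_base {M : ℕ} (hM : 1 ≤ M) {h c : ι} (hhc : h ≠ c) {w : ι → ℕ} {σ : ℕ}
    (hMh : M ≤ w h) (hMc : M ≤ w c) (h0 : ∀ i, i ≠ h → i ≠ c → w i = 0)
    (S : Multiset ℕ) (hS : ∀ m ∈ S, m ≤ M) (x : ℕ)
    (hsum : (Rg σ w).card ≤ (S.map (Lx w)).sum + x) :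
    GM (Rg σ w) ((S + Multiset.replicate x 1).map Kind.free) := by
  have hcard : (univ.filter fun i => 0 < w i).card = 2 := by
    have h1 : (univ.filter fun i => 0 < w i) = {h, c} := by
      ext i
      rw [mem_filter, mem_insert, mem_singleton]
      constructor
      · rintro ⟨_, hi⟩
        by_contra hcon
        push Not at hcon
        rw [h0 i hcon.1 hcon.2] at hi
        exact absurd hi (lt_irrefl 0)
      · rintro (rfl | rfl)
        · exact ⟨mem_univ _, by omega⟩
        · exact ⟨mem_univ _, by omega⟩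
    rw [h1, card_pair hhc]
  refine base_one M σ w hcard _ ?_ ?_
  · intro m hm
    rcases Multiset.mem_add.1 hm with h1 | h1
    · exact hS m h1
    · rw [Multiset.eq_of_mem_replicate h1]
      exact hM
  · refine hsum.trans (le_of_eq ?_)
    rw [Multiset.map_add, Multiset.sum_add, Multiset.map_replicate, Multiset.sum_replicate,
      base_ell_one, smul_eq_mul, mul_one]
    congr 2
    refine Multiset.map_congr rfl fun m hm => ?_
    have h1 := hS m hm
    rw [base_ell_one, Lx_two hhc h0 (by omega) (by omega)]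

theorem thin {q M θ : ℕ} (hq : Fintype.card ι ≤ q) (hM : 1 ≤ M) (h c : ι) (hhc : h ≠ c) (n : ℕ) :
    ∀ (w : ι → ℕ) (σ : ℕ), (univ.filter fun i => i ≠ h ∧ i ≠ c ∧ 0 < w i).card ≤ n →
    σ ≤ w h → (n + 1) * θ ≤ σ → M ≤ w h → M ≤ w c → 1 ≤ w h → 1 ≤ w c →
    (∀ i, i ≠ h → i ≠ c → w i < θ) →
    ∀ S : Multiset ℕ, (∀ m ∈ S, m ≤ M) → ∀ x : ℕ,
      kT q θ (M ^ q) n * ((Rg σ w).card + 1) ≤ x ^ 2 →
      (Rg σ w).card ≤ (S.map (Lx w)).sum + x →
      GM (Rg σ w) ((S + Multiset.replicate x 1).map Kind.free) := by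
  induction n with
  | zero =>
    intro w σ hn _ _ hMh hMc _ _ _ S hS x _ hsum
    refine Thin_base hM hhc hMh hMc ?_ S hS x hsum
    intro i hi1 hi2
    by_contra hcon
    have h1 : i ∈ univ.filter fun i => i ≠ h ∧ i ≠ c ∧ 0 < w i :=
      mem_filter.2 ⟨mem_univ _, hi1, hi2, by omega⟩
    have h2 : 0 < (univ.filter fun i => i ≠ h ∧ i ≠ c ∧ 0 < w i).card := card_pos.2 ⟨i, h1⟩
    omega
  | succ n ih =>
    intro w σ hn hσ hθσ hMh hMc h1h h1c hthin S hS x hx hsum
    by_cases hact : ∃ y, y ≠ h ∧ y ≠ c ∧ 0 < w y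
    · obtain ⟨y, hyh, hyc, hy0⟩ := hact
      have hyθ := hthin y hyh hyc
      have hexp : (n + 1 + 1) * θ = (n + 1) * θ + θ := by ring
      have hθσ' : θ ≤ σ := by
        have h2 : 0 ≤ (n + 1) * θ := Nat.zero_le _
        omega
      have hw'h : update w y 0 h = w h := update_of_ne (Ne.symm hyh) _ _
      have hw'c : update w y 0 c = w c := update_of_ne (Ne.symm hyc) _ _
      have hkT : kT q θ (M ^ q) (n + 1) = 4 * θ ^ 2 * kT q θ (M ^ q) n := by
        unfold kT
        ring
      refine thin_step (K' := kT q θ (M ^ q) n) hq hM h c y hhc hyh hyc w σ hσ hθσ' hMh hMc hthin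
        ?_ S hS x ?_ ?_ hsum
      · intro s hs S' hS' x' hx' hsum'
        refine ih (update w y 0) (σ - s) ?_ ?_ ?_ ?_ ?_ ?_ ?_ ?_ S' hS' x' hx' hsum'
        · have h2 : (univ.filter fun i => i ≠ h ∧ i ≠ c ∧ 0 < update w y 0 i) ⊆
              (univ.filter fun i => i ≠ h ∧ i ≠ c ∧ 0 < w i).erase y := by
            intro i hi
            obtain ⟨_, h3, h4, h5⟩ := mem_filter.1 hi
            have hiy : i ≠ y := by
              rintro rfl
              rw [update_self] at h5
              exact absurd h5 (lt_irrefl 0)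
            rw [update_of_ne hiy] at h5
            exact mem_erase.2 ⟨hiy, mem_filter.2 ⟨mem_univ _, h3, h4, h5⟩⟩
          have h3 := card_le_card h2
          rw [card_erase_of_mem (mem_filter.2 ⟨mem_univ _, hyh, hyc, hy0⟩)] at h3
          omega
        · rw [hw'h]
          omega
        · omega
        · rw [hw'h]
          exact hMh
        · rw [hw'c]
          exact hMc
        · rw [hw'h]
          exact h1h
        · rw [hw'c]
          exact h1c
        · intro i hi1 hi2
          by_cases hiy : i = y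
          · rw [hiy, update_self]
            omega
          · rw [update_of_ne hiy]
            exact hthin i hi1 hi2
      · refine le_trans (Nat.mul_le_mul_right _ ?_) hx
        unfold kT
        refine Nat.le_mul_of_pos_left _ ?_
        have hθ1 : 0 < θ := by omega
        positivity
      · rw [← hkT]
        exact hx
    · push Not at hact
      refine Thin_base hM hhc hMh hMc ?_ S hS x hsum
      intro i hi1 hi2
      have := hact i hi1 hi2
      omega

end Pool.Agent.H18.Tj
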