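import Pool.Agent.H18.Tj.NumT
import Pool.Agent.H18.Tj.MainT

/-!
# Module C6 (TJ): exactness for two free coordinates and one long coordinate

`h`, `l` are free (`w h = w l = d`), `w u ≥ D`.  `m0 = 0`, `k0 = D' + kQ q M E'`, `kt = d - k0`: the state `kt` of
`sysT l w 0 k0` is `Rg (0 + d) (update w l d) = Rg d w`.  `exact_of_num`: `R (M + 2) ≤ (k0 + M + 3) ^ q`
(`cnt_le_pow`), `hi M ≤ M ^ (q + 1)`, `cE L ≤ cQ q M` and `F kt = c(d, w') ≥ w u ≥ D` (`cnt_ge`, `w u ≤ d` or truncate: use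
`b = min (w u) d`).  `L.hi m = Lx w m` for `m ≤ M`.
-/

namespace Pool.Agent.H18.Tj

open Finset Function Pool.Agent.H18.Ex

variable {ι : Type} [Fintype ι] [DecidableEq ι]

/-- The bound. -/
def dT (q M E' D' : ℕ) : ℕ :=
  cQ q M * ((D' + kQ q M E' + M + 3) ^ q + M ^ (q + 1) + 1) + D' + kQ q M E' + 2 * M + 4

theorem exact_top {q M E' D' : ℕ} (hq : Fintype.card ι ≤ q) (hM : 1 ≤ M) (l h u : ι)
    (hlh : h ≠ l) (hul : u ≠ l) (huh : h ≠ u) (w : ι → ℕ) (d : ℕ) (hh : w h = d) (hl : w l = d)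
    (hE' : cQ q M ≤ E') (hu : dT q M E' D' ≤ w u) (hd : dT q M E' D' ≤ d)
    (hex : ∀ σ, D' ≤ σ → σ ≤ d → ∀ x₀, (Rg σ (update w l 0)).card ≤ E' * x₀ →
      NE M x₀ σ (update w l 0))
    (S : Multiset ℕ) (hS : ∀ m ∈ S, m ≤ M) (hsum : (Rg d w).card ≤ (S.map (Lx w)).sum) :
    GM (Rg d w) (S.map Kind.free) := by
  -- numbers
  have hb1 : cQ q M * ((D' + kQ q M E' + M + 3) ^ q + M ^ (q + 1) + 1) ≤ dT q M E' D' := by
    unfold dT
    omega
  have hb2 : D' + kQ q M E' + 2 * M + 4 ≤ dT q M E' D' := by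
    unfold dT
    omega
  have hb3 : cQ q M ≤ dT q M E' D' := by
    refine le_trans ?_ hb1
    exact Nat.le_mul_of_pos_right _ (by omega)
  obtain ⟨k0, hk0⟩ : ∃ k0, k0 = D' + kQ q M E' := ⟨_, rfl⟩
  obtain ⟨kt, hkt⟩ : ∃ kt, k0 + kt = d := ⟨d - k0, by omega⟩
  have e1 : update w l 0 h = d := by rw [update_of_ne hlh, hh]
  have e2 : update w l 0 u = w u := update_of_ne hul _ _
  have h1 : M ≤ update w l 0 h := by rw [e1]; omega
  have h2 : M ≤ update w l 0 u := by rw [e2]; omega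
  have e0 : update w l d = w := by rw [← hl, update_eq_self]
  have H := num_sysT hq hM l h u hlh hul huh w 0 k0 kt hE' (by omega) (by omega) (by omega) h1 h2
    (by
      intro k hk1 hk2 x₀ hx
      exact hex (0 + k) (by omega) (by omega) x₀ hx)
  have hhi : ∀ m ≤ M, (lensOf M (update w l 0) h u huh h1 h2).hi m = Lx w m := by
    intro m hm
    exact Lx_sum l w m (by omega)
  have hR : ∀ j, (sysT l w 0 k0).R j = (Rg (0 + (k0 + j)) (update w l (k0 + j))).card :=
    fun _ => rfl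
  have hF : ∀ j, (sysT l w 0 k0).F j = (Rg (0 + (k0 + j)) (update w l 0)).card := fun _ => rfl
  have hRkt : (sysT l w 0 k0).R kt = (Rg d w).card := by
    rw [hR, hkt, e0, zero_add]
  have hFkt : (sysT l w 0 k0).F kt = (Rg d (update w l 0)).card := by
    rw [hF, hkt, zero_add]
  have hC : cE (lensOf M (update w l 0) h u huh h1 h2) *
      ((sysT l w 0 k0).R (M + 2) + (lensOf M (update w l 0) h u huh h1 h2).hi M + 1) ≤
      (sysT l w 0 k0).F kt := by
    have h3 := cE_le hM hq (update w l 0) h u huh h1 h2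
    have h4 : (sysT l w 0 k0).R (M + 2) ≤ (D' + kQ q M E' + M + 3) ^ q := by
      rw [hR]
      have h5 := cnt_le_pow (σ := 0 + (k0 + (M + 2))) (w := update w l (k0 + (M + 2))) hq
      rw [show 0 + (k0 + (M + 2)) + 1 = D' + kQ q M E' + M + 3 by omega] at h5
      exact h5
    have h5 : (lensOf M (update w l 0) h u huh h1 h2).hi M ≤ M ^ (q + 1) := by
      rw [hhi M le_rfl]
      have h6 := Lx_le_pow (w := w) hq ⟨h⟩ (le_refl M) hM
      refine h6.trans ?_
      exact Nat.pow_le_pow_right hM (by omega)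
    rw [hFkt]
    have h6 := cnt_ge (σ := d) (b := min (w u) d) (w := update w l 0) huh (by rw [e1])
      (by rw [e2]; exact min_le_left _ _) (min_le_right _ _)
    have h7 : dT q M E' D' ≤ min (w u) d := le_min hu hd
    calc _ ≤ cQ q M * ((D' + kQ q M E' + M + 3) ^ q + M ^ (q + 1) + 1) :=
          Nat.mul_le_mul h3 (by omega)
      _ ≤ dT q M E' D' := hb1
      _ ≤ _ := by omega
  have hmain := exact_of_num H (by omega) hC S hS (by
    rw [hRkt]
    refine hsum.trans (le_of_eq ?_)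
    congr 1
    exact Multiset.map_congr rfl fun m hm => (hhi m (hS m hm)).symm)
  have hK : GM (Rg (0 + (k0 + kt)) (update w l (k0 + kt))) ((⟨S, 0, 0⟩ : Cf).kinds l) := hmain
  rw [hkt, e0, zero_add] at hK
  have hk : (⟨S, 0, 0⟩ : Cf).kinds l = S.map Kind.free := by
    unfold Cf.kinds
    simp
  rw [hk] at hK
  exact hK

end Pool.Agent.H18.Tj
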