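import Pool.Agent.H18.Tj.NearA
import Pool.Agent.H18.Tj.TopT
import Pool.Agent.H18.Tj.Thin

/-!
# Module T6a (TJ): the bounds are polynomial

Unfold the definitions and use `PolyB.const`, `.id`, `.add`, `.mul`, `.pow`, `.le` of
`Pool/Agent/H18/Pr/PolyBL.lean`.
-/

namespace Pool.Agent.H18.Tj

open Finset Function Pool.Agent.H18.Ex Pool.Agent.H18.Pr

theorem polyB_cQ (q : ℕ) : PolyB fun M => cQ q M := by
  unfold cQ
  exact (((((PolyB.const 64).mul PolyB.id).mul (PolyB.id.add (PolyB.const 1))).mul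
    (((PolyB.id.pow q).add (PolyB.const 1)).pow 2)).mul
    ((PolyB.id.pow (q + 1)).add (PolyB.const 1)))

theorem polyB_kQ (q : ℕ) {E : ℕ → ℕ} (hE : PolyB E) : PolyB fun M => kQ q M (E M) := by
  unfold kQ
  exact ((((PolyB.const (8 * q)).mul hE).add ((PolyB.const 4).mul hE)).add (polyB_cQ q)).add
    PolyB.id

theorem polyB_dA (q : ℕ) {E E' D' : ℕ → ℕ} (hE : PolyB E) (hE' : PolyB E') (hD' : PolyB D') :
    PolyB fun M => dA q M (E M) (E' M) (D' M) := by
  have hk := polyB_kQ q hE'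
  unfold dA
  exact (((((PolyB.const (2 * q + 1)).mul (((PolyB.const 2).mul hE).mul
    (((hD'.add hk).add PolyB.id).add (PolyB.const 4)))).add hD').add hk).add
    ((PolyB.const 2).mul PolyB.id)).add (PolyB.const 4)

theorem polyB_kT (q n : ℕ) {θ V : ℕ → ℕ} (hθ : PolyB θ) (hV : PolyB V) :
    PolyB fun M => kT q (θ M) (V M) n := by
  unfold kT zT
  exact (((PolyB.const 4).mul (hθ.pow 2)).pow n).mul
    ((PolyB.const 12).mul (((hV.pow 2).add ((hθ.pow 2).mul ((hθ.pow (q + 1)).pow 2))).add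
      (((PolyB.const 1).add hV).mul ((hθ.pow 3).mul (hV.pow 2)))))

theorem polyB_dT (q : ℕ) {E' D' : ℕ → ℕ} (hE' : PolyB E') (hD' : PolyB D') :
    PolyB fun M => dT q M (E' M) (D' M) := by
  have hk := polyB_kQ q hE'
  have hc := polyB_cQ q
  unfold dT
  exact ((((hc.mul ((((((hD'.add hk).add PolyB.id).add (PolyB.const 3)).pow q).add
    (PolyB.id.pow (q + 1))).add (PolyB.const 1))).add hD').add hk).add
    ((PolyB.const 2).mul PolyB.id)).add (PolyB.const 4)

end Pool.Agent.H18.Tj
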