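import Pool.Agent.H18.Tj.LxL
import Pool.Agent.H18.Tj.Layer
import Pool.Agent.H18.Tj.Online
import Pool.Agent.H18.Tj.Load
import Pool.Agent.H18.Ex.Main

/-!
# Module T5a (TJ): near-exactness if all coordinates other than `h`, `c` are thin

`kT q θ V n = (4 θ²)^n zT q θ V`; `n` bounds the number of the active coordinates other than `h`, `c`.

`thin_step`: let `y ≠ h, c`, `ℓ = w y + 1 ≤ θ`, `w' = update w y 0`, `V = M ^ q` (`Lx_le_pow`).  Remove the zeros of
`S`.  If `card ≤ x` use `GM.of_card`.  Otherwise drop superfluous points (`exists_drop`, see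
`Pool/Agent/H18/Pr/MainN.lean`): `card ≤ ∑ Lx w + x ≤ card + V`.  Write `S` as the family `μ : Fin k → ℕ` (`1 ≤ μ j ≤ M`).  The
layers `s < ℓ` are `Rg (σ - s) w'` (`lyr_Rg`, `s ≤ θ ≤ σ`), of sizes `β s`, `∑ β s = card` (`cnt_layer`),
`β s ≤ β t + θ ^ (q + 1)` (`cnt_thin` at most `ℓ` times for `w'`; `cnt_mono`).  `W j i = Lx w' (μ j - i)` is decreasing and
convex (`Lx_mono`, `Lx_convex`; `M ≤ w h`, `M ≤ w c`), `∑_{t<ℓ} W j t = Lx w (μ j)` (`Lx_layer`).  `assign` gives the cells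
`u j`; `L s = ∑_j W j (rk ℓ (u j) 0 s)`, `∑_s L s = ∑_j Lx w (μ j)` (`rk` is a permutation of `range ℓ`: `rk_lt`, `rk_inj`),
`k ≤ ∑ L s` (`Lx_pos`).  `distribute` gives `xs`.  Apply `layers` to the family of the points `j` (cell `u j`) and of
the simple points (`xs u` of them in the cell `u`, `u < ℓ`; load `1 - rk ℓ u 0 s`, which is `1` iff `s = u`).  On the
layer `s` the hypothesis `ih` (with `S_s = {μ j - rk ℓ (u j) 0 s}`, `x = xs s`) gives `GM`, hence `GI` of the family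
(`GM_iff`, `GI.of_comp`: the simple points of the other cells carry the empty condition `free 0`).

`thin`: induction on `n`.  If there is an active `y ≠ h, c` use `thin_step` (`w'` has one thin active coordinate
less), otherwise `base_one` (`Pool/Agent/H18/Ex/Base.lean`; exactly `h`, `c` are active) with `ell 1 m = m`
(`base_ell_one`) and `Lx_two`.
-/

namespace Pool.Agent.H18.Tj

open Finset Function Pool.Agent.H18.Ex Pool.Agent.H18.Ta

variable {ι : Type} [Fintype ι] [DecidableEq ι]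

/-- the ranks permute the layers -/
private theorem ThinS_rk {ℓ u : ℕ} (hu : u < ℓ) (W : ℕ → ℕ) :
    ∑ s ∈ range ℓ, W (Ta.rk ℓ u 0 s) = ∑ t ∈ range ℓ, W t := by
  have hmaps : Set.MapsTo (fun s => Ta.rk ℓ u 0 s) (range ℓ : Set ℕ) (range ℓ : Set ℕ) := by
    intro s hs
    rw [mem_coe, mem_range] at hs ⊢
    exact rk_lt (by omega) hs
  have hinj : Set.InjOn (fun s => Ta.rk ℓ u 0 s) (range ℓ : Set ℕ) := by
    intro s hs t ht he
    rw [mem_coe, mem_range] at hs ht
    exact rk_inj (by omega) hs ht he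
  exact sum_nbij (fun s => Ta.rk ℓ u 0 s) hmaps hinj
    (surjOn_of_injOn_of_card_le _ hmaps hinj le_rfl) fun _ _ => rfl

private theorem ThinS_rk_self (ℓ s : ℕ) : Ta.rk ℓ s 0 s = 0 := by
  unfold Ta.rk
  split_ifs <;> omega

private theorem ThinS_grow {h c : ι} (hc : h ≠ c) {τ θ q : ℕ} {w : ι → ℕ} (hq : Fintype.card ι ≤ q)
    (hθ : 1 ≤ θ) (hthin : ∀ i, i ≠ h → i ≠ c → w i < θ) (d : ℕ) (hh : τ + d ≤ w h) :
    (Rg (τ + d) w).card ≤ (Rg τ w).card + d * θ ^ q := by
  induction d with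
  | zero => simp
  | succ d ih =>
    have h1 := ih (by omega)
    have h2 := cnt_thin hc (σ := τ + d) hq (by omega) hθ hthin
    have h3 : τ + (d + 1) = τ + d + 1 := by ring
    rw [h3]
    have h4 : (d + 1) * θ ^ q = d * θ ^ q + θ ^ q := by ring
    omega

private theorem ThinS_const {κ : Type} [Fintype κ] {X : Type} (a : X) :
    (univ : Finset κ).val.map (fun _ => a) = Multiset.replicate (Fintype.card κ) a := by
  rw [Multiset.map_const', Finset.card_val, Finset.card_univ]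

theorem thin_step {q M θ K' : ℕ} (hq : Fintype.card ι ≤ q) (hM : 1 ≤ M) (h c y : ι)
    (hhc : h ≠ c) (hyh : y ≠ h) (hyc : y ≠ c) (w : ι → ℕ) (σ : ℕ) (hσ : σ ≤ w h) (hθσ : θ ≤ σ)
    (hMh : M ≤ w h) (hMc : M ≤ w c) (hthin : ∀ i, i ≠ h → i ≠ c → w i < θ)
    (ih : ∀ s < w y + 1, ∀ S : Multiset ℕ, (∀ m ∈ S, m ≤ M) → ∀ x : ℕ,
      K' * ((Rg (σ - s) (update w y 0)).card + 1) ≤ x ^ 2 →
      (Rg (σ - s) (update w y 0)).card ≤ (S.map (Lx (update w y 0))).sum + x →
      GM (Rg (σ - s) (update w y 0)) ((S + Multiset.replicate x 1).map Kind.free))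
    (S : Multiset ℕ) (hS : ∀ m ∈ S, m ≤ M) (x : ℕ)
    (hx1 : zT q θ (M ^ q) * ((Rg σ w).card + 1) ≤ x ^ 2)
    (hx2 : 4 * θ ^ 2 * K' * ((Rg σ w).card + 1) ≤ x ^ 2)
    (hsum : (Rg σ w).card ≤ (S.map (Lx w)).sum + x) :
    GM (Rg σ w) ((S + Multiset.replicate x 1).map Kind.free) := by
  have hyθ : w y < θ := hthin y hyh hyc
  have hθ1 : 1 ≤ θ := by omega
  have hne : Nonempty ι := ⟨h⟩
  obtain ⟨w', hw'⟩ : ∃ w', w' = update w y 0 := ⟨_, rfl⟩
  rw [← hw'] at ih
  have hw'h : w' h = w h := by rw [hw', update_of_ne (Ne.symm hyh)]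
  have hw'c : w' c = w c := by rw [hw', update_of_ne (Ne.symm hyc)]
  have hthin' : ∀ i, i ≠ h → i ≠ c → w' i < θ := by
    intro i hi1 hi2
    rw [hw']
    by_cases hiy : i = y
    · rw [hiy, update_self]
      omega
    · rw [update_of_ne hiy]
      exact hthin i hi1 hi2
  obtain ⟨ℓ, hℓ⟩ : ∃ ℓ, ℓ = w y + 1 := ⟨_, rfl⟩
  have hℓ1 : 1 ≤ ℓ := by omega
  have hℓθ : ℓ ≤ θ := by omega
  rw [← hℓ] at ih
  -- many simple points
  rcases Nat.lt_or_ge x (Rg σ w).card with hxc | hxc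
  swap
  · have h1 := GM.of_card (Rg σ w) (Multiset.replicate x 1) (S.map Kind.free)
      (fun m hm => (Multiset.eq_of_mem_replicate hm).ge)
      (by rw [Multiset.card_replicate]; exact hxc)
    rw [Multiset.map_add, add_comm]
    exact h1
  -- drop the superfluous points
  obtain ⟨S₁, hS₁, hs1, hs2, hS₁pos⟩ := exists_drop (Lx w) (M ^ q) ((Rg σ w).card - x) S
    (fun m hm => Lx_le_pow hq hne (hS m hm) hM) (by omega)
  refine GM.mono (Multiset.map_le_map (add_le_add_left hS₁ (Multiset.replicate x 1))) ?_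
  have hS₁M : ∀ m ∈ S₁, m ≤ M := fun m hm => hS m (Multiset.mem_of_le hS₁ hm)
  obtain ⟨k, μ, hμ⟩ := multi_exists_fin S₁
  have hμM : ∀ j, μ j ≤ M := by
    intro j
    apply hS₁M
    rw [← hμ]
    exact Multiset.mem_map.2 ⟨j, (by rw [Finset.mem_val]; exact Finset.mem_univ _), rfl⟩
  have hμpos : ∀ j, 0 < Lx w (μ j) := by
    intro j
    apply hS₁pos
    rw [← hμ]
    exact Multiset.mem_map.2 ⟨j, (by rw [Finset.mem_val]; exact Finset.mem_univ _), rfl⟩
  have hsumS : (S₁.map (Lx w)).sum = ∑ j, Lx w (μ j) := by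
    rw [← hμ, Multiset.map_map]
    rfl
  rw [hsumS] at hs1 hs2
  -- the assignment of the points
  obtain ⟨u, hu, hdev⟩ := assign ℓ (M ^ q) hℓ1 k (fun j i => Lx w' (μ j - i))
    (fun j i => Lx_mono (h := h) (M := M) (by rw [hw'h]; exact hMh) (by omega)
      ((Nat.sub_le _ _).trans (hμM j)))
    (fun j i => by
      rcases Nat.lt_or_ge (μ j - i) 2 with h2 | h2
      · have e1 : μ j - (i + 1) = 0 := by omega
        rw [e1, Lx_zero]
        omega
      · have h3 := Lx_convex hhc (w := w') (M := M) (by rw [hw'h]; exact hMh)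
          (by rw [hw'c]; exact hMc) (μ j - i - 2) (by have := hμM j; omega)
        have e1 : μ j - (i + 1) = μ j - i - 2 + 1 := by omega
        have e2 : μ j - (i + 2) = μ j - i - 2 := by omega
        have e3 : μ j - i = μ j - i - 2 + 2 := by omega
        rw [e1, e2]
        rw [← e3] at h3
        linarith)
    (fun j => by
      rw [Nat.sub_zero]
      exact Lx_le_pow hq hne (hμM j) hM)
  obtain ⟨L, hL⟩ : ∃ L : ℕ → ℕ, L = fun s => ∑ j, Lx w' (μ j - Ta.rk ℓ (u j) 0 s) := ⟨_, rfl⟩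
  have hsumL : ∑ s ∈ range ℓ, L s = ∑ j, Lx w (μ j) := by
    rw [hL, sum_comm]
    refine sum_congr rfl fun j _ => ?_
    rw [ThinS_rk (hu j) (fun t => Lx w' (μ j - t)), Lx_layer y w (μ j), ← hw', ← hℓ]
  have hsumWL : ∑ j, ∑ t ∈ range ℓ, ((Lx w' (μ j - t) : ℕ) : ℤ) = ∑ t ∈ range ℓ, (L t : ℤ) := by
    have e1 : ∑ t ∈ range ℓ, (L t : ℤ) = ((∑ t ∈ range ℓ, L t : ℕ) : ℤ) := by push_cast; rfl
    rw [e1, hsumL]
    push_cast
    refine sum_congr rfl fun j _ => ?_
    rw [Lx_layer y w (μ j), ← hw', ← hℓ]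
    push_cast
    rfl
  -- the sizes of the layers
  obtain ⟨β, hβ⟩ : ∃ β : ℕ → ℕ, β = fun s => (Rg (σ - s) w').card := ⟨_, rfl⟩
  have hsumβ : ∑ s ∈ range ℓ, β s = (Rg σ w).card := by
    rw [cnt_layer y σ w, ← hw', ← hℓ, hβ]
    rw [filter_true_of_mem]
    intro t ht
    rw [mem_range] at ht
    omega
  have hβd : ∀ s < ℓ, ∀ t < ℓ, β s ≤ β t + θ ^ (q + 1) := by
    intro s hs t ht
    rw [hβ]
    dsimp only
    rcases Nat.lt_or_ge s t with hst | hst
    · have h1 := ThinS_grow hhc (τ := σ - t) hq hθ1 hthin' (t - s) (by rw [hw'h]; omega)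
      have e1 : σ - t + (t - s) = σ - s := by omega
      rw [e1] at h1
      have h2 : (t - s) * θ ^ q ≤ θ * θ ^ q := Nat.mul_le_mul_right _ (by omega)
      have h3 : θ ^ (q + 1) = θ * θ ^ q := by ring
      omega
    · have h1 := cnt_mono (h := h) (w := w') (show σ - s ≤ σ - t by omega) (by rw [hw'h]; omega)
      omega
  have hkL : k ≤ ∑ s ∈ range ℓ, L s := by
    rw [hsumL]
    calc k = ∑ _j : Fin k, 1 := by simp
      _ ≤ ∑ j, Lx w (μ j) := sum_le_sum fun j _ => hμpos j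
  obtain ⟨xs, hxs1, hxs2, hxs3⟩ := distribute q θ (M ^ q) ℓ k K' x hℓ1 hℓθ β L hβd
    (by rw [hsumβ, hsumL]; omega) (by rw [hsumβ, hsumL]; omega) hkL
    (by
      rw [← hsumWL, hL]
      push_cast
      push_cast at hdev
      exact hdev)
    (by rw [hsumβ]; exact hx1) (by rw [hsumβ]; exact hx2)
  -- the family
  obtain ⟨μ', hμ'⟩ : ∃ μ' : Fin k ⊕ (Σ s : Fin ℓ, Fin (xs s)) → ℕ,
      μ' = Sum.elim μ (fun _ => 1) := ⟨_, rfl⟩
  obtain ⟨u', hu'⟩ : ∃ u' : Fin k ⊕ (Σ s : Fin ℓ, Fin (xs s)) → ℕ,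
      u' = Sum.elim u (fun p => (p.1 : ℕ)) := ⟨_, rfl⟩
  have hfam : (S₁ + Multiset.replicate x 1).map (Kind.free (ι := ι)) =
      (univ : Finset (Fin k ⊕ (Σ s : Fin ℓ, Fin (xs s)))).val.map (fun i => Kind.free (μ' i)) := by
    have hcard : Fintype.card (Σ s : Fin ℓ, Fin (xs s)) = x := by
      rw [Fintype.card_sigma, ← hxs1]
      simp only [Fintype.card_fin]
      exact Fin.sum_univ_eq_sum_range xs ℓ
    have e1 : (fun i => Kind.free (ι := ι) (μ' i)) =
        Sum.elim (fun j => Kind.free (μ j)) (fun _ => Kind.free 1) := by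
      funext i
      rw [hμ']
      rcases i with i | i
      · rfl
      · rfl
    rw [e1, multi_map_sum, ThinS_const, hcard, Multiset.map_add, Multiset.map_replicate, ← hμ,
      Multiset.map_map]
    rfl
  rw [hfam, GM_iff]
  refine layers (Rg σ w) y ℓ ?_ μ' u' ?_ ?_
  · intro a ha
    have h1 := (mem_Rg.1 ha).1 y
    omega
  · intro i
    rw [hu']
    rcases i with i | i
    · exact hu i
    · exact i.1.2
  · intro s hs
    rw [lyr_Rg y σ s w (by omega) (by omega), ← hw']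
    have hxx := ih s hs ((univ : Finset (Fin k)).val.map (fun j => μ j - Ta.rk ℓ (u j) 0 s))
      (fun m hm => by
        obtain ⟨j, _, rfl⟩ := Multiset.mem_map.1 hm
        exact (Nat.sub_le _ _).trans (hμM j)) (xs s)
      (by
        have h1 := hxs3 s hs
        rw [hβ] at h1
        exact h1)
      (by
        have h1 := hxs2 s hs
        rw [hβ, hL] at h1
        rw [Multiset.map_map]
        exact h1)
    have e1 : ((univ : Finset (Fin k)).val.map (fun j => μ j - Ta.rk ℓ (u j) 0 s) +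
        Multiset.replicate (xs s) 1).map (Kind.free (ι := ι)) =
        (univ : Finset (Fin k ⊕ Fin (xs s))).val.map
          (Sum.elim (fun j => Kind.free (μ j - Ta.rk ℓ (u j) 0 s)) (fun _ => Kind.free 1)) := by
      rw [multi_map_sum, ThinS_const, Fintype.card_fin, Multiset.map_add, Multiset.map_replicate,
        Multiset.map_map]
      rfl
    rw [e1, GM_iff] at hxx
    refine GI.of_comp (fun i : Fin k ⊕ Fin (xs s) =>
      (Sum.elim Sum.inl (fun t => Sum.inr ⟨⟨s, hs⟩, t⟩) i :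
        Fin k ⊕ (Σ s : Fin ℓ, Fin (xs s)))) ?_ ?_
    · rintro (i | i) (j | j) hij
      · exact congrArg Sum.inl (Sum.inl_injective hij)
      · exact absurd hij (by simp)
      · exact absurd hij (by simp)
      · have h1 := Sum.inr_injective hij
        have h2 := eq_of_heq (Sigma.mk.inj h1).2
        exact congrArg Sum.inr h2
    · have e2 : (fun i : Fin k ⊕ Fin (xs s) => Kind.free (ι := ι)
          (μ' (Sum.elim Sum.inl (fun t => Sum.inr ⟨⟨s, hs⟩, t⟩) i) -
            Ta.rk ℓ (u' (Sum.elim Sum.inl (fun t => Sum.inr ⟨⟨s, hs⟩, t⟩) i)) 0 s)) =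
          Sum.elim (fun j => Kind.free (μ j - Ta.rk ℓ (u j) 0 s)) (fun _ => Kind.free 1) := by
        funext i
        rw [hμ', hu']
        rcases i with i | i
        · rfl
        · show Kind.free (1 - Ta.rk ℓ s 0 s) = Kind.free 1
          rw [ThinS_rk_self]
      rw [e2]
      exact hxx

end Pool.Agent.H18.Tj
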